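import Pool.Agent.TH97.VR.Sep

/-!
# The action on the dual median graph
-/

set_option autoImplicit false

namespace Pool.Agent.TH97.VR

open Pool.Agent.H97R3.VR
open Pointwise

section lab

variable {P : Type} {𝓗 : Set (Set P)} {o : P}

theorem lab_inj (S : HSys 𝓗) {x y z : Vt 𝓗 o} (h : y.1 \ x.1 = z.1 \ x.1) : y = z := by
  rw [← DD_zero S]
  unfold DD
  rw [Set.ncard_eq_zero (diff_finite S _ _), Set.sdiff_eq_empty]
  intro k hk
  by_contra hkz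
  by_cases hkx : k ∈ x.1
  · have h1 : kᶜ ∈ z.1 := mem_of_not (y.2.sub hk) hkz
    have h2 : kᶜ ∈ z.1 \ x.1 := ⟨h1, not_of_mem hkx⟩
    rw [← h] at h2
    exact not_of_mem hk h2.1
  · have h2 : k ∈ y.1 \ x.1 := ⟨hk, hkx⟩
    rw [h] at h2
    exact hkz h2.1

theorem adj_lab (S : HSys 𝓗) {x y : Vt 𝓗 o} (h : (ZG S o).Adj x y) :
    ∃ k, y.1 \ x.1 = {k} ∧ x.1 \ y.1 = {kᶜ} := by
  have h1 : DD y x = 1 := by rw [DD_symm S]; exact h
  obtain ⟨k, hk⟩ := Set.ncard_eq_one.1 h1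
  refine ⟨k, hk, ?_⟩
  rw [← diff_compl S, hk, Set.image_singleton]

theorem btw_of_adj (S : HSys 𝓗) {x y w : Vt 𝓗 o} (h1 : (ZG S o).Adj x y) (h2 : (ZG S o).Adj y w)
    (hne : x ≠ w) : x.1 ∩ w.1 ⊆ y.1 := by
  rw [← btw_iff S]
  unfold H97R3.VR.Btw
  rw [dist_two (ZG_median S o) h1.symm h2 hne, adj_one h1, adj_one h2]

theorem sq_lab (S : HSys 𝓗) {x y w z : Vt 𝓗 o} (h : Square (ZG S o) x y w z) :
    y.1 \ x.1 = w.1 \ z.1 := by
  have b1 := btw_of_adj S h.xy h.yw h.ne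
  have b2 := btw_of_adj S h.zx.symm h.wz.symm h.ne
  have b3 := btw_of_adj S h.xy.symm h.zx.symm h.ne'
  have b4 := btw_of_adj S h.yw h.wz h.ne'
  ext k
  constructor
  · rintro ⟨h1, h2⟩
    refine ⟨?_, fun h3 => h2 (b3 ⟨h1, h3⟩)⟩
    by_contra h3
    have hk := y.2.sub h1
    exact not_of_mem h1 (b1 ⟨mem_of_not hk h2, mem_of_not hk h3⟩)
  · rintro ⟨h1, h2⟩
    refine ⟨?_, fun h3 => h2 (b2 ⟨h3, h1⟩)⟩
    by_contra h3
    have hk := w.2.sub h1
    exact not_of_mem h1 (b4 ⟨mem_of_not hk h3, mem_of_not hk h2⟩)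

/-- the half spaces exchanged along the edges at `x` -/
def Bd (S : HSys 𝓗) (x : Vt 𝓗 o) : Set (Set P) :=
  {h | ∃ y, (ZG S o).Adj x y ∧ (h ∈ y.1 \ x.1 ∨ h ∈ x.1 \ y.1)}

theorem Bd_compl (S : HSys 𝓗) {x : Vt 𝓗 o} {h : Set P} (hh : h ∈ Bd S x) : hᶜ ∈ Bd S x := by
  obtain ⟨y, h1, h2⟩ := hh
  obtain ⟨k, e1, e2⟩ := adj_lab S h1
  refine ⟨y, h1, ?_⟩
  rw [e1, e2] at h2 ⊢
  rcases h2 with h2 | h2
  · right
    rw [Set.mem_singleton_iff] at h2 ⊢
    rw [h2]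
  · left
    rw [Set.mem_singleton_iff] at h2 ⊢
    rw [h2, compl_compl]

end lab

section act

variable {G V : Type} [Group G] {N : Subgroup G} [MulAction N V] {X : SimpleGraph V}
  {d : G → G → ℕ} {δ : ℕ}

/-- the action on vertices -/
def gV (c : Cx N X d δ) (v0 : V) (g : G) (σ : Vt (HF N X v0) (1 : G)) : Vt (HF N X v0) (1 : G) :=
  ⟨g • σ.1, by
    refine ⟨?_, ?_, ?_, ?_⟩
    · rintro _ ⟨h, hh, rfl⟩
      exact smul_mem_HF (σ.2.sub hh) g
    · intro h hh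
      rw [Set.mem_smul_set_iff_inv_smul_mem, Set.mem_smul_set_iff_inv_smul_mem,
        Set.smul_set_compl]
      exact σ.2.alt _ (smul_mem_HF hh _)
    · intro h hh k hk hsub
      rw [Set.mem_smul_set_iff_inv_smul_mem] at hh ⊢
      exact σ.2.up _ hh _ (smul_mem_HF hk _) (Set.smul_set_mono hsub)
    · refine ((σ.2.fin.union (HF_fin c v0 1 g⁻¹)).image (fun h => g • h)).subset ?_
      rintro _ ⟨⟨h, hh, rfl⟩, h1⟩
      refine ⟨h, ?_, rfl⟩
      by_cases h2 : (1 : G) ∈ h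
      · right
        refine ⟨σ.2.sub hh, h2, fun h3 => h1 ?_⟩
        show (1 : G) ∈ g • h
        rw [Set.mem_smul_set_iff_inv_smul_mem, smul_eq_mul, mul_one]
        exact h3
      · exact Or.inl ⟨hh, h2⟩⟩

/-- the action -/
@[reducible] def actZ (c : Cx N X d δ) (v0 : V) : MulAction G (Vt (HF N X v0) (1 : G)) where
  smul g σ := gV c v0 g σ
  one_smul σ := Subtype.ext (one_smul G σ.1)
  mul_smul g g' σ := Subtype.ext (mul_smul g g' σ.1)

theorem smulZ (c : Cx N X d δ) (v0 : V) (g : G) (σ : Vt (HF N X v0) (1 : G)) :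
    letI := actZ c v0
    (g • σ).1 = g • σ.1 := rfl

theorem smul_pt (c : Cx N X d δ) (v0 : V) (g a : G) :
    letI := actZ c v0
    g • pt (HF_sys c v0) 1 a = pt (HF_sys c v0) 1 (g * a) := by
  letI := actZ c v0
  apply Subtype.ext
  rw [smulZ c v0]
  ext h
  rw [Set.mem_smul_set_iff_inv_smul_mem]
  constructor
  · rintro ⟨h1, h2⟩
    rw [Set.mem_smul_set_iff_inv_smul_mem, inv_inv] at h2
    have := smul_mem_HF h1 g
    rw [smul_inv_smul] at this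
    exact ⟨this, h2⟩
  · rintro ⟨h1, h2⟩
    refine ⟨smul_mem_HF h1 _, ?_⟩
    rw [Set.mem_smul_set_iff_inv_smul_mem, inv_inv]
    exact h2

theorem DD_smul (c : Cx N X d δ) (v0 : V) (g : G) (σ τ : Vt (HF N X v0) (1 : G)) :
    letI := actZ c v0
    DD (g • σ) (g • τ) = DD σ τ := by
  letI := actZ c v0
  unfold DD
  rw [smulZ c v0, smulZ c v0, ← Set.smul_set_sdiff]
  exact Set.ncard_image_of_injective _ (MulAction.injective g)

theorem adj_smul (c : Cx N X d δ) (v0 : V) (g : G) (σ τ : Vt (HF N X v0) (1 : G)) :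
    letI := actZ c v0
    (ZG (HF_sys c v0) 1).Adj σ τ → (ZG (HF_sys c v0) 1).Adj (g • σ) (g • τ) := by
  letI := actZ c v0
  intro h
  show DD (g • σ) (g • τ) = 1
  rw [DD_smul c v0]
  exact h

/-- balls about the base vertex are finite -/
theorem ballZ (c : Cx N X d δ) (v0 : V) (n : ℕ) :
    {x : Vt (HF N X v0) (1 : G) | DD x (pt (HF_sys c v0) 1 1) ≤ n}.Finite := by
  obtain ⟨R, M, hRM⟩ := center' c v0
  obtain ⟨ρ, hρ⟩ := sep_proper c v0 (n + M)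
  obtain ⟨M', hM'⟩ := near_bdd c v0 R
  have S := HF_sys c v0
  refine (Set.Finite.biUnion (c.fin ρ) (t := fun g => {x : Vt (HF N X v0) (1 : G) |
    x.1 \ (pt S 1 g).1 ⊆ {h | h ∈ HF N X v0 ∧ g ∉ h ∧ ∃ b ∈ h, d g b ≤ R}}) fun g _ => ?_).subset ?_
  · refine Set.Finite.of_finite_image (f := fun x => x.1 \ (pt S 1 g).1) ?_ ?_
    · refine (hM' g).1.finite_subsets.subset ?_
      rintro _ ⟨x, hx, rfl⟩
      exact hx
    · intro x _ y _ h
      exact lab_inj S h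
  · intro x hx
    obtain ⟨g, hg1, hg2⟩ := hRM x
    have h1 := DD_tri S (pt S 1 1) x (pt S 1 g)
    have h2 := DD_symm S (pt S 1 1) x
    have hx' : DD x (pt S 1 1) ≤ n := hx
    have h3 : DD x (pt S 1 g) ≤ M := hg2
    refine Set.mem_biUnion (show g ∈ {g | d 1 g ≤ ρ} from hρ 1 g (by
      show DD (pt S 1 1) (pt S 1 g) ≤ n + M
      omega)) ?_
    rintro h ⟨h4, h5⟩
    exact ⟨x.2.sub h4, fun h6 => h5 ⟨x.2.sub h4, h6⟩, hg1 h h4⟩

theorem cocZ (c : Cx N X d δ) (v0 : V) : ∃ T : Set (Vt (HF N X v0) (1 : G)), T.Finite ∧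
    letI := actZ c v0
    ∀ x, ∃ g : G, g • x ∈ T := by
  letI := actZ c v0
  obtain ⟨R, M, hRM⟩ := center' c v0
  refine ⟨_, ballZ c v0 M, fun x => ?_⟩
  obtain ⟨g, -, hg⟩ := hRM x
  refine ⟨g⁻¹, ?_⟩
  show DD (g⁻¹ • x) (pt (HF_sys c v0) 1 1) ≤ M
  rw [← DD_smul c v0 g, smul_inv_smul, smul_pt c v0, mul_one]
  exact hg

theorem locZ (c : Cx N X d δ) (v0 : V) (x : Vt (HF N X v0) (1 : G)) :
    ((ZG (HF_sys c v0) 1).neighborSet x).Finite := by
  have S := HF_sys c v0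
  refine (ballZ c v0 (DD x (pt S 1 1) + 1)).subset ?_
  intro y hy
  have h1 : DD x y = 1 := hy
  have h2 := DD_tri S y x (pt S 1 1)
  have h3 := DD_symm S x y
  show DD y (pt S 1 1) ≤ DD x (pt S 1 1) + 1
  omega

theorem Bd_finite (c : Cx N X d δ) (v0 : V) (x : Vt (HF N X v0) (1 : G)) :
    (Bd (HF_sys c v0) x).Finite := by
  refine (Set.Finite.biUnion (locZ c v0 x) (t := fun y => (y.1 \ x.1) ∪ (x.1 \ y.1)) fun y _ =>
    (diff_finite (HF_sys c v0) _ _).union (diff_finite (HF_sys c v0) _ _)).subset ?_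
  rintro h ⟨y, h1, h2⟩
  exact Set.mem_biUnion h1 h2

theorem smul_Bd (c : Cx N X d δ) (v0 : V) (g : G) {x : Vt (HF N X v0) (1 : G)} {h : Set G}
    (hh : h ∈ Bd (HF_sys c v0) x) :
    letI := actZ c v0
    g • h ∈ Bd (HF_sys c v0) (g • x) := by
  letI := actZ c v0
  obtain ⟨y, h1, h2⟩ := hh
  refine ⟨g • y, adj_smul c v0 g _ _ h1, ?_⟩
  rw [smulZ c v0, smulZ c v0, ← Set.smul_set_sdiff, ← Set.smul_set_sdiff]
  rcases h2 with h2 | h2
  · exact Or.inl (Set.smul_mem_smul_set h2)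
  · exact Or.inr (Set.smul_mem_smul_set h2)

/-- the finite index subgroup of `G` with special quotient -/
theorem exists_N1 (c : Cx N X d δ) (hsp : IsSpecialAction X (⊤ : Subgroup N)) (v0 : V) :
    ∃ N1 : Subgroup G, N1.FiniteIndex ∧ N1 ≤ N ∧ ∀ n ∈ N1, ∀ x : Vt (HF N X v0) (1 : G),
      ∀ h ∈ Bd (HF_sys c v0) x, ∀ k ∈ Bd (HF_sys c v0) x, (n • k = h → h = k) ∧
        (Cross h (n • k) → Cross h k) := by
  classical
  letI := actZ c v0
  have S := HF_sys c v0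
  obtain ⟨T, hT, hcov⟩ := cocZ c v0
  have hBdHF : ∀ x : Vt (HF N X v0) (1 : G), Bd S x ⊆ HF N X v0 := by
    rintro x h ⟨y, -, h2 | h2⟩
    · exact y.2.sub h2.1
    · exact x.2.sub h2.1
  set P : Set (Set G × Set G) := ⋃ x ∈ T, Bd S x ×ˢ Bd S x with hP
  have hPf : P.Finite := hT.biUnion fun x _ => (Bd_finite c v0 x).prod (Bd_finite c v0 x)
  have hK : ∀ p : Set G × Set G, ∃ K : Subgroup G, K.FiniteIndex ∧ (p ∈ P → ∀ n ∈ K,
      (n • p.2 = p.1 → p.1 = p.2) ∧ (Cross p.1 (n • p.2) → Cross p.1 p.2)) := by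
    intro p
    by_cases hp : p ∈ P
    · obtain ⟨x, hx, h1, h2⟩ := Set.mem_iUnion₂.1 hp
      obtain ⟨K, hK1, hK2⟩ := sep c hsp v0 (hBdHF x h1) (hBdHF x h2)
      exact ⟨K, hK1, fun _ => hK2⟩
    · exact ⟨⊤, inferInstance, fun h => absurd h hp⟩
  choose K hK1 hK2 using hK
  have : Finite P := hPf
  have hfi : (⨅ p : P, K p.1).FiniteIndex := Subgroup.finiteIndex_iInf fun p => hK1 p.1
  have hN := c.idx
  have hfi2 : ((⨅ p : P, K p.1) ⊓ N).FiniteIndex := inferInstance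
  refine ⟨((⨅ p : P, K p.1) ⊓ N).normalCore, inferInstance,
    (Subgroup.normalCore_le _).trans inf_le_right, ?_⟩
  intro n hn x h hh k hk
  obtain ⟨g, hg⟩ := hcov x
  have hn' : g * n * g⁻¹ ∈ ((⨅ p : P, K p.1) ⊓ N).normalCore :=
    (Subgroup.normalCore_normal _).conj_mem n hn g
  have hp : (g • h, g • k) ∈ P := Set.mem_biUnion hg ⟨smul_Bd c v0 g hh, smul_Bd c v0 g hk⟩
  have hnK : g * n * g⁻¹ ∈ K (g • h, g • k) := by
    have h1 := (Subgroup.normalCore_le _ hn').1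
    exact (Subgroup.mem_iInf.1 h1) ⟨_, hp⟩
  obtain ⟨h1, h2⟩ := hK2 _ hp _ hnK
  have e : (g * n * g⁻¹) • g • k = g • n • k := by
    rw [← mul_smul, ← mul_smul]
    congr 1
    group
  constructor
  · intro h3
    have h4 : g • h = g • k := h1 (by
      show (g * n * g⁻¹) • g • k = g • h
      rw [e, h3])
    exact (smul_left_cancel_iff g).1 h4
  · intro h3
    have h4 : Cross (g • h) (g • k) := h2 (by
      show Cross (g • h) ((g * n * g⁻¹) • g • k)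
      rw [e]
      exact h3.smul g)
    have := h4.smul g⁻¹
    rwa [inv_smul_smul, inv_smul_smul] at this

end act

end Pool.Agent.TH97.VR
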