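import Mathlib

/-!
# Integer valued hyperbolic metrics
-/

set_option autoImplicit false

namespace Pool.Agent.TH97.VR

/-- an integer valued metric with geodesics -/
structure NM {α : Type} (d : α → α → ℕ) : Prop where
  self : ∀ x, d x x = 0
  eq : ∀ x y, d x y = 0 → x = y
  symm : ∀ x y, d x y = d y x
  tri : ∀ x y z, d x z ≤ d x y + d y z
  geo : ∀ x y n, n ≤ d x y → ∃ z, d x z = n ∧ d z y + n = d x y

/-- four point condition -/
def H4 {α : Type} (d : α → α → ℕ) (δ : ℕ) : Prop :=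
  ∀ x y z w, d x y + d z w ≤ max (d x z + d y w) (d x w + d y z) + 2 * δ

variable {α : Type} {d : α → α → ℕ}

theorem H4.or {δ : ℕ} (h : H4 d δ) (x y z w : α) :
    d x y + d z w ≤ d x z + d y w + 2 * δ ∨ d x y + d z w ≤ d x w + d y z + 2 * δ := by
  have := h x y z w
  rcases le_total (d x z + d y w) (d x w + d y z) with h1 | h1
  · rw [max_eq_right h1] at this
    exact Or.inr this
  · rw [max_eq_left h1] at this
    exact Or.inl this

/-- two points of an interval -/
theorem same_interval (hd : NM d) {δ : ℕ} (h : H4 d δ) {x y m m' : α}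
    (h1 : d x m + d m y = d x y) (h2 : d x m' + d m' y = d x y) :
    d m m' + d x m ≤ d x m' + 2 * δ ∨ d m m' + d x m' ≤ d x m + 2 * δ := by
  have e1 := hd.symm m x
  have e2 := hd.symm m' x
  have e3 := hd.symm m' y
  have e4 := hd.symm m y
  rcases h.or m m' x y with h3 | h3
  · right; omega
  · left; omega

/-- chains with short steps and all points in `A` -/
inductive Ch (d : α → α → ℕ) (E : ℕ) (A : α → Prop) : ℕ → α → α → Prop
  | nil (x : α) : A x → Ch d E A 0 x x
  | cons (n : ℕ) (x y z : α) : Ch d E A n x y → A z → d y z ≤ E → Ch d E A (n + 1) x z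

theorem Ch.left {E : ℕ} {A : α → Prop} {n : ℕ} {x y : α} (h : Ch d E A n x y) : A x := by
  induction h with
  | nil x h => exact h
  | cons n x y z _ _ _ ih => exact ih

theorem Ch.right {E : ℕ} {A : α → Prop} {n : ℕ} {x y : α} (h : Ch d E A n x y) : A y := by
  cases h with
  | nil x h => exact h
  | cons n x y z _ h _ => exact h

theorem Ch.trans {E : ℕ} {A : α → Prop} {n m : ℕ} {x y z : α} (h : Ch d E A n x y)
    (h' : Ch d E A m y z) : Ch d E A (n + m) x z := by
  induction h' with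
  | nil _ _ => exact h
  | cons m y z w _ h1 h2 ih => exact Ch.cons _ _ _ _ (ih h) h1 h2

theorem Ch.split {E : ℕ} {A : α → Prop} (a : ℕ) : ∀ (b : ℕ) (x y : α), Ch d E A (a + b) x y →
    ∃ w, Ch d E A a x w ∧ Ch d E A b w y := by
  intro b
  induction b with
  | zero =>
    intro x y h
    exact ⟨y, h, Ch.nil y h.right⟩
  | succ b ih =>
    intro x y h
    cases h with
    | cons _ _ z _ h1 h2 h3 =>
      obtain ⟨w, hw1, hw2⟩ := ih x z h1
      exact ⟨w, hw1, Ch.cons _ _ _ _ hw2 h2 h3⟩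

theorem Ch.symm (hd : NM d) {E : ℕ} {A : α → Prop} {n : ℕ} {x y : α} (h : Ch d E A n x y) :
    Ch d E A n y x := by
  induction h with
  | nil x h => exact Ch.nil x h
  | cons n x y z h1 h2 h3 ih =>
    have h4 : Ch d E A 1 z y := Ch.cons 0 z z y (Ch.nil z h2) h1.right (by rw [hd.symm]; exact h3)
    have := h4.trans ih
    rwa [Nat.add_comm] at this

theorem Ch.near (hd : NM d) {δ : ℕ} (hyp : H4 d δ) {E : ℕ} {A : α → Prop} (z : α) (m : ℕ) :
    ∀ (n : ℕ) (x y : α), n ≤ 2 ^ m → Ch d E A n x y →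
      ∃ p, A p ∧ 2 * d z p + d x y ≤ d z x + d z y + 2 * δ * m + 2 * E := by
  induction m with
  | zero =>
    intro n x y hn h
    cases h with
    | nil _ h =>
      refine ⟨x, h, ?_⟩
      rw [hd.self]
      omega
    | cons k _ w _ h1 h2 h3 =>
      have hk : k = 0 := by
        rw [pow_zero] at hn
        omega
      subst hk
      cases h1 with
      | nil _ h =>
        refine ⟨x, h, ?_⟩
        have h4 := hd.tri z y x
        have h5 := hd.symm x y
        omega
  | succ m ih =>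
    intro n x y hn h
    rw [pow_succ] at hn
    obtain ⟨a, b, rfl, ha, hb⟩ : ∃ a b, n = a + b ∧ a ≤ 2 ^ m ∧ b ≤ 2 ^ m :=
      ⟨n / 2, n - n / 2, by omega, by omega, by omega⟩
    obtain ⟨w, hw1, hw2⟩ := Ch.split a b x y h
    have e1 := hd.symm w z
    have e2 := hd.symm y z
    have e3 := hd.symm x z
    have e4 := hd.symm y w
    have e5 : 2 * δ * (m + 1) = 2 * δ * m + 2 * δ := by ring
    rcases hyp.or x y w z with h1 | h1
    · obtain ⟨p, hp1, hp2⟩ := ih a x w ha hw1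
      refine ⟨p, hp1, ?_⟩
      omega
    · obtain ⟨p, hp1, hp2⟩ := ih b w y hb hw2
      refine ⟨p, hp1, ?_⟩
      omega

theorem Ch.geod (hd : NM d) {E : ℕ} (hE : 1 ≤ E) {A : α → Prop} (n : ℕ) : ∀ x y, d x y = n →
    (∀ w, d x w + d w y = d x y → A w) → Ch d E A n x y := by
  induction n with
  | zero =>
    intro x y h hA
    obtain rfl := hd.eq x y h
    exact Ch.nil x (hA x (by rw [hd.self]))
  | succ n ih =>
    intro x y h hA
    obtain ⟨z, h1, h2⟩ := hd.geo x y n (by omega)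
    refine Ch.cons n x z y (ih x z h1 ?_) (hA y (by rw [hd.self, add_zero])) (by omega)
    intro w hw
    apply hA
    have h3 := hd.tri w z y
    have h4 := hd.tri x w y
    omega

/-- a chain along a sequence -/
theorem Ch.seq (_hd : NM d) {E : ℕ} {A : α → Prop} (q : ℕ → α) (i n : ℕ)
    (hA : ∀ l, i ≤ l → l ≤ i + n → A (q l)) (hs : ∀ l, i ≤ l → l < i + n → d (q l) (q (l + 1)) ≤ E) :
    Ch d E A n (q i) (q (i + n)) := by
  induction n with
  | zero => exact Ch.nil _ (hA i le_rfl le_rfl)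
  | succ n ih =>
    refine Ch.cons n _ (q (i + n)) _ (ih (fun l h1 h2 => hA l h1 (by omega))
      (fun l h1 h2 => hs l h1 (by omega))) (hA _ (by omega) (by omega)) ?_
    exact hs (i + n) (by omega) (by omega)

/-- quasi-geodesic sequences -/
structure QG (d : α → α → ℕ) (C k : ℕ) (q : ℕ → α) : Prop where
  step : ∀ i < k, d (q i) (q (i + 1)) ≤ C
  lower : ∀ i j, i ≤ j → j ≤ k → j ≤ i + C * d (q i) (q j) + C

theorem morse_core (hd : NM d) {δ : ℕ} (hyp : H4 d δ) {C k : ℕ} (hC : 1 ≤ C) {q : ℕ → α}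
    (hq : QG d C k q) {z0 : α} {D : ℕ} (hz : d (q 0) z0 + d z0 (q k) = d (q 0) (q k))
    (h1 : ∀ i ≤ k, D ≤ d z0 (q i))
    (h2 : ∀ z, d (q 0) z + d z (q k) = d (q 0) (q k) → ∃ i ≤ k, d z (q i) ≤ D)
    {m : ℕ} (hm : (2 + 6 * C) * D + C ≤ 2 ^ m) : D ≤ δ * m + C := by
  -- left point
  obtain ⟨y, i, hy1, hi, hy2, hy3, hy4⟩ : ∃ y i, d (q 0) y + d y z0 = d (q 0) z0 ∧ i ≤ k ∧
      d y (q i) ≤ D ∧ d y z0 ≤ 2 * D ∧ (∀ w, d y w + d w (q i) = d y (q i) → D ≤ d z0 w) := by
    by_cases hc : d (q 0) z0 ≤ 2 * D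
    · refine ⟨q 0, 0, by rw [hd.self, zero_add], Nat.zero_le _, by rw [hd.self]; exact Nat.zero_le _,
        hc, ?_⟩
      intro w hw
      rw [hd.self] at hw
      have : q 0 = w := hd.eq _ _ (by omega)
      rw [← this]
      exact h1 0 (Nat.zero_le _)
    · obtain ⟨y, hy1, hy2⟩ := hd.geo z0 (q 0) (2 * D) (by rw [hd.symm]; omega)
      have e1 := hd.symm (q 0) z0
      have e2 := hd.symm y (q 0)
      have e3 := hd.symm y z0
      have t1 := hd.tri y z0 (q k)
      have t2 := hd.tri (q 0) y (q k)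
      obtain ⟨i, hi, h3⟩ := h2 y (by omega)
      refine ⟨y, i, by omega, hi, h3, by omega, ?_⟩
      intro w hw
      have t3 := hd.tri z0 w y
      have e4 := hd.symm w y
      omega
  obtain ⟨z, j, hz1, hj, hz2, hz3, hz4⟩ : ∃ z j, d z0 z + d z (q k) = d z0 (q k) ∧ j ≤ k ∧
      d z (q j) ≤ D ∧ d z0 z ≤ 2 * D ∧ (∀ w, d z w + d w (q j) = d z (q j) → D ≤ d z0 w) := by
    by_cases hc : d z0 (q k) ≤ 2 * D
    · refine ⟨q k, k, by rw [hd.self, add_zero], le_rfl, by rw [hd.self]; exact Nat.zero_le _,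
        hc, ?_⟩
      intro w hw
      rw [hd.self] at hw
      have : q k = w := hd.eq _ _ (by omega)
      rw [← this]
      exact h1 k le_rfl
    · obtain ⟨z, hz1, hz2⟩ := hd.geo z0 (q k) (2 * D) (by omega)
      have t1 := hd.tri (q 0) z0 z
      have t2 := hd.tri (q 0) z (q k)
      obtain ⟨j, hj, h3⟩ := h2 z (by omega)
      refine ⟨z, j, by omega, hj, h3, by omega, ?_⟩
      intro w hw
      have t3 := hd.tri z0 w z
      have e4 := hd.symm w z
      omega
  set A : α → Prop := fun w => D ≤ d z0 w with hA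
  have c1 : Ch d C A (d y (q i)) y (q i) := Ch.geod hd hC _ _ _ rfl hy4
  have c3 : Ch d C A (d z (q j)) z (q j) := Ch.geod hd hC _ _ _ rfl hz4
  -- middle chain
  have t4 := hd.tri (q i) y (q j)
  have t5 := hd.tri y z (q j)
  have t6 := hd.tri y z0 z
  have e5 := hd.symm (q i) y
  have e6 := hd.symm z0 y
  have e7 := hd.symm (q i) (q j)
  have hij : d (q i) (q j) ≤ 6 * D := by omega
  have hCij : C * d (q i) (q j) ≤ C * (6 * D) := Nat.mul_le_mul_left C hij
  obtain ⟨l, hl, c2⟩ : ∃ l, l ≤ C * d (q i) (q j) + C ∧ Ch d C A l (q i) (q j) := by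
    rcases le_total i j with h | h
    · obtain ⟨l, rfl⟩ := Nat.exists_eq_add_of_le h
      refine ⟨l, ?_, Ch.seq hd q i l (fun t _ h' => h1 t (by omega))
        (fun t _ h' => hq.step t (by omega))⟩
      have := hq.lower i (i + l) h hj
      omega
    · obtain ⟨l, rfl⟩ := Nat.exists_eq_add_of_le h
      refine ⟨l, ?_, (Ch.seq hd q j l (fun t _ h' => h1 t (by omega))
        (fun t _ h' => hq.step t (by omega))).symm hd⟩
      have := hq.lower j (j + l) h hi
      rw [e7]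
      omega
  have c4 := (c1.trans c2).trans (c3.symm hd)
  have hlen : d y (q i) + l + d z (q j) ≤ 2 ^ m := by
    refine le_trans ?_ hm
    have : (2 + 6 * C) * D + C = 2 * D + C * (6 * D) + C := by ring
    omega
  obtain ⟨p, hp1, hp2⟩ := c4.near hd hyp z0 m _ _ _ hlen
  have hyz : d z0 y + d z0 z = d y z := by
    have t7 := hd.tri (q 0) y z
    have t8 := hd.tri (q 0) z (q k)
    have t9 := hd.tri (q 0) y (q k)
    have t10 := hd.tri y z (q k)
    omega
  have hp3 : D ≤ d z0 p := hp1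
  have e8 : 2 * δ * m = 2 * (δ * m) := by ring
  omega

theorem log_bound (a b c e : ℕ) : ∃ R, ∀ D, (∀ m, a * D + b ≤ 2 ^ m → D ≤ c * m + e) → D ≤ R := by
  have key : ∀ s : ℕ, s * s ≤ 2 ^ (2 * s) := by
    intro s
    have h1 : s < 2 ^ s := Nat.lt_two_pow_self
    rw [two_mul, pow_add]
    exact Nat.mul_le_mul h1.le h1.le
  set K := 2 * a * c + (2 * a * c + a * e + b) + 1 with hK
  have large : ∀ m, 2 * K ≤ m → a * (c * (m + 1) + e) + b ≤ 2 ^ m := by
    intro m hm
    obtain ⟨s, hs⟩ : ∃ s, s = m / 2 := ⟨_, rfl⟩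
    have h1 : K ≤ s := by omega
    have h2 : 2 ^ (2 * s) ≤ 2 ^ m := Nat.pow_le_pow_right (by norm_num) (by omega)
    refine le_trans (le_trans ?_ (key s)) h2
    have h3 : a * (c * (m + 1) + e) + b ≤ a * (c * (2 * s + 2) + e) + b := by
      have : m + 1 ≤ 2 * s + 2 := by omega
      have := Nat.mul_le_mul_left c this
      have := Nat.mul_le_mul_left a (Nat.add_le_add_right this e)
      omega
    refine h3.trans ?_
    have h4 : a * (c * (2 * s + 2) + e) + b = (2 * a * c) * s + (2 * a * c + a * e + b) := by ring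
    rw [h4]
    have h5 : 1 ≤ s := by omega
    calc (2 * a * c) * s + (2 * a * c + a * e + b)
        ≤ (2 * a * c) * s + (2 * a * c + a * e + b) * s :=
          Nat.add_le_add_left (Nat.le_mul_of_pos_right _ h5) _
      _ = (2 * a * c + (2 * a * c + a * e + b)) * s := by ring
      _ ≤ s * s := Nat.mul_le_mul_right s (by omega)
  refine ⟨c * (2 * K) + e, fun D hD => ?_⟩
  by_contra hc
  push Not at hc
  have hex : ∃ m, a * D + b ≤ 2 ^ m := ⟨a * D + b, Nat.lt_two_pow_self.le⟩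
  have h1 := Nat.find_spec hex
  have h2 := hD _ h1
  set m := Nat.find hex with hm
  have h3 : 2 * K < m := by
    by_contra h4
    push Not at h4
    have := Nat.mul_le_mul_left c h4
    omega
  obtain ⟨t, ht⟩ : ∃ t, m = t + 1 := ⟨m - 1, by omega⟩
  have h4 : ¬ (a * D + b ≤ 2 ^ t) := Nat.find_min hex (by omega)
  apply h4
  refine le_trans ?_ (large t (by omega))
  rw [ht] at h2
  have := Nat.mul_le_mul_left a h2
  omega

/-- points of a geodesic are near a quasi-geodesic with the same ends -/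
theorem morse_a (hd : NM d) {δ : ℕ} (hyp : H4 d δ) (C : ℕ) : ∃ R, ∀ (k : ℕ) (q : ℕ → α),
    QG d C k q → ∀ z, d (q 0) z + d z (q k) = d (q 0) (q k) → ∃ i ≤ k, d z (q i) ≤ R := by
  -- we may enlarge `C`
  obtain ⟨R, hR⟩ := log_bound (2 + 6 * (C + 1)) (C + 1) δ (C + 1)
  refine ⟨R, fun k q hq z hz => ?_⟩
  have hq' : QG d (C + 1) k q := by
    refine ⟨fun i hi => (hq.step i hi).trans (Nat.le_succ C), fun i j hi hj => ?_⟩
    have h1 := hq.lower i j hi hj
    have h2 : (C + 1) * d (q i) (q j) = C * d (q i) (q j) + d (q i) (q j) := by ring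
    omega
  set Q : ℕ → Prop := fun D => ∃ z, d (q 0) z + d z (q k) = d (q 0) (q k) ∧
    ∀ i ≤ k, D ≤ d z (q i) with hQ
  have hQ0 : Q 0 := ⟨z, hz, fun _ _ => Nat.zero_le _⟩
  have hQb : ∀ D, Q D → D ≤ d (q 0) (q k) := by
    rintro D ⟨w, hw1, hw2⟩
    have h1 := hw2 0 (Nat.zero_le _)
    have h2 := hd.symm w (q 0)
    omega
  classical
  obtain ⟨D, hD1, hD2⟩ : ∃ D, Q D ∧ ¬ Q (D + 1) := by
    by_contra hcon
    push Not at hcon
    have : ∀ n, Q n := fun n => by
      induction n with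
      | zero => exact hQ0
      | succ n ih => exact hcon n ih
    have := hQb _ (this (d (q 0) (q k) + 1))
    omega
  obtain ⟨z0, hz0, hz1⟩ := hD1
  have h2 : ∀ z, d (q 0) z + d z (q k) = d (q 0) (q k) → ∃ i ≤ k, d z (q i) ≤ D := by
    intro w hw
    by_contra hcon
    push Not at hcon
    exact hD2 ⟨w, hw, fun i hi => hcon i hi⟩
  obtain ⟨i, hi, hi2⟩ := h2 z hz
  refine ⟨i, hi, hi2.trans (hR D fun m hm => ?_)⟩
  exact morse_core hd hyp (by omega) hq' hz0 hz1 h2 hm

/-- points of a quasi-geodesic are near a geodesic with the same ends -/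
theorem morse_b (hd : NM d) {δ : ℕ} (hyp : H4 d δ) (C : ℕ) : ∃ R, ∀ (k : ℕ) (q : ℕ → α),
    QG d C k q → ∀ i ≤ k, ∃ z, d (q 0) z + d z (q k) = d (q 0) (q k) ∧ d z (q i) ≤ R := by
  obtain ⟨R, hR⟩ := morse_a hd hyp C
  refine ⟨R + C * (C * (2 * R + 2 * δ + 1) + C), fun k q hq i hi => ?_⟩
  -- points of the geodesic
  have hgeo : ∀ t, ∃ z, t ≤ d (q 0) (q k) → d (q 0) z = t ∧ d z (q k) + t = d (q 0) (q k) := by
    intro t
    by_cases h : t ≤ d (q 0) (q k)
    · obtain ⟨z, h1, h2⟩ := hd.geo (q 0) (q k) t h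
      exact ⟨z, fun _ => ⟨h1, h2⟩⟩
    · exact ⟨q 0, fun h' => absurd h' h⟩
  choose m hm using hgeo
  set L := d (q 0) (q k) with hL
  have hbt : ∀ t ≤ L, d (q 0) (m t) + d (m t) (q k) = L := by
    intro t ht
    obtain ⟨h1, h2⟩ := hm t ht
    omega
  -- steps along the sequence
  have hsteps : ∀ a b, a ≤ b → b ≤ k → d (q a) (q b) ≤ C * (b - a) := by
    intro a b hab
    induction b, hab using Nat.le_induction with
    | base => intro _; rw [hd.self]; exact Nat.zero_le _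
    | succ b hab ih =>
      intro hb
      have h1 := ih (by omega)
      have h2 := hq.step b (by omega)
      have h3 := hd.tri (q a) (q b) (q (b + 1))
      have h4 : b + 1 - a = (b - a) + 1 := by omega
      rw [h4, mul_add, mul_one]
      omega
  -- a point of the geodesic with a jump over `i`
  obtain ⟨t, j, l, ht, hj, hl, hlk, h1, h2⟩ : ∃ t j l, t ≤ L ∧ j ≤ i ∧ i ≤ l ∧ l ≤ k ∧
      d (m t) (q j) ≤ R ∧ d (m t) (q l) ≤ R + 2 * δ + 1 := by
    set S : ℕ → Prop := fun t => ∃ j ≤ i, d (m t) (q j) ≤ R with hS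
    have hS0 : S 0 := by
      refine ⟨0, Nat.zero_le _, ?_⟩
      have h3 := (hm 0 (Nat.zero_le _)).1
      have h4 : q 0 = m 0 := hd.eq _ _ h3
      rw [← h4, hd.self]
      exact Nat.zero_le _
    by_cases hSL : S L
    · obtain ⟨j, hj, h3⟩ := hSL
      refine ⟨L, j, k, le_rfl, hj, hi, le_rfl, h3, ?_⟩
      have h4 := (hm L le_rfl).2
      omega
    · obtain ⟨t, ht1, ht2, ht3⟩ : ∃ t, t < L ∧ S t ∧ ¬ S (t + 1) := by
        by_contra hcon
        push Not at hcon
        have : ∀ n, n ≤ L → S n := fun n => by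
          induction n with
          | zero => exact fun _ => hS0
          | succ n ih => exact fun h => hcon n (by omega) (ih (by omega))
        exact hSL (this L le_rfl)
      obtain ⟨j, hj, h3⟩ := ht2
      obtain ⟨l, hl, h4⟩ := hR k q hq (m (t + 1)) (hbt (t + 1) (by omega))
      refine ⟨t, j, l, ht1.le, hj, ?_, hl, h3, ?_⟩
      · by_contra hc
        exact ht3 ⟨l, by omega, h4⟩
      · have h5 := hd.tri (m t) (m (t + 1)) (q l)
        have h6 := (hm t ht1.le).1
        have h7 := (hm (t + 1) (by omega)).1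
        have h8 := same_interval hd hyp (hbt t ht1.le) (hbt (t + 1) (by omega))
        omega
  refine ⟨m t, hbt t ht, ?_⟩
  have h3 := hd.tri (q j) (m t) (q l)
  have h4 := hd.symm (q j) (m t)
  have h5 : d (q j) (q l) ≤ 2 * R + 2 * δ + 1 := by omega
  have h6 := hq.lower j l (by omega) hlk
  have h7 := Nat.mul_le_mul_left C h5
  have h8 := hsteps j i hj hi
  have h9 := hd.tri (m t) (q j) (q i)
  have h10 : i - j ≤ C * (2 * R + 2 * δ + 1) + C := by omega
  have h11 := Nat.mul_le_mul_left C h10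
  omega

/-- quasiconvex sets -/
def QC (d : α → α → ℕ) (κ : ℕ) (B : Set α) : Prop :=
  ∀ a ∈ B, ∀ b ∈ B, ∀ m, d a m + d m b = d a b → ∃ c ∈ B, d m c ≤ κ

/-- nearest points of quasiconvex sets -/
theorem nearest (hd : NM d) {δ κ : ℕ} (hyp : H4 d δ) {B : Set α} (hB : QC d κ B) {o p q : α}
    (hp : p ∈ B) (hmin : ∀ c ∈ B, d o p ≤ d o c) (hq : q ∈ B) :
    d o p + d p q ≤ d o q + 2 * κ + 4 * δ + 1 := by
  have t1 := hd.tri o p q
  have t2 := hd.tri p o q
  have t3 := hd.tri p q o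
  have e1 := hd.symm p o
  have e2 := hd.symm q o
  have e3 := hd.symm q p
  have t4 := hd.tri o q p
  obtain ⟨n, hn⟩ : ∃ n, n = (d o p + d p q - d o q) / 2 := ⟨_, rfl⟩
  obtain ⟨m, hm1, hm2⟩ := hd.geo p q n (by omega)
  obtain ⟨c, hc, hc2⟩ := hB p hp q hq m (by omega)
  have h1 := hmin c hc
  have t5 := hd.tri o m c
  have e4 := hd.symm m p
  rcases hyp.or o m p q with h2 | h2
  · omega
  · omega

/-- Helly property -/
theorem helly (hd : NM d) {δ κ : ℕ} (hyp : H4 d δ) (D : ℕ) (𝒮 : Set (Set α))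
    (hqc : ∀ B ∈ 𝒮, QC d κ B) (hne : ∀ B ∈ 𝒮, B.Nonempty)
    (hclose : ∀ A ∈ 𝒮, ∀ B ∈ 𝒮, ∃ a ∈ A, ∃ b ∈ B, d a b ≤ D) (o : α)
    (hfin : {B | B ∈ 𝒮 ∧ o ∉ B}.Finite) :
    ∃ p, ∀ B ∈ 𝒮, ∃ b ∈ B, d p b ≤ 2 * D + 3 * κ + 6 * δ + 1 := by
  classical
  -- nearest points
  have hnear : ∀ B, ∃ p, B ∈ 𝒮 → p ∈ B ∧ ∀ c ∈ B, d o p ≤ d o c := by
    intro B
    by_cases hB : B ∈ 𝒮
    · have hex : ∃ n, ∃ p ∈ B, d o p = n := by
        obtain ⟨b, hb⟩ := hne B hB
        exact ⟨_, b, hb, rfl⟩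
      obtain ⟨p, hp1, hp2⟩ := Nat.find_spec hex
      exact ⟨p, fun _ => ⟨hp1, fun c hc => by
        rw [hp2]
        exact Nat.find_min' hex ⟨c, hc, rfl⟩⟩⟩
    · exact ⟨o, fun h => absurd h hB⟩
  choose pr hpr using hnear
  by_cases hemp : {B | B ∈ 𝒮 ∧ o ∉ B} = ∅
  · refine ⟨o, fun B hB => ⟨o, ?_, by rw [hd.self]; exact Nat.zero_le _⟩⟩
    by_contra hc
    have : B ∈ {B | B ∈ 𝒮 ∧ o ∉ B} := ⟨hB, hc⟩
    rw [hemp] at this
    exact this
  · obtain ⟨B1, ⟨hB1, hoB1⟩, hmax⟩ := Set.exists_max_image _ (fun B => d o (pr B)) hfin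
      (Set.nonempty_iff_ne_empty.2 hemp)
    have hmax' : ∀ B ∈ 𝒮, d o (pr B) ≤ d o (pr B1) := by
      intro B hB
      by_cases ho : o ∈ B
      · have := (hpr B hB).2 o ho
        rw [hd.self] at this
        omega
      · exact hmax B ⟨hB, ho⟩
    refine ⟨pr B1, fun B hB => ?_⟩
    obtain ⟨q, hq, q', hq', hqq⟩ := hclose B1 hB1 B hB
    obtain ⟨hp1, hp2⟩ := hpr B1 hB1
    obtain ⟨hb1, hb2⟩ := hpr B hB
    have h1 := nearest hd hyp (hqc B1 hB1) hp1 hp2 hq
    have h2 := nearest hd hyp (hqc B hB) hb1 hb2 hq'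
    have h3 := hmax' B hB
    set p := pr B1 with hp
    set b := pr B with hb
    have t1 := hd.tri o q' q
    have t2 := hd.tri p q q'
    have t3 := hd.tri o q q'
    have e0 := hd.symm q q'
    -- the point `m` between `b` and `q'`
    obtain ⟨m, hm1, hm2⟩ := hd.geo q' b (min (d p q) (d q' b)) (min_le_right _ _)
    have e1 := hd.symm q' b
    have e2 := hd.symm m q'
    have e3 := hd.symm m b
    have e4 := hd.symm m o
    have e5 := hd.symm p o
    obtain ⟨c, hc, hc2⟩ := hqc B hB b hb1 q' hq' m (by omega)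
    refine ⟨c, hc, ?_⟩
    have t4 := hd.tri p m c
    have t5 := hd.tri o b m
    have key : d p m ≤ 2 * D + (2 * κ + 4 * δ + 1) + 2 * δ := by
      rcases le_total (d p q) (d q' b) with hle | hle
      · rw [min_eq_left hle] at hm1 hm2
        rcases hyp.or p m o q' with h4 | h4 <;> omega
      · rw [min_eq_right hle] at hm1 hm2
        rcases hyp.or p m o q' with h4 | h4 <;> omega
    omega

end Pool.Agent.TH97.VR
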