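import Pool.Agent.H97R3.VR.Main

/-!
# The dual median graph of a family of half spaces
-/

set_option autoImplicit false

namespace Pool.Agent.TH97.VR

open Pool.Agent.H97R3.VR

section metric

variable {V : Type} (D : V → V → ℕ)

/-- integer valued metrics in which one can walk by unit steps -/
structure Steps : Prop where
  zero : ∀ x y, D x y = 0 ↔ x = y
  symm : ∀ x y, D x y = D y x
  tri : ∀ x y z, D x z ≤ D x y + D y z
  step : ∀ x y, x ≠ y → ∃ z, D x z = 1 ∧ D z y + 1 = D x y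

variable {D}

/-- the graph of unit distances -/
def unitGraph (h : Steps D) : SimpleGraph V where
  Adj x y := D x y = 1
  symm := ⟨fun x y e => by rw [h.symm]; exact e⟩
  loopless := ⟨fun x e => by
    have := (h.zero x x).2 rfl
    omega⟩

theorem unitGraph_adj (h : Steps D) {x y : V} : (unitGraph h).Adj x y ↔ D x y = 1 := Iff.rfl

theorem unitGraph_walk (h : Steps D) (n : ℕ) : ∀ x y, D x y = n →
    ∃ p : (unitGraph h).Walk x y, p.length = n := by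
  induction n with
  | zero =>
    intro x y e
    obtain rfl := (h.zero x y).1 e
    exact ⟨SimpleGraph.Walk.nil, rfl⟩
  | succ n ih =>
    intro x y e
    have hne : x ≠ y := fun e' => by
      have := (h.zero x y).2 e'
      omega
    obtain ⟨z, h1, h2⟩ := h.step x y hne
    obtain ⟨p, hp⟩ := ih z y (by omega)
    have h1' : (unitGraph h).Adj x z := h1
    exact ⟨SimpleGraph.Walk.cons h1' p, by rw [SimpleGraph.Walk.length_cons, hp]⟩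

theorem unitGraph_le (h : Steps D) {x y : V} (p : (unitGraph h).Walk x y) : D x y ≤ p.length := by
  induction p with
  | nil => rw [(h.zero _ _).2 rfl]; exact Nat.zero_le _
  | @cons a b c hab q ih =>
    have h1 := h.tri a b c
    have h2 : D a b = 1 := hab
    rw [SimpleGraph.Walk.length_cons]
    omega

theorem unitGraph_dist (h : Steps D) (x y : V) : (unitGraph h).dist x y = D x y := by
  obtain ⟨p, hp⟩ := unitGraph_walk h _ x y rfl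
  refine le_antisymm ?_ ?_
  · rw [← hp]
    exact SimpleGraph.dist_le p
  · obtain ⟨q, hq⟩ := (p.reachable).exists_walk_length_eq_dist
    rw [← hq]
    exact unitGraph_le h q

theorem unitGraph_conn (h : Steps D) [Nonempty V] : (unitGraph h).Connected := by
  refine ⟨fun x y => ?_⟩
  obtain ⟨p, -⟩ := unitGraph_walk h _ x y rfl
  exact p.reachable

end metric

section dual

variable {P : Type}

/-- a family of half spaces of `P`: closed under complement, nonempty, and only finitely many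
separate two points -/
structure HSys (𝓗 : Set (Set P)) : Prop where
  compl : ∀ h ∈ 𝓗, hᶜ ∈ 𝓗
  ne : ∀ h ∈ 𝓗, h.Nonempty
  fin : ∀ a b : P, {h | h ∈ 𝓗 ∧ a ∈ h ∧ b ∉ h}.Finite

/-- vertices of the dual graph: consistent choices of half spaces, one for each complementary pair,
almost all of them containing a given point -/
structure IsVert (𝓗 : Set (Set P)) (o : P) (σ : Set (Set P)) : Prop where
  sub : σ ⊆ 𝓗
  alt : ∀ h ∈ 𝓗, (h ∈ σ ↔ hᶜ ∉ σ)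
  up : ∀ h ∈ σ, ∀ k ∈ 𝓗, h ⊆ k → k ∈ σ
  fin : {h | h ∈ σ ∧ o ∉ h}.Finite

variable {𝓗 : Set (Set P)} {o : P}

/-- the vertices -/
def Vt (𝓗 : Set (Set P)) (o : P) : Type := {σ : Set (Set P) // IsVert 𝓗 o σ}

/-- the number of half spaces in which two vertices differ -/
noncomputable def DD (σ τ : Vt 𝓗 o) : ℕ := (σ.1 \ τ.1).ncard

theorem mem_of_not {σ : Vt 𝓗 o} {h : Set P} (hh : h ∈ 𝓗) (h1 : h ∉ σ.1) : hᶜ ∈ σ.1 := by
  by_contra h2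
  exact h1 ((σ.2.alt h hh).2 h2)

theorem not_of_mem {σ : Vt 𝓗 o} {h : Set P} (h1 : h ∈ σ.1) : hᶜ ∉ σ.1 :=
  (σ.2.alt h (σ.2.sub h1)).1 h1

theorem mem_compl_iff (_S : HSys 𝓗) {σ : Vt 𝓗 o} {h : Set P} (hh : h ∈ 𝓗) :
    hᶜ ∈ σ.1 ↔ h ∉ σ.1 := by
  constructor
  · intro h1 h2
    exact not_of_mem h2 h1
  · exact mem_of_not hh

theorem diff_compl (_S : HSys 𝓗) (σ τ : Vt 𝓗 o) : compl '' (σ.1 \ τ.1) = τ.1 \ σ.1 := by
  ext h
  constructor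
  · rintro ⟨k, ⟨hk1, hk2⟩, rfl⟩
    exact ⟨mem_of_not (σ.2.sub hk1) hk2, not_of_mem hk1⟩
  · rintro ⟨h1, h2⟩
    refine ⟨hᶜ, ⟨mem_of_not (τ.2.sub h1) h2, not_of_mem h1⟩, compl_compl h⟩

theorem diff_finite (_S : HSys 𝓗) (σ τ : Vt 𝓗 o) : (σ.1 \ τ.1).Finite := by
  refine (σ.2.fin.union (τ.2.fin.image compl)).subset ?_
  rintro h ⟨h1, h2⟩
  by_cases ho : o ∈ h
  · right
    exact ⟨hᶜ, ⟨mem_of_not (σ.2.sub h1) h2, fun h3 => h3 ho⟩, compl_compl h⟩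
  · exact Or.inl ⟨h1, ho⟩

theorem DD_symm (S : HSys 𝓗) (σ τ : Vt 𝓗 o) : DD σ τ = DD τ σ := by
  unfold DD
  rw [← diff_compl S τ σ, Set.ncard_image_of_injective _ compl_injective]

theorem DD_zero (S : HSys 𝓗) (σ τ : Vt 𝓗 o) : DD σ τ = 0 ↔ σ = τ := by
  constructor
  · intro h
    have h1 := (Set.ncard_eq_zero (diff_finite S σ τ)).1 h
    have h2 : DD τ σ = 0 := by rw [DD_symm S]; exact h
    have h3 := (Set.ncard_eq_zero (diff_finite S τ σ)).1 h2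
    apply Subtype.ext
    exact Set.Subset.antisymm (Set.sdiff_eq_empty.1 h1) (Set.sdiff_eq_empty.1 h3)
  · rintro rfl
    unfold DD
    rw [Set.sdiff_self, Set.ncard_empty]

theorem DD_tri (S : HSys 𝓗) (σ τ ρ : Vt 𝓗 o) : DD σ ρ ≤ DD σ τ + DD τ ρ := by
  unfold DD
  refine (Set.ncard_le_ncard (t := (σ.1 \ τ.1) ∪ (τ.1 \ ρ.1)) ?_
    ((diff_finite S σ τ).union (diff_finite S τ ρ))).trans (Set.ncard_union_le _ _)
  rintro h ⟨h1, h2⟩
  by_cases h3 : h ∈ τ.1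
  · exact Or.inr ⟨h3, h2⟩
  · exact Or.inl ⟨h1, h3⟩

/-- exchange `hᶜ` for `h` -/
def flipS (σ : Set (Set P)) (h : Set P) : Set (Set P) := insert h (σ \ {hᶜ})

theorem mem_flipS {σ : Set (Set P)} {h k : Set P} :
    k ∈ flipS σ h ↔ k = h ∨ (k ∈ σ ∧ k ≠ hᶜ) := Iff.rfl

theorem compl_ne (S : HSys 𝓗) {h : Set P} (hh : h ∈ 𝓗) : h ≠ hᶜ := by
  intro e
  obtain ⟨x, hx⟩ := S.ne h hh
  have h1 : x ∈ hᶜ := e ▸ hx
  exact h1 hx

/-- the exchange of `hᶜ` for `h` is a vertex if all half spaces properly containing `h` belong to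
the vertex -/
theorem flip_isVert (S : HSys 𝓗) (σ : Vt 𝓗 o) {h : Set P} (hh : h ∈ 𝓗)
    (hup : ∀ k ∈ 𝓗, h ⊆ k → k ≠ h → k ∈ σ.1) : IsVert 𝓗 o (flipS σ.1 h) := by
  have hdisj : ∀ k ∈ σ.1, k ≠ hᶜ → ¬ k ⊆ hᶜ := by
    intro k hk hne hsub
    have h1 : h ⊆ kᶜ := by
      intro x hx hxk
      exact hsub hxk hx
    have h2 : kᶜ ≠ h := fun e => hne (by rw [← e, compl_compl])
    exact not_of_mem hk (hup _ (S.compl _ (σ.2.sub hk)) h1 h2)
  refine ⟨?_, ?_, ?_, ?_⟩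
  · rintro k (rfl | ⟨hk, -⟩)
    · exact hh
    · exact σ.2.sub hk
  · intro k hk
    constructor
    · rintro (rfl | ⟨h1, h2⟩) (h3 | ⟨h3, h4⟩)
      · exact compl_ne S hh h3.symm
      · exact h4 rfl
      · exact h2 (by rw [← h3, compl_compl]; rfl)
      · exact not_of_mem h1 h3
    · intro h1
      by_contra h2
      apply h1
      rw [mem_flipS] at h2 ⊢
      push Not at h2
      by_cases h3 : kᶜ = h
      · exact Or.inl h3
      · right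
        refine ⟨?_, fun e => h2.1 (compl_injective e)⟩
        refine mem_of_not hk fun h4 => h3 ?_
        rw [h2.2 h4, compl_compl]
  · rintro k (rfl | ⟨h1, h2⟩) j hj hkj
    · by_cases e : j = k
      · exact Or.inl e
      · refine Or.inr ⟨hup j hj hkj e, ?_⟩
        rintro rfl
        obtain ⟨x, hx⟩ := S.ne k hh
        exact hkj hx hx
    · refine Or.inr ⟨σ.2.up k h1 j hj hkj, ?_⟩
      rintro rfl
      exact hdisj k h1 h2 hkj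
  · refine (σ.2.fin.union (Set.finite_singleton h)).subset ?_
    rintro k ⟨rfl | ⟨h1, -⟩, h2⟩
    · exact Or.inr rfl
    · exact Or.inl ⟨h1, h2⟩

/-- the vertex obtained by exchanging `hᶜ` for `h` -/
def flipV (S : HSys 𝓗) (σ : Vt 𝓗 o) {h : Set P} (hh : h ∈ 𝓗)
    (hup : ∀ k ∈ 𝓗, h ⊆ k → k ≠ h → k ∈ σ.1) : Vt 𝓗 o := ⟨flipS σ.1 h, flip_isVert S σ hh hup⟩

theorem diff_flip {σ : Vt 𝓗 o} {h : Set P} (hσ : h ∉ σ.1) :
    flipS σ.1 h \ σ.1 = {h} := by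
  ext k
  constructor
  · rintro ⟨rfl | ⟨h1, -⟩, h2⟩
    · rfl
    · exact absurd h1 h2
  · rintro rfl
    exact ⟨Or.inl rfl, hσ⟩

theorem exists_max {A : Set (Set P)} (hA : A.Finite) (hne : A.Nonempty) :
    ∃ h ∈ A, ∀ k ∈ A, h ⊆ k → k = h := by
  obtain ⟨h, h1, h2⟩ := hA.exists_maximal hne
  exact ⟨h, h1, fun k hk hle => Set.Subset.antisymm (h2 hk hle) hle⟩

theorem DD_step (S : HSys 𝓗) (σ τ : Vt 𝓗 o) (hne : σ ≠ τ) :
    ∃ ρ : Vt 𝓗 o, DD σ ρ = 1 ∧ DD ρ τ + 1 = DD σ τ := by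
  have hfin := diff_finite S τ σ
  have hne' : (τ.1 \ σ.1).Nonempty := by
    by_contra hc
    rw [Set.not_nonempty_iff_eq_empty] at hc
    apply hne
    symm
    rw [← DD_zero S]
    unfold DD
    rw [hc, Set.ncard_empty]
  obtain ⟨h, ⟨h1, h2⟩, h3⟩ := exists_max hfin hne'
  have hh := τ.2.sub h1
  have hup : ∀ k ∈ 𝓗, h ⊆ k → k ≠ h → k ∈ σ.1 := by
    intro k hk hsub hkne
    by_contra hc
    exact hkne (h3 k ⟨τ.2.up h h1 k hk hsub, hc⟩ hsub)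
  refine ⟨flipV S σ hh hup, ?_, ?_⟩
  · rw [DD_symm S]
    show (flipS σ.1 h \ σ.1).ncard = 1
    rw [diff_flip h2, Set.ncard_singleton]
  · rw [DD_symm S _ τ, DD_symm S _ τ]
    show (τ.1 \ flipS σ.1 h).ncard + 1 = (τ.1 \ σ.1).ncard
    have e : τ.1 \ flipS σ.1 h = (τ.1 \ σ.1) \ {h} := by
      ext k
      constructor
      · rintro ⟨k1, k2⟩
        rw [mem_flipS] at k2
        push Not at k2
        refine ⟨⟨k1, fun k3 => ?_⟩, k2.1⟩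
        have := k2.2 k3
        subst this
        exact not_of_mem h1 k1
      · rintro ⟨⟨k1, k2⟩, k3⟩
        refine ⟨k1, ?_⟩
        rintro (k4 | ⟨k4, -⟩)
        · exact k3 k4
        · exact k2 k4
    have h5 : h ∈ τ.1 \ σ.1 := ⟨h1, h2⟩
    rw [e, Set.ncard_sdiff_singleton_add_one h5 hfin]

theorem steps (S : HSys 𝓗) : Steps (DD (𝓗 := 𝓗) (o := o)) :=
  ⟨DD_zero S, DD_symm S, DD_tri S, DD_step S⟩

/-- the dual graph -/
noncomputable def ZG (S : HSys 𝓗) (o : P) : SimpleGraph (Vt 𝓗 o) := unitGraph (steps (o := o) S)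

theorem ZG_dist (S : HSys 𝓗) (σ τ : Vt 𝓗 o) : (ZG S o).dist σ τ = DD σ τ := unitGraph_dist _ _ _

theorem ZG_adj (S : HSys 𝓗) {σ τ : Vt 𝓗 o} : (ZG S o).Adj σ τ ↔ DD σ τ = 1 := Iff.rfl

/-- the vertex given by a point -/
def pt (S : HSys 𝓗) (o : P) (a : P) : Vt 𝓗 o := ⟨{h | h ∈ 𝓗 ∧ a ∈ h}, by
  refine ⟨fun h hh => hh.1, ?_, ?_, ?_⟩
  · intro h hh
    constructor
    · rintro ⟨-, h1⟩ ⟨-, h2⟩
      exact h2 h1
    · intro h1
      refine ⟨hh, ?_⟩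
      by_contra h2
      exact h1 ⟨S.compl h hh, h2⟩
  · rintro h ⟨-, h1⟩ k hk hsub
    exact ⟨hk, hsub h1⟩
  · refine (S.fin a o).subset ?_
    rintro h ⟨⟨h1, h2⟩, h3⟩
    exact ⟨h1, h2, h3⟩⟩

theorem mem_pt (S : HSys 𝓗) {a : P} {h : Set P} : h ∈ (pt S o a).1 ↔ h ∈ 𝓗 ∧ a ∈ h := Iff.rfl

theorem ZG_conn (S : HSys 𝓗) (o : P) : (ZG S o).Connected := by
  have : Nonempty (Vt 𝓗 o) := ⟨pt S o o⟩
  exact unitGraph_conn _

theorem btw_iff (S : HSys 𝓗) (σ τ m : Vt 𝓗 o) : H97R3.VR.Btw (ZG S o) σ τ m ↔ σ.1 ∩ τ.1 ⊆ m.1 := by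
  unfold H97R3.VR.Btw
  rw [ZG_dist, ZG_dist, ZG_dist]
  unfold DD
  have hd : Disjoint (σ.1 \ m.1) (m.1 \ τ.1) := by
    rw [Set.disjoint_left]
    rintro h ⟨-, h1⟩ ⟨h2, -⟩
    exact h1 h2
  have e1 : ((σ.1 \ m.1) ∪ (m.1 \ τ.1)).ncard = (σ.1 \ m.1).ncard + (m.1 \ τ.1).ncard :=
    Set.ncard_union_eq hd (diff_finite S _ _) (diff_finite S _ _)
  have hsub : σ.1 \ τ.1 ⊆ (σ.1 \ m.1) ∪ (m.1 \ τ.1) := by
    rintro h ⟨h1, h2⟩
    by_cases h3 : h ∈ m.1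
    · exact Or.inr ⟨h3, h2⟩
    · exact Or.inl ⟨h1, h3⟩
  have hfin : ((σ.1 \ m.1) ∪ (m.1 \ τ.1)).Finite := (diff_finite S _ _).union (diff_finite S _ _)
  constructor
  · intro h
    rw [← e1] at h
    have h2 := Set.eq_of_subset_of_ncard_le hsub h.le hfin
    rintro k ⟨k1, k2⟩
    by_contra k3
    have h3 : k ∈ σ.1 \ τ.1 := h2 ▸ Or.inl ⟨k1, k3⟩
    exact h3.2 k2
  · intro h
    rw [← e1]
    congr 1
    refine Set.Subset.antisymm ?_ hsub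
    rintro k (⟨k1, k2⟩ | ⟨k1, k2⟩)
    · exact ⟨k1, fun k3 => k2 (h ⟨k1, k3⟩)⟩
    · refine ⟨?_, k2⟩
      by_contra k3
      have hk := m.2.sub k1
      exact not_of_mem k1 (h ⟨mem_of_not hk k3, mem_of_not hk k2⟩)

/-- majority -/
theorem maj_isVert (S : HSys 𝓗) (σ τ ρ : Vt 𝓗 o) :
    IsVert 𝓗 o ((σ.1 ∩ τ.1) ∪ (τ.1 ∩ ρ.1) ∪ (σ.1 ∩ ρ.1)) := by
  refine ⟨?_, ?_, ?_, ?_⟩
  · rintro h ((⟨h1, -⟩ | ⟨h1, -⟩) | ⟨h1, -⟩)
    · exact σ.2.sub h1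
    · exact τ.2.sub h1
    · exact σ.2.sub h1
  · intro h hh
    simp only [Set.mem_union, Set.mem_inter_iff, mem_compl_iff S hh]
    tauto
  · rintro h ((⟨h1, h2⟩ | ⟨h1, h2⟩) | ⟨h1, h2⟩) k hk hsub
    · exact Or.inl (Or.inl ⟨σ.2.up h h1 k hk hsub, τ.2.up h h2 k hk hsub⟩)
    · exact Or.inl (Or.inr ⟨τ.2.up h h1 k hk hsub, ρ.2.up h h2 k hk hsub⟩)
    · exact Or.inr ⟨σ.2.up h h1 k hk hsub, ρ.2.up h h2 k hk hsub⟩
  · refine (σ.2.fin.union τ.2.fin).subset ?_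
    rintro h ⟨(⟨h1, -⟩ | ⟨h1, -⟩) | ⟨h1, -⟩, h3⟩
    · exact Or.inl ⟨h1, h3⟩
    · exact Or.inr ⟨h1, h3⟩
    · exact Or.inl ⟨h1, h3⟩

theorem ZG_median (S : HSys 𝓗) (o : P) : IsMedian (ZG S o) := by
  refine ⟨ZG_conn S o, fun σ τ ρ => ?_⟩
  refine ⟨⟨_, maj_isVert S σ τ ρ⟩, ⟨?_, ?_, ?_⟩, ?_⟩
  · exact (btw_iff S _ _ _).2 fun h hh => Or.inl (Or.inl hh)
  · exact (btw_iff S _ _ _).2 fun h hh => Or.inl (Or.inr hh)
  · exact (btw_iff S _ _ _).2 fun h hh => Or.inr hh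
  · rintro m ⟨h1, h2, h3⟩
    rw [btw_iff] at h1 h2 h3
    have hsub : (σ.1 ∩ τ.1) ∪ (τ.1 ∩ ρ.1) ∪ (σ.1 ∩ ρ.1) ⊆ m.1 :=
      Set.union_subset (Set.union_subset h1 h2) h3
    symm
    refine (DD_zero S _ _).1 ?_
    unfold DD
    have : ((σ.1 ∩ τ.1) ∪ (τ.1 ∩ ρ.1) ∪ (σ.1 ∩ ρ.1)) \ m.1 = ∅ := Set.sdiff_eq_empty.2 hsub
    show (((σ.1 ∩ τ.1) ∪ (τ.1 ∩ ρ.1) ∪ (σ.1 ∩ ρ.1)) \ m.1).ncard = 0
    rw [this, Set.ncard_empty]

end dual

end Pool.Agent.TH97.VR
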