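import Pool.Agent.TH97.VR.Act

/-!
# The quotient of the dual complex is virtually special; quasiconvex subgroups
-/

set_option autoImplicit false

namespace Pool.Agent.TH97.VR

open Pool.Agent.H97R3.VR
open Pointwise

section cross

variable {P : Type} {𝓗 : Set (Set P)} {o : P}

/-- the half spaces of a square cross -/
theorem sq_cross (S : HSys 𝓗) {p q r t : Vt 𝓗 o} (hs : Square (ZG S o) p q r t) {h k : Set P}
    (h1 : q.1 \ p.1 = {h}) (h2 : t.1 \ p.1 = {k}) :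
    (h ∩ k).Nonempty ∧ (h ∩ kᶜ).Nonempty ∧ (hᶜ ∩ k).Nonempty ∧ (hᶜ ∩ kᶜ).Nonempty := by
  have hq : h ∈ q.1 \ p.1 := by rw [h1]; rfl
  have ht : k ∈ t.1 \ p.1 := by rw [h2]; rfl
  have hh := q.2.sub hq.1
  have hk := t.2.sub ht.1
  have e1 := sq_lab S hs
  have e2 := sq_lab S hs.rev
  have hr1 : h ∈ r.1 \ t.1 := by rw [← e1]; exact hq
  have hr2 : k ∈ r.1 \ q.1 := by rw [← e2]; exact ht
  have key : ∀ (v : Vt 𝓗 o) (A B : Set P), A ∈ v.1 → B ∈ v.1 → (A ∩ B).Nonempty := by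
    intro v A B hA hB
    by_contra hc
    rw [Set.not_nonempty_iff_eq_empty, ← Set.disjoint_iff_inter_eq_empty,
      Set.disjoint_left] at hc
    exact not_of_mem hB (v.2.up A hA Bᶜ (S.compl B (v.2.sub hB)) fun x hx hxB => hc hx hxB)
  exact ⟨key r h k hr1.1 hr2.1, key q h kᶜ hq.1 (mem_of_not hk hr2.2),
    key t hᶜ k (mem_of_not hh hr1.2) ht.1, key p hᶜ kᶜ (mem_of_not hh hq.2) (mem_of_not hk ht.2)⟩

/-- crossing half spaces exchanged at a common vertex give a square -/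
theorem cross_sq (S : HSys 𝓗) {x y z : Vt 𝓗 o} (hy : (ZG S o).Adj x y) (hz : (ZG S o).Adj x z)
    {h k : Set P} (h1 : y.1 \ x.1 = {h}) (h2 : z.1 \ x.1 = {k})
    (hc : (h ∩ k).Nonempty ∧ (h ∩ kᶜ).Nonempty ∧ (hᶜ ∩ k).Nonempty ∧ (hᶜ ∩ kᶜ).Nonempty) :
    ∃ w, Square (ZG S o) x y w z := by
  obtain ⟨c1, c2, c3, c4⟩ := hc
  have hyh : h ∈ y.1 \ x.1 := by rw [h1]; rfl
  have hzk : k ∈ z.1 \ x.1 := by rw [h2]; rfl
  have hh := y.2.sub hyh.1
  have hk := z.2.sub hzk.1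
  have hxy : x.1 \ y.1 = {hᶜ} := by rw [← diff_compl S, h1, Set.image_singleton]
  have hxz : x.1 \ z.1 = {kᶜ} := by rw [← diff_compl S, h2, Set.image_singleton]
  -- membership in `y` and `z`
  have my : ∀ j, j ∈ y.1 ↔ j = h ∨ (j ∈ x.1 ∧ j ≠ hᶜ) := by
    intro j
    constructor
    · intro hj
      by_cases hjx : j ∈ x.1
      · right
        refine ⟨hjx, fun e => ?_⟩
        rw [e] at hj
        exact not_of_mem hyh.1 hj
      · left
        have : j ∈ y.1 \ x.1 := ⟨hj, hjx⟩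
        rw [h1] at this
        exact this
    · rintro (rfl | ⟨hj, hne⟩)
      · exact hyh.1
      · by_contra hjy
        have : j ∈ x.1 \ y.1 := ⟨hj, hjy⟩
        rw [hxy] at this
        exact hne this
  have mz : ∀ j, j ∈ z.1 ↔ j = k ∨ (j ∈ x.1 ∧ j ≠ kᶜ) := by
    intro j
    constructor
    · intro hj
      by_cases hjx : j ∈ x.1
      · right
        refine ⟨hjx, fun e => ?_⟩
        rw [e] at hj
        exact not_of_mem hzk.1 hj
      · left
        have : j ∈ z.1 \ x.1 := ⟨hj, hjx⟩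
        rw [h2] at this
        exact this
    · rintro (rfl | ⟨hj, hne⟩)
      · exact hzk.1
      · by_contra hjz
        have : j ∈ x.1 \ z.1 := ⟨hj, hjz⟩
        rw [hxz] at this
        exact hne this
  have hup : ∀ j ∈ 𝓗, k ⊆ j → j ≠ k → j ∈ y.1 := by
    intro j hj hsub hne
    rw [my]
    right
    have h3 : j ∈ z.1 := z.2.up k hzk.1 j hj hsub
    rw [mz] at h3
    rcases h3 with h3 | ⟨h3, -⟩
    · exact absurd h3 hne
    · refine ⟨h3, ?_⟩
      rintro rfl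
      obtain ⟨u, hu1, hu2⟩ := c1
      exact hsub hu2 hu1
  have hkh : k ≠ h := by
    rintro rfl
    obtain ⟨u, hu1, hu2⟩ := c2
    exact hu2 hu1
  have hky : k ∉ y.1 := by
    rw [my]
    rintro (h3 | ⟨h3, -⟩)
    · exact hkh h3
    · exact hzk.2 h3
  set w : Vt 𝓗 o := flipV S y hk hup with hw
  have hwy : w.1 \ y.1 = {k} := diff_flip hky
  have mw : ∀ j, j ∈ w.1 ↔ j = k ∨ (j ∈ y.1 ∧ j ≠ kᶜ) := fun j => Iff.rfl
  have hkc : h ≠ kᶜ := by
    rintro rfl
    obtain ⟨u, hu1, hu2⟩ := c1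
    exact hu1 hu2
  have hwz : w.1 \ z.1 = {h} := by
    ext j
    rw [Set.mem_singleton_iff]
    constructor
    · rintro ⟨h3, h4⟩
      rw [mw] at h3
      rw [mz] at h4
      push Not at h4
      rcases h3 with h3 | ⟨h3, h5⟩
      · exact absurd h3 h4.1
      · rw [my] at h3
        rcases h3 with h3 | ⟨h3, -⟩
        · exact h3
        · exact absurd (h4.2 h3) h5
    · rintro rfl
      refine ⟨Or.inr ⟨hyh.1, hkc⟩, ?_⟩
      rw [mz]
      rintro (h3 | ⟨h3, -⟩)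
      · exact hkh h3.symm
      · exact hyh.2 h3
  have a1 : (ZG S o).Adj w y := by
    show (w.1 \ y.1).ncard = 1
    rw [hwy, Set.ncard_singleton]
  have a2 : (ZG S o).Adj w z := by
    show (w.1 \ z.1).ncard = 1
    rw [hwz, Set.ncard_singleton]
  refine ⟨w, hy, a1.symm, a2, hz.symm, ?_, ?_⟩
  · intro e
    have h3 : h ∈ w.1 := Or.inr ⟨hyh.1, hkc⟩
    rw [← e] at h3
    exact hyh.2 h3
  · intro e
    rw [e] at hky
    exact hky hzk.1

end cross

section special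

variable {G V : Type} [Group G] {N : Subgroup G} [MulAction N V] {X : SimpleGraph V}
  {d : G → G → ℕ} {δ : ℕ}

theorem opar_lab (c : Cx N X d δ) (v0 : V) (N1 : Subgroup G)
    {e f : Vt (HF N X v0) (1 : G) × Vt (HF N X v0) (1 : G)} :
    letI := actZ c v0
    OPar (ZG (HF_sys c v0) 1) N1 e f → ∃ n ∈ N1, f.2.1 \ f.1.1 = n • (e.2.1 \ e.1.1) := by
  letI := actZ c v0
  intro h
  induction h with
  | rel e f h =>
    cases h with
    | sq x y w z h => exact ⟨1, N1.one_mem, by rw [one_smul]; exact (sq_lab _ h).symm⟩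
    | act n hn x y =>
      refine ⟨n, hn, ?_⟩
      show (n • y).1 \ (n • x).1 = n • (y.1 \ x.1)
      rw [smulZ c v0, smulZ c v0, Set.smul_set_sdiff]
  | refl e => exact ⟨1, N1.one_mem, by rw [one_smul]⟩
  | symm e f _ ih =>
    obtain ⟨n, hn, h⟩ := ih
    exact ⟨n⁻¹, N1.inv_mem hn, by rw [h, inv_smul_smul]⟩
  | trans e f g' _ _ ih1 ih2 =>
    obtain ⟨n, hn, h⟩ := ih1
    obtain ⟨m, hm, h'⟩ := ih2
    exact ⟨m * n, N1.mul_mem hm hn, by rw [h', h, mul_smul]⟩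

theorem smul_single (g : G) (A : Set G) : g • ({A} : Set (Set G)) = {g • A} := by
  rw [Set.smul_set_singleton]

theorem special (c : Cx N X d δ) (hsp : IsSpecialAction X (⊤ : Subgroup N)) (v0 : V) :
    letI := actZ c v0
    ∃ N1 : Subgroup G, N1.FiniteIndex ∧ IsCompactSpecial (ZG (HF_sys c v0) 1) N1 := by
  classical
  letI := actZ c v0
  obtain ⟨N1, hfi, hle, hP⟩ := exists_N1 c hsp v0
  have S := HF_sys c v0
  have hmed := ZG_median S (1 : G)
  refine ⟨N1, hfi, ?_⟩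
  have inBd : ∀ {x y : Vt (HF N X v0) (1 : G)} {h : Set G}, (ZG S 1).Adj x y → y.1 \ x.1 = {h} →
      h ∈ Bd S x := by
    intro x y h hxy he
    exact ⟨y, hxy, Or.inl (by rw [he]; rfl)⟩
  have nodir : ∀ x y z, (ZG S 1).Adj x y → (ZG S 1).Adj x z → OPar (ZG S 1) N1 (x, y) (x, z) →
      y = z := by
    intro x y z hy hz h
    obtain ⟨h1, e1, -⟩ := adj_lab S hy
    obtain ⟨h2, e2, -⟩ := adj_lab S hz
    obtain ⟨n, hn, h3⟩ := opar_lab c v0 N1 h
    have h3' : z.1 \ x.1 = n • (y.1 \ x.1) := h3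
    rw [e1, e2, smul_single, Set.singleton_eq_singleton_iff] at h3'
    have h4 := (hP n hn x h2 (inBd hz e2) h1 (inBd hy e1)).1 h3'.symm
    apply lab_inj S
    rw [e1, e2, h4]
  refine ⟨?_, ?_, ?_, ?_, ?_, ?_⟩
  · -- free
    intro n hn x hx
    have hall : ∀ y : Vt (HF N X v0) (1 : G), n • y = y := by
      refine conn_ind hmed.conn (fun y => n • y = y) x hx ?_
      intro u w huw hu
      refine (nodir u w (n • w) huw ?_ ?_).symm
      · have := adj_smul c v0 n u w huw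
        rwa [hu] at this
      · have := Relation.EqvGen.rel _ _ (OStep.act (X := ZG S 1) n hn u w)
        rwa [hu] at this
    have h1 := hall (pt S 1 1)
    rw [smul_pt c v0, mul_one] at h1
    -- the walls of `X` do not separate the images
    obtain ⟨C, hC⟩ := count c v0
    have h2 : X.dist (FM N v0 1) (FM N v0 n) ≤ C * 0 := by
      obtain ⟨f1, f2⟩ := walls_sep c.med (FM N v0 1) (FM N v0 n)
      rw [← f2]
      have h3 := hC _ ∅ (fun W hW => hW.1) Set.finite_empty (by rintro h ⟨⟩) (by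
        rintro W ⟨hW, ha, hb⟩
        have ha' : (1 : G) ∈ tr N v0 1 W := by rw [mem_tr, inv_one, one_mul]; exact ha
        have hb' : n ∉ tr N v0 1 W := by rw [mem_tr, inv_one, one_mul]; exact hb
        have h4 : tr N v0 1 W ∈ (pt S (1 : G) 1).1 :=
          ⟨⟨⟨1, ha'⟩, ⟨n, hb'⟩, 1, W, hW, rfl⟩, ha'⟩
        rw [← h1] at h4
        exact absurd h4.2 hb') f1
      rw [Set.ncard_empty] at h3
      exact h3
    rw [mul_zero, Nat.le_zero] at h2
    have h3 := c.med.conn.dist_eq_zero_iff.1 h2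
    have h4 : FM N v0 n = (⟨n, hle hn⟩ : N) • FM N v0 1 := by
      have := FM_mul N v0 ⟨n, hle hn⟩ 1
      rwa [mul_one] at this
    rw [h4] at h3
    have h5 := c.free _ _ h3.symm
    exact congrArg Subtype.val h5
  · -- cocompact
    obtain ⟨T, hT, hcov⟩ := cocZ c v0
    refine ⟨⋃ t ∈ Set.range (tt N1), (fun x => t • x) '' T,
      (tt_finite N1 hfi).biUnion fun t _ => hT.image _, fun v => ?_⟩
    obtain ⟨g, hg⟩ := hcov v
    refine ⟨((nn N1 g⁻¹ : N1) : G)⁻¹, N1.inv_mem (nn N1 g⁻¹).2,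
      Set.mem_biUnion ⟨g⁻¹, rfl⟩ ⟨g • v, hg, ?_⟩⟩
    show tt N1 g⁻¹ • g • v = ((nn N1 g⁻¹ : N1) : G)⁻¹ • v
    have h1 := nn_tt N1 g⁻¹
    have h2 : tt N1 g⁻¹ * g = ((nn N1 g⁻¹ : N1) : G)⁻¹ :=
      eq_inv_of_mul_eq_one_right (by rw [← mul_assoc, h1, inv_mul_cancel])
    rw [← mul_smul, h2]
  · -- two-sided
    intro x y hxy h
    obtain ⟨h1, e1, e2⟩ := adj_lab S hxy
    obtain ⟨n, hn, h3⟩ := opar_lab c v0 N1 h
    have h3' : x.1 \ y.1 = n • (y.1 \ x.1) := h3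
    rw [e1, e2, smul_single, Set.singleton_eq_singleton_iff] at h3'
    have hb := inBd hxy e1
    have h4 := (hP n hn x h1ᶜ (Bd_compl S hb) h1 hb).1 h3'.symm
    have hH : h1 ∈ HF N X v0 := by
      have : h1 ∈ y.1 \ x.1 := by rw [e1]; rfl
      exact y.2.sub this.1
    exact compl_ne S hH h4.symm
  · -- no self crossing
    intro p q r t hs h
    obtain ⟨h1, e1, e1'⟩ := adj_lab S hs.xy
    obtain ⟨h2, e2, e2'⟩ := adj_lab S hs.zx.symm
    obtain ⟨c1, c2, c3, c4⟩ := sq_cross S hs e1 e2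
    have b1 := inBd hs.xy e1
    have b2 := inBd hs.zx.symm e2
    rcases par_cases h with h | h
    · obtain ⟨n, hn, h3⟩ := opar_lab c v0 N1 h
      have h3' : t.1 \ p.1 = n • (q.1 \ p.1) := h3
      rw [e1, e2, smul_single, Set.singleton_eq_singleton_iff] at h3'
      have h4 := (hP n hn p h2 b2 h1 b1).1 h3'.symm
      obtain ⟨u, hu1, hu2⟩ := c2
      rw [h4] at hu2
      exact hu2 hu1
    · obtain ⟨n, hn, h3⟩ := opar_lab c v0 N1 h
      have h3' : p.1 \ t.1 = n • (q.1 \ p.1) := h3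
      rw [e1, e2', smul_single, Set.singleton_eq_singleton_iff] at h3'
      have h4 := (hP n hn p h2ᶜ (Bd_compl S b2) h1 b1).1 h3'.symm
      obtain ⟨u, hu1, hu2⟩ := c1
      rw [← h4] at hu1
      exact hu1 hu2
  · exact nodir
  · -- no interosculation
    rintro x y z hy hz ⟨p, q, r, t, hs, h, h'⟩
    obtain ⟨h1, e1, e1'⟩ := adj_lab S hs.xy
    obtain ⟨h2, e2, e2'⟩ := adj_lab S hs.zx.symm
    have hcr : Cross h1 h2 := sq_cross S hs e1 e2
    obtain ⟨h3, e3, e3'⟩ := adj_lab S hy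
    obtain ⟨h4, e4, e4'⟩ := adj_lab S hz
    -- the labels agree up to the action and complements
    have k1 : ∃ n ∈ N1, h3 = n • h1 ∨ h3 = n • h1ᶜ := by
      rcases par_cases h with h | h
      · obtain ⟨n, hn, h5⟩ := opar_lab c v0 N1 h
        have h5' : y.1 \ x.1 = n • (q.1 \ p.1) := h5
        rw [e1, e3, smul_single, Set.singleton_eq_singleton_iff] at h5'
        exact ⟨n, hn, Or.inl h5'⟩
      · obtain ⟨n, hn, h5⟩ := opar_lab c v0 N1 h
        have h5' : x.1 \ y.1 = n • (q.1 \ p.1) := h5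
        rw [e1, e3', smul_single, Set.singleton_eq_singleton_iff] at h5'
        refine ⟨n, hn, Or.inr ?_⟩
        rw [Set.smul_set_compl, ← h5', compl_compl]
    have k2 : ∃ n ∈ N1, h4 = n • h2 ∨ h4 = n • h2ᶜ := by
      rcases par_cases h' with h | h
      · obtain ⟨n, hn, h5⟩ := opar_lab c v0 N1 h
        have h5' : z.1 \ x.1 = n • (t.1 \ p.1) := h5
        rw [e2, e4, smul_single, Set.singleton_eq_singleton_iff] at h5'
        exact ⟨n, hn, Or.inl h5'⟩
      · obtain ⟨n, hn, h5⟩ := opar_lab c v0 N1 h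
        have h5' : x.1 \ z.1 = n • (t.1 \ p.1) := h5
        rw [e2, e4', smul_single, Set.singleton_eq_singleton_iff] at h5'
        refine ⟨n, hn, Or.inr ?_⟩
        rw [Set.smul_set_compl, ← h5', compl_compl]
    obtain ⟨n, hn, k1⟩ := k1
    obtain ⟨m, hm, k2⟩ := k2
    have k3 : Cross (n⁻¹ • h3) (m⁻¹ • h4) := by
      rcases k1 with k1 | k1 <;> rcases k2 with k2 | k2 <;>
        rw [k1, k2, inv_smul_smul, inv_smul_smul]
      · exact hcr
      · exact hcr.compl_right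
      · exact hcr.compl_left
      · exact hcr.compl_left.compl_right
    have k4 : Cross h3 ((n * m⁻¹) • h4) := by
      have := k3.smul n
      rwa [smul_inv_smul, ← mul_smul] at this
    have k5 := (hP _ (N1.mul_mem hn (N1.inv_mem hm)) x h3 (inBd hy e3) h4 (inBd hz e4)).2 k4
    exact cross_sq S hy hz e3 e4 k5

/-- quasiconvex subgroups have quasiconvex orbits in the dual graph -/
theorem orbitZ (c : Cx N X d δ) (v0 : V) (H : Subgroup G) {κ : ℕ}
    (hH : ∀ h ∈ H, ∀ m, d 1 m + d m h = d 1 h → ∃ h' ∈ H, d m h' ≤ κ) :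
    letI := actZ c v0
    ∃ κ', ∀ h ∈ H, ∀ m, H97R3.VR.Btw (ZG (HF_sys c v0) 1) (pt (HF_sys c v0) 1 1)
      (h • pt (HF_sys c v0) 1 1) m → ∃ h' ∈ H,
        (ZG (HF_sys c v0) 1).dist m (h' • pt (HF_sys c v0) 1 1) ≤ κ' := by
  classical
  letI := actZ c v0
  have S := HF_sys c v0
  obtain ⟨R, M, hRM⟩ := center' c v0
  obtain ⟨M', hM'⟩ := near_bdd c v0 R
  obtain ⟨C, hC⟩ := count c v0
  obtain ⟨Cq, D, hq⟩ := c.quasi v0
  obtain ⟨Rb, hRb⟩ := morse_b c.nm c.hyp Cq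
  obtain ⟨E, hE⟩ := c.proper v0 (C * M' + D)
  -- distance in the dual graph is bounded in terms of the distance in the group
  obtain ⟨L, hL⟩ := c.bdd (fun a b => DD (pt S 1 a) (pt S 1 b)) (by
    intro n a b
    show DD (pt S 1 ((n : G) * a)) (pt S 1 ((n : G) * b)) = DD (pt S 1 a) (pt S 1 b)
    rw [← smul_pt c v0, ← smul_pt c v0, DD_smul c v0]) (E + Rb + κ)
  refine ⟨M + L, fun h hh m hm => ?_⟩
  rw [smul_pt c v0, mul_one] at hm
  rw [btw_iff S] at hm
  obtain ⟨g, hg1, hg2⟩ := hRM m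
  -- the median in `X`
  obtain ⟨μ, ⟨u1, u2, u3⟩, -⟩ := c.med.med (FM N v0 1) (FM N v0 h) (FM N v0 g)
  have hμ : X.dist (FM N v0 g) μ ≤ C * M' := by
    obtain ⟨f1, f2⟩ := walls_sep c.med μ (FM N v0 g)
    rw [SimpleGraph.dist_comm, ← f2]
    obtain ⟨g1, g2⟩ := hM' g
    refine (hC _ _ (fun W hW => hW.1) g1 ?_ ?_ f1).trans (Nat.mul_le_mul_left C g2)
    · rintro k ⟨hk, -⟩
      exact ⟨hk.1, hk.2.1⟩
    · rintro W ⟨hW, hμW, hgW⟩
      -- both `F 1` and `F h` lie in `W`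
      have w1 : FM N v0 1 ∈ W := by
        by_contra hc
        exact wall_convex c.med (walls_compl c.med hW) _ hc _ hgW μ u3 hμW
      have w2 : FM N v0 h ∈ W := by
        by_contra hc
        exact wall_convex c.med (walls_compl c.med hW) _ hc _ hgW μ u2 hμW
      have t1 : (1 : G) ∈ tr N v0 1 W := by rw [mem_tr, inv_one, one_mul]; exact w1
      have t2 : h ∈ tr N v0 1 W := by rw [mem_tr, inv_one, one_mul]; exact w2
      have t3 : g ∉ tr N v0 1 W := by rw [mem_tr, inv_one, one_mul]; exact hgW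
      have t4 : tr N v0 1 W ∈ HF N X v0 := ⟨⟨1, t1⟩, ⟨g, t3⟩, 1, W, hW, rfl⟩
      exact ⟨t4, t3, hg1 _ (hm ⟨⟨t4, t1⟩, ⟨t4, t2⟩⟩)⟩
  obtain ⟨s, s0, s1, s2, hs⟩ := exists_geod' c.med u1
  obtain ⟨k, q, hQ, q0, q1, -, h1⟩ := hq _ s 1 h hs s0 s1
  have hple : X.dist (FM N v0 1) μ ≤ X.dist (FM N v0 1) (FM N v0 h) := by
    unfold H97R3.VR.Btw at u1
    omega
  obtain ⟨i, hi, h2⟩ := h1 _ hple
  rw [s2] at h2
  obtain ⟨z, hz1, hz2⟩ := hRb k q hQ i hi
  rw [q0, q1] at hz1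
  obtain ⟨h', hh', h3⟩ := hH h hh z hz1
  have h4 : d g (q i) ≤ E := by
    refine hE _ _ ?_
    have t1 : X.dist (FM N v0 g) (FM N v0 (q i)) ≤ X.dist (FM N v0 g) μ +
      X.dist μ (FM N v0 (q i)) := c.med.conn.dist_triangle
    have t2 : X.dist μ (FM N v0 (q i)) = X.dist (FM N v0 (q i)) μ := SimpleGraph.dist_comm
    omega
  have h5 : d g h' ≤ E + Rb + κ := by
    have t1 := c.nm.tri g (q i) h'
    have t2 := c.nm.tri (q i) z h'
    have t3 := c.nm.symm (q i) z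
    omega
  refine ⟨h', hh', ?_⟩
  rw [smul_pt c v0, mul_one, ZG_dist]
  have h6 := hL g h' h5
  have h6' : DD (pt S (1 : G) g) (pt S 1 h') ≤ L := h6
  have h7 := DD_tri S m (pt S 1 g) (pt S 1 h')
  have h8 : DD m (pt S 1 g) ≤ M := hg2
  show DD m (pt S 1 h') ≤ M + L
  omega

/-- quasiconvex subgroups are virtual retracts, under the standing assumptions -/
theorem final_cx (c : Cx N X d δ) (hsp : IsSpecialAction X (⊤ : Subgroup N)) (v0 : V)
    (H : Subgroup G) {κ : ℕ} (hH : ∀ h ∈ H, ∀ m, d 1 m + d m h = d 1 h → ∃ h' ∈ H, d m h' ≤ κ) :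
    IsVirtualRetract H := by
  letI := actZ c v0
  obtain ⟨N1, hfi, hsp1⟩ := special c hsp v0
  obtain ⟨κ', hκ'⟩ := orbitZ c v0 H hH
  exact quasiconvex' (ZG_median (HF_sys c v0) 1) (locZ c v0) (fun g x y => adj_smul c v0 g x y)
    hsp1 H (pt (HF_sys c v0) 1 1) κ' hκ'

end special

end Pool.Agent.TH97.VR
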