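import Pool.Agent.TH97.VR.Walls

/-!
# The folding map onto a convex subcomplex
-/

set_option autoImplicit false

namespace Pool.Agent.TH97.VR

open Pool.Agent.H97R3.VR

variable {V G : Type} [Group G] [MulAction G V] {X : SimpleGraph V} {N : Subgroup G}
  {H : Subgroup G} {C : Set V}

/-- the folding map -/
noncomputable def fold [N.Normal] (D : Dat X N H C) {c0 : V} (hc0 : c0 ∈ C) (v : V) : C :=
  D.F c0 1 v ⟨c0, hc0⟩

variable [hNn : N.Normal] (D : Dat X N H C) {c0 : V} (hc0 : c0 ∈ C)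

include hNn in
theorem fold_mem {v : V} (hv : v ∈ C) : fold D hc0 v = ⟨v, hv⟩ :=
  D.F4 c0 hc0 _ ⟨v, hv⟩ rfl

include hNn in
theorem fold_step {x y : V} (h : X.Adj x y) :
    fold D hc0 y = mv X N C (x, y) (fold D hc0 x) := by
  unfold fold
  rw [D.Fs c0 1 h, Equiv.Perm.mul_apply, sg_apply, one_smul, one_smul]

include hNn in
/-- equivariance of the folding map -/
theorem fold_smul {k : G} (hk : k ∈ D.K c0 hc0) : ∃ h ∈ H, (∃ n ∈ N, k = n * h) ∧
    ∀ v, ((fold D hc0 (k • v) : C) : V) = h • ((fold D hc0 v : C) : V) := by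
  obtain ⟨h, hh, n, hn, h1, h2⟩ := (D.mem_K c0).1 hk
  have h3 : 1 * k = n * h * 1 := h2
  rw [one_mul, mul_one] at h3
  refine ⟨h, hh, ⟨n, hn, h3⟩, fun v => ?_⟩
  have h4 : ((D.F c0 1 (k • c0) ⟨c0, hc0⟩ : C) : V) = h • c0 := h1
  unfold fold
  rw [D.F2 c0 1 k v, Equiv.Perm.mul_apply, one_mul]
  have e1 : (D.F c0 1 (k • c0) ⟨c0, hc0⟩ : C) = ⟨h • c0, D.hH _ hh c0 hc0⟩ := Subtype.ext h4
  have e2 : D.F c0 k v = D.F c0 (h * 1) v := by
    rw [h3, D.F1 c0 hn, mul_one]
  rw [e1, e2]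
  have e3 := D.F3 c0 hh 1 v ⟨c0, hc0⟩
  exact congrArg Subtype.val e3

omit hNn in
/-- corner squares -/
theorem corner' (hX : IsMedian X) (hN : IsSpecialAction X N) (hC : IsConvex X C) {p q r o : V}
    (hs : Square X p q r o) {x y z : C} (hy : X.Adj (x : V) y) (hz : X.Adj (x : V) z)
    (h1 : Par X N (p, q) ((x : V), (y : V))) (h2 : Par X N (p, o) ((x : V), (z : V))) :
    ∃ w : C, Square X (x : V) y w z := by
  obtain ⟨w, hw⟩ := hN.nointer x y z hy hz ⟨p, q, r, o, hs, h1, h2⟩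
  have hwC : w ∈ C := by
    refine hC y y.2 z z.2 w ?_
    unfold H97R3.VR.Btw
    rw [dist_two hX hy hz hw.ne', adj_one hw.yw, adj_one hw.wz]
  exact ⟨⟨w, hwC⟩, hw⟩

include hNn in
/-- the folding map preserves the walls meeting the convex subcomplex -/
theorem fold_wall {x y : V} (hx : x ∈ C) (hy : y ∈ C) (hxy : X.Adj x y) (k : ℕ) :
    ∀ a b : V, X.Adj a b → X.dist x a = k → Wh X x y a → Wh X y x b →
      X.Adj (fold D hc0 a : V) (fold D hc0 b) ∧
      Par X N (a, b) ((fold D hc0 a : V), (fold D hc0 b : V)) ∧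
      ∀ z, Wh X (fold D hc0 a : V) (fold D hc0 b) z ↔ Wh X x y z := by
  have hX := D.hX
  induction k with
  | zero =>
    intro a b hab hk ha hb
    have h1 : x = a := hX.conn.dist_eq_zero_iff.1 hk
    subst h1
    have h2 := dist_step hX b hxy
    have h3 : X.dist b x = 1 := adj_one hab.symm
    unfold Wh at hb
    have h4 : X.dist b y = 0 := by omega
    have h5 : b = y := hX.conn.dist_eq_zero_iff.1 h4
    subst h5
    rw [fold_mem D hc0 hx, fold_mem D hc0 hy]
    exact ⟨hab, Par.refl _, fun _ => Iff.rfl⟩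
  | succ k ih =>
    intro a b hab hk ha hb
    unfold Wh at ha hb
    have e1 : X.dist a x = X.dist x a := SimpleGraph.dist_comm
    have e2 : X.dist b x = X.dist x b := SimpleGraph.dist_comm
    have e3 : X.dist a y = X.dist y a := SimpleGraph.dist_comm
    have e4 : X.dist b y = X.dist y b := SimpleGraph.dist_comm
    have s1 := dist_step hX a hxy
    have s2 := dist_step hX b hxy
    have s3 := dist_step hX x hab
    have s4 := dist_step hX y hab
    obtain ⟨a', ha1, ha2⟩ := exists_pred hX.conn hk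
    have e5 : X.dist a' x = X.dist x a' := SimpleGraph.dist_comm
    have e6 : X.dist a' y = X.dist y a' := SimpleGraph.dist_comm
    have s5 := dist_step hX a' hxy
    have s6 := dist_step hX y ha1
    have hne : a' ≠ b := fun e => by subst e; omega
    obtain ⟨b', hb1, hb2, hb3⟩ := qc hX (u := y) (x := a) (y := a') (z := b) (n := k + 1)
      ha1.symm hab hne (by omega) (by omega)
    have e7 : X.dist b' x = X.dist x b' := SimpleGraph.dist_comm
    have e8 : X.dist b' y = X.dist y b' := SimpleGraph.dist_comm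
    have s7 := dist_step hX b' hxy
    have s8 := dist_step hX x hb2
    have hsq : Square X a' b' b a :=
      ⟨hb1.symm, hb2, hab.symm, ha1.symm, hne, fun e => by rw [e] at hb3; omega⟩
    obtain ⟨p1, p2, p3⟩ := ih a' b' hb1.symm ha2 (by unfold Wh; omega) (by unfold Wh; omega)
    have fa : fold D hc0 a = mv X N C (a', a) (fold D hc0 a') := fold_step D hc0 ha1
    have fb : fold D hc0 b = mv X N C (a', a) (fold D hc0 b') := by
      rw [fold_step D hc0 hb2, mv_congr D.hN (hsq.par' (N := N)).symm]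
    have hpar : Par X N (a', b') (a, b) := hsq.par
    by_cases hA : ∃ z : C, X.Adj (fold D hc0 a' : V) z ∧
        Par X N (a', a) ((fold D hc0 a' : V), (z : V))
    · obtain ⟨z, hz1, hz2⟩ := hA
      obtain ⟨w, hw⟩ := corner' hX D.hN D.hC hsq p1 hz1 p2 hz2
      rw [fa, fb, mv_eq D.hN hz1 hz2, mv_eq D.hN hw.yw (hz2.trans hw.par')]
      refine ⟨hw.wz.symm, hpar.symm.trans (p2.trans hw.par), fun u => ?_⟩
      rw [← p3 u]
      exact (sq_half_iff hX hw u).symm
    · have hB : ¬ ∃ w : C, X.Adj (fold D hc0 b' : V) w ∧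
          Par X N (a', a) ((fold D hc0 b' : V), (w : V)) := by
        rintro ⟨w, hw1, hw2⟩
        obtain ⟨v, hv⟩ := corner' hX D.hN D.hC hsq p1.symm hw1 (p2.trans (par_flip _ _)) hw2
        exact hA ⟨v, hv.yw, hw2.trans hv.par'⟩
      rw [fa, fb, mv_not hA, mv_not hB]
      exact ⟨p1, hpar.symm.trans p2, p3⟩

include hNn in
/-- if a translate by an element of `K` of a wall meeting `C` meets `C`, then it is a translate by an
element of `H` -/
theorem wall_K {k : G} (hk : k ∈ D.K c0 hc0) {x y x' y' : V} (hx : x ∈ C) (hy : y ∈ C)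
    (hxy : X.Adj x y) (hx' : x' ∈ C) (hy' : y' ∈ C) (hxy' : X.Adj x' y')
    (h : {u | Wh X (k • x) (k • y) u} = {u | Wh X x' y' u}) :
    ∃ b ∈ H, {u | Wh X (b • x) (b • y) u} = {u | Wh X x' y' u} := by
  obtain ⟨b, hb, -, hf⟩ := fold_smul D hc0 hk
  refine ⟨b, hb, ?_⟩
  have hkk := D.hG k x y hxy
  have h1 : k • x ∈ {u | Wh X x' y' u} := by
    rw [← h]
    exact wall_left D.hX hkk
  have h2 : k • y ∉ {u | Wh X x' y' u} := by
    rw [← h]
    exact wall_right D.hX hkk
  obtain ⟨-, -, h3⟩ := fold_wall D hc0 hx' hy' hxy' _ (k • x) (k • y) hkk rfl h1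
    (Wh.of_not D.hX hxy' h2)
  rw [hf, hf, fold_mem D hc0 hx, fold_mem D hc0 hy] at h3
  ext u
  exact h3 u

end Pool.Agent.TH97.VR
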