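import Pool.Agent.TH97.VR.Half

/-!
# Geometry of the half spaces
-/

set_option autoImplicit false

namespace Pool.Agent.TH97.VR

open Pool.Agent.H97R3.VR
open Pointwise

section gen

variable {α : Type} {d : α → α → ℕ}

/-- geodesics with nearby ends -/
theorem fellow (hd : NM d) {δ : ℕ} (hyp : H4 d δ) {x y x' y' m : α} {r : ℕ} (hx : d x x' ≤ r)
    (hy : d y y' ≤ r) (hm : d x m + d m y = d x y) :
    ∃ m', d x' m' + d m' y' = d x' y' ∧ d m m' ≤ 3 * r + 2 * δ := by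
  obtain ⟨m', h1, h2⟩ := hd.geo x' y' (min (d x m) (d x' y')) (min_le_right _ _)
  refine ⟨m', by omega, ?_⟩
  have t1 := hd.tri m x x'
  have t2 := hd.tri m y y'
  have t3 := hd.tri x x' y
  have t4 := hd.tri x' y' y
  have e1 := hd.symm m x
  have e2 := hd.symm y' y
  have e3 := hd.symm m' x'
  rcases le_total (d x m) (d x' y') with h | h
  · rw [min_eq_left h] at h1 h2
    rcases hyp.or m m' x' y' with h4 | h4 <;> omega
  · rw [min_eq_right h] at h1 h2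
    rcases hyp.or m m' x' y' with h4 | h4 <;> omega

end gen

variable {G V : Type} [Group G] {N : Subgroup G} [MulAction N V] {X : SimpleGraph V}
  {d : G → G → ℕ} {δ : ℕ}

theorem QC.smul (c : Cx N X d δ) {κ : ℕ} {B : Set G} (hB : QC d κ B) (g : G) : QC d κ (g • B) := by
  rintro _ ⟨a, ha, rfl⟩ _ ⟨b, hb, rfl⟩ m hm
  simp only [smul_eq_mul] at hm
  obtain ⟨x, hx, hx2⟩ := hB a ha b hb (g⁻¹ * m) (by
    rw [← c.inv g, mul_inv_cancel_left, ← c.inv g (g⁻¹ * m), mul_inv_cancel_left, ← c.inv g a b]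
    exact hm)
  refine ⟨g * x, ⟨x, hx, rfl⟩, ?_⟩
  rw [← c.inv g, mul_inv_cancel_left] at hx2
  exact hx2

/-- points near a half space of `X` are near its trace -/
theorem near_trace (c : Cx N X d δ) (v0 : V) (D : ℕ) : ∃ κ, ∀ (m : G) (W : Set V), W ∈ walls X →
    (tr N v0 1 W).Nonempty → (∃ w ∈ W, X.dist (FM N v0 m) w ≤ D) → ∃ x ∈ tr N v0 1 W, d m x ≤ κ := by
  classical
  -- the finite set of pairs
  have hfin : {p : G × Set V | p.1 ∈ Set.range (tt N) ∧ p.2 ∈ walls X ∧ FM N v0 p.1 ∉ p.2 ∧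
      ∃ w ∈ p.2, X.dist (FM N v0 p.1) w ≤ D}.Finite := by
    refine (Set.Finite.biUnion (tt_finite N c.idx) (t := fun t =>
      ⋃ w ∈ {w | X.dist (FM N v0 t) w ≤ D},
        (fun W => (t, W)) '' {W | W ∈ walls X ∧ w ∈ W ∧ FM N v0 t ∉ W}) fun t _ =>
      Set.Finite.biUnion (ball_finite c.med.conn c.loc _ D) fun w _ =>
        (walls_sep c.med _ _).1.image _).subset ?_
    rintro ⟨t, W⟩ ⟨h1, h2, h3, w, h4, h5⟩
    exact Set.mem_biUnion h1 (Set.mem_biUnion (show w ∈ {w | X.dist (FM N v0 t) w ≤ D} from h5)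
      ⟨W, ⟨h2, h4, h3⟩, rfl⟩)
  obtain ⟨κ, hκ⟩ := bdd_of_finite hfin
    (fun p => sInf {n | ∃ x ∈ tr N v0 1 p.2, d p.1 x = n})
  refine ⟨κ, fun m W hW hne ⟨w, hw, hwD⟩ => ?_⟩
  by_cases hm : FM N v0 m ∈ W
  · refine ⟨m, ?_, by rw [c.nm.self]; exact Nat.zero_le _⟩
    rw [mem_tr, inv_one, one_mul]
    exact hm
  · set n := nn N m with hn
    set t := tt N m with ht
    have hnt : (n : G) * t = m := nn_tt N m
    have hF : FM N v0 m = n • FM N v0 t := by rw [← hnt, FM_mul]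
    have e1 : tr N v0 1 (n⁻¹ • W) = ((n⁻¹ : N) : G) • tr N v0 1 W := by
      rw [smul_tr, mul_one, ← tr_mul, one_mul]
    have hmem : (t, n⁻¹ • W) ∈ {p : G × Set V | p.1 ∈ Set.range (tt N) ∧ p.2 ∈ walls X ∧
        FM N v0 p.1 ∉ p.2 ∧ ∃ w ∈ p.2, X.dist (FM N v0 p.1) w ≤ D} := by
      refine ⟨⟨m, rfl⟩, smul_mem_walls c.med c.act _ hW, ?_, n⁻¹ • w, ?_, ?_⟩
      · rw [Set.mem_smul_set_iff_inv_smul_mem, inv_inv, ← hF]
        exact hm
      · exact Set.smul_mem_smul_set hw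
      · show X.dist (FM N v0 t) (n⁻¹ • w) ≤ D
        rw [← c.dsm n, smul_inv_smul, ← hF]
        exact hwD
    have h1 := hκ _ hmem
    have hne2 : {n' | ∃ x ∈ tr N v0 1 (n⁻¹ • W), d t x = n'}.Nonempty := by
      obtain ⟨x, hx⟩ := hne
      refine ⟨_, ((n⁻¹ : N) : G) • x, ?_, rfl⟩
      rw [e1]
      exact Set.smul_mem_smul_set hx
    obtain ⟨x, hx, hx2⟩ := Nat.sInf_mem hne2
    refine ⟨(n : G) * x, ?_, ?_⟩
    · rw [e1, Set.mem_smul_set_iff_inv_smul_mem] at hx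
      simpa using hx
    · rw [← hnt, c.inv, hx2]
      exact h1

/-- the half spaces of the group are uniformly quasiconvex -/
theorem HF_qc (c : Cx N X d δ) (v0 : V) : ∃ κ, ∀ h ∈ HF N X v0, QC d κ h := by
  obtain ⟨C, D, hq⟩ := c.quasi v0
  obtain ⟨R, hR⟩ := morse_a c.nm c.hyp C
  obtain ⟨L, hL⟩ := c.lip' v0
  obtain ⟨κ, hκ⟩ := near_trace c v0 (L * R + D)
  refine ⟨κ, ?_⟩
  have key : ∀ W ∈ walls X, QC d κ (tr N v0 1 W) := by
    intro W hW a ha b hb m hm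
    rw [mem_tr, inv_one, one_mul] at ha hb
    obtain ⟨p, p0, p1, hp⟩ := exists_geod c.med (FM N v0 a) (FM N v0 b)
    obtain ⟨k, q, hQ, q0, q1, h1, -⟩ := hq _ p a b hp p0 p1
    obtain ⟨i, hi, h2⟩ := hR k q hQ m (by rw [q0, q1]; exact hm)
    obtain ⟨j, hj, h3⟩ := h1 i hi
    have hpj : p j ∈ W := by
      refine wall_convex c.med hW _ ha _ hb _ ?_
      have a1 := hp 0 j (Nat.zero_le _) hj
      have a2 := hp j _ hj le_rfl
      rw [p0] at a1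
      rw [p1] at a2
      show X.dist _ _ + X.dist _ _ = X.dist _ _
      omega
    refine hκ m W hW ⟨a, by rw [mem_tr, inv_one, one_mul]; exact ha⟩ ⟨p j, hpj, ?_⟩
    have h4 := hL m (q i)
    have h5 : X.dist (FM N v0 m) (p j) ≤ X.dist (FM N v0 m) (FM N v0 (q i)) +
      X.dist (FM N v0 (q i)) (p j) := c.med.conn.dist_triangle
    have h6 := Nat.mul_le_mul_left L h2
    omega
  rintro h ⟨-, -, g, W, hW, rfl⟩
  have : tr N v0 g W = g • tr N v0 1 W := by rw [smul_tr, mul_one]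
  rw [this]
  exact (key W hW).smul c g

/-- the vertex of a half space family lies near a point of the group -/
theorem center (c : Cx N X d δ) (v0 : V) : ∃ R, ∀ σ : Vt (HF N X v0) (1 : G),
    ∃ g, ∀ h ∈ σ.1, ∃ b ∈ h, d g b ≤ R := by
  obtain ⟨κ, hκ⟩ := HF_qc c v0
  refine ⟨2 * 0 + 3 * κ + 6 * δ + 1, fun σ => ?_⟩
  refine helly c.nm c.hyp 0 σ.1 (fun h hh => hκ h (σ.2.sub hh)) (fun h hh => (σ.2.sub hh).1) ?_ 1
    σ.2.fin
  intro A hA B hB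
  have : (A ∩ B).Nonempty := by
    by_contra hc
    rw [Set.not_nonempty_iff_eq_empty, ← Set.disjoint_iff_inter_eq_empty,
      Set.disjoint_left] at hc
    exact not_of_mem hB (σ.2.up A hA Bᶜ ((HF_sys c v0).compl B (σ.2.sub hB)) fun x hx hxB =>
      hc hx hxB)
  obtain ⟨x, hx1, hx2⟩ := this
  exact ⟨x, hx1, x, hx2, by rw [c.nm.self]⟩

theorem center' (c : Cx N X d δ) (v0 : V) : ∃ R M, ∀ σ : Vt (HF N X v0) (1 : G),
    ∃ g, (∀ h ∈ σ.1, ∃ b ∈ h, d g b ≤ R) ∧ DD σ (pt (HF_sys c v0) 1 g) ≤ M := by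
  obtain ⟨R, hR⟩ := center c v0
  obtain ⟨M, hM⟩ := near_bdd c v0 R
  refine ⟨R, M, fun σ => ?_⟩
  obtain ⟨g, hg⟩ := hR σ
  refine ⟨g, hg, ?_⟩
  obtain ⟨h1, h2⟩ := hM g
  refine (Set.ncard_le_ncard ?_ h1).trans h2
  rintro h ⟨h3, h4⟩
  refine ⟨σ.2.sub h3, fun h5 => h4 ⟨σ.2.sub h3, h5⟩, hg h h3⟩

/-- few half spaces separate only points of bounded distance -/
theorem sep_proper (c : Cx N X d δ) (v0 : V) (n : ℕ) : ∃ R, ∀ a b : G,
    DD (pt (HF_sys c v0) 1 a) (pt (HF_sys c v0) 1 b) ≤ n → d a b ≤ R := by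
  obtain ⟨C, hC⟩ := count c v0
  obtain ⟨R, hR⟩ := c.proper v0 (C * n)
  refine ⟨R, fun a b hab => hR a b ?_⟩
  obtain ⟨h1, h2⟩ := walls_sep c.med (FM N v0 a) (FM N v0 b)
  rw [← h2]
  refine (hC _ {h | h ∈ HF N X v0 ∧ a ∈ h ∧ b ∉ h} (fun W hW => hW.1) (HF_fin c v0 a b) ?_ ?_
    h1).trans (Nat.mul_le_mul_left C ?_)
  · rintro h ⟨-, ha, hb⟩
    exact ⟨⟨a, ha⟩, ⟨b, hb⟩⟩
  · rintro W ⟨hW, ha, hb⟩
    have ha' : a ∈ tr N v0 1 W := by rw [mem_tr, inv_one, one_mul]; exact ha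
    have hb' : b ∉ tr N v0 1 W := by rw [mem_tr, inv_one, one_mul]; exact hb
    exact ⟨⟨⟨a, ha'⟩, ⟨b, hb'⟩, 1, W, hW, rfl⟩, ha', hb'⟩
  · refine le_trans (Set.ncard_le_ncard ?_ (diff_finite (HF_sys c v0) _ _)) hab
    rintro h ⟨h3, h4, h5⟩
    exact ⟨⟨h3, h4⟩, fun h6 => h5 h6.2⟩

/-- crossing half spaces come near a common point -/
theorem cross_near (c : Cx N X d δ) (v0 : V) : ∃ R, ∀ h ∈ HF N X v0, ∀ k ∈ HF N X v0,
    (h ∩ k).Nonempty → (h ∩ kᶜ).Nonempty → (hᶜ ∩ k).Nonempty → (hᶜ ∩ kᶜ).Nonempty →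
    ∃ g, (∃ a ∈ h, d g a ≤ R) ∧ (∃ a ∈ hᶜ, d g a ≤ R) ∧ (∃ a ∈ k, d g a ≤ R) ∧
      (∃ a ∈ kᶜ, d g a ≤ R) := by
  obtain ⟨κ, hκ⟩ := HF_qc c v0
  refine ⟨2 * 1 + 3 * κ + 6 * δ + 1, ?_⟩
  intro h hh k hk x1 x2 x3 x4
  have S := HF_sys c v0
  have hadj : ∀ A : Set G, A ∈ HF N X v0 → (∃ a ∈ A, ∃ b ∈ Aᶜ, d a b ≤ 1) ∧
      ∃ a ∈ Aᶜ, ∃ b ∈ A, d a b ≤ 1 := by
    intro A hA
    obtain ⟨a, ha, b, hb, hab⟩ := exists_adj c hA.1 hA.2.1
    exact ⟨⟨a, ha, b, hb, hab⟩, b, hb, a, ha, by rw [c.nm.symm]; exact hab⟩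
  have hself : ∀ A : Set G, A.Nonempty → ∃ a ∈ A, ∃ b ∈ A, d a b ≤ 1 := by
    rintro A ⟨a, ha⟩
    exact ⟨a, ha, a, ha, by rw [c.nm.self]; exact Nat.zero_le _⟩
  have hint : ∀ A B : Set G, (A ∩ B).Nonempty → (∃ a ∈ A, ∃ b ∈ B, d a b ≤ 1) ∧
      ∃ a ∈ B, ∃ b ∈ A, d a b ≤ 1 := by
    rintro A B ⟨a, ha, hb⟩
    exact ⟨⟨a, ha, a, hb, by rw [c.nm.self]; exact Nat.zero_le _⟩, a, hb, a, ha,
      by rw [c.nm.self]; exact Nat.zero_le _⟩
  obtain ⟨g, hg⟩ := helly c.nm c.hyp 1 ({h, hᶜ, k, kᶜ} : Set (Set G)) (by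
      rintro B (rfl | rfl | rfl | rfl)
      · exact hκ _ hh
      · exact hκ _ (S.compl _ hh)
      · exact hκ _ hk
      · exact hκ _ (S.compl _ hk)) (by
      rintro B (rfl | rfl | rfl | rfl)
      · exact hh.1
      · exact hh.2.1
      · exact hk.1
      · exact hk.2.1) (by
      rintro A (rfl | rfl | rfl | rfl) B (rfl | rfl | rfl | rfl)
      · exact hself _ hh.1
      · exact (hadj _ hh).1
      · exact (hint _ _ x1).1
      · exact (hint _ _ x2).1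
      · exact (hadj _ hh).2
      · exact hself _ hh.2.1
      · exact (hint _ _ x3).1
      · exact (hint _ _ x4).1
      · exact (hint _ _ x1).2
      · exact (hint _ _ x3).2
      · exact hself _ hk.1
      · exact (hadj _ hk).1
      · exact (hint _ _ x2).2
      · exact (hint _ _ x4).2
      · exact (hadj _ hk).2
      · exact hself _ hk.2.1) 1 (by
      refine Set.Finite.subset (Set.toFinite ({h, hᶜ, k, kᶜ} : Set (Set G))) fun B hB => hB.1)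
  exact ⟨g, hg h (by simp), hg hᶜ (by simp), hg k (by simp), hg kᶜ (by simp)⟩

/-- the stabiliser of a half space in `N` -/
def stN (N : Subgroup G) (h : Set G) : Subgroup N where
  carrier := {n | (n : G) • h = h}
  one_mem' := by
    show ((1 : N) : G) • h = h
    rw [Subgroup.coe_one, one_smul]
  mul_mem' := by
    intro a b ha hb
    show ((a * b : N) : G) • h = h
    rw [Subgroup.coe_mul, mul_smul]
    have hb' : (b : G) • h = h := hb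
    rw [hb']
    exact ha
  inv_mem' := by
    intro a ha
    have ha' : (a : G) • h = h := ha
    show ((a⁻¹ : N) : G) • h = h
    rw [Subgroup.coe_inv, inv_smul_eq_iff]
    exact ha'.symm

theorem mem_stN {h : Set G} {n : N} : n ∈ stN N h ↔ (n : G) • h = h := Iff.rfl

/-- stabilisers of half spaces are quasiconvex -/
theorem stN_qc (c : Cx N X d δ) (v0 : V) {h : Set G} (hh : h ∈ HF N X v0) :
    ∃ κ, ∀ b ∈ stN N h, ∀ m, d 1 m + d m (b : G) = d 1 (b : G) → ∃ b' ∈ stN N h, d m (b' : G) ≤ κ := by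
  classical
  obtain ⟨κ, hκ⟩ := HF_qc c v0
  obtain ⟨a0, ha0, b0, hb0, -⟩ := exists_adj c hh.1 hh.2.1
  set r := max (d 1 a0) (d 1 b0) with hr
  set K := 3 * r + 2 * δ + κ with hK
  have hfin := (tt_finite N c.idx).prod (HF_loc c v0 K)
  obtain ⟨κ', hκ'⟩ := bdd_of_finite hfin
    (fun p => sInf {n | ∃ m, tt N m = p.1 ∧ m⁻¹ • h = p.2 ∧ d m 1 = n})
  refine ⟨κ', fun b hb m hm => ?_⟩
  -- `m` is near `h` and its complement
  have near : ∀ (A : Set G) (x : G), QC d κ A → x ∈ A → (b : G) • A = A → d 1 x ≤ r →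
      ∃ y ∈ A, d m y ≤ K := by
    intro A x hA hx hbA hxr
    have hbx : (b : G) * x ∈ A := by
      rw [← hbA]
      exact Set.smul_mem_smul_set hx
    obtain ⟨m', h1, h2⟩ := fellow c.nm c.hyp (x' := x) (y' := (b : G) * x) (r := r) hxr (by
      have := c.inv (b : G) 1 x
      rw [mul_one] at this
      rw [this]
      exact hxr) hm
    obtain ⟨y, hy, hy2⟩ := hA x hx _ hbx m' h1
    refine ⟨y, hy, ?_⟩
    have := c.nm.tri m m' y
    omega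
  have hbh : (b : G) • h = h := hb
  have hbc : (b : G) • hᶜ = hᶜ := by rw [Set.smul_set_compl, hbh]
  obtain ⟨y1, hy1, hy1'⟩ := near h a0 (hκ h hh) ha0 hbh (le_max_left _ _)
  obtain ⟨y2, hy2, hy2'⟩ := near hᶜ b0 (hκ _ ((HF_sys c v0).compl h hh)) hb0 hbc (le_max_right _ _)
  have hmem : (tt N m, m⁻¹ • h) ∈ Set.range (tt N) ×ˢ
      {h | h ∈ HF N X v0 ∧ (∃ a ∈ h, d 1 a ≤ K) ∧ ∃ b ∉ h, d 1 b ≤ K} := by
    refine ⟨⟨m, rfl⟩, smul_mem_HF hh _, ⟨m⁻¹ * y1, ?_, ?_⟩, m⁻¹ * y2, ?_, ?_⟩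
    · exact Set.smul_mem_smul_set hy1
    · rw [← c.inv m, mul_one, mul_inv_cancel_left]
      exact hy1'
    · intro hc
      rw [Set.mem_smul_set_iff_inv_smul_mem, inv_inv, smul_eq_mul, mul_inv_cancel_left] at hc
      exact hy2 hc
    · rw [← c.inv m, mul_one, mul_inv_cancel_left]
      exact hy2'
  have h1 := hκ' _ hmem
  have hne : {n | ∃ m', tt N m' = tt N m ∧ m'⁻¹ • h = m⁻¹ • h ∧ d m' 1 = n}.Nonempty :=
    ⟨_, m, rfl, rfl, rfl⟩
  obtain ⟨m', e1, e2, e3⟩ := Nat.sInf_mem hne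
  -- the element of the stabiliser
  have e4 : ((nn N m * (nn N m')⁻¹ : N) : G) = m * m'⁻¹ := by
    rw [Subgroup.coe_mul, Subgroup.coe_inv]
    have a3 : (nn N m : G) = m * (tt N m)⁻¹ := rfl
    have a4 : (nn N m' : G) = m' * (tt N m)⁻¹ := by rw [← e1]; rfl
    rw [a3, a4]
    group
  refine ⟨nn N m * (nn N m')⁻¹, ?_, ?_⟩
  · rw [mem_stN, e4, mul_smul, e2, smul_inv_smul]
  · rw [e4, ← c.inv (m * m'⁻¹)⁻¹, inv_mul_cancel]
    have : (m * m'⁻¹)⁻¹ * m = m' := by group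
    rw [this, e3]
    exact h1

/-- subgroups of `N` which are quasiconvex in the group have quasiconvex orbits in `X` -/
theorem orbit_qc (c : Cx N X d δ) (v0 : V) (B : Subgroup N) {κ : ℕ}
    (hB : ∀ b ∈ B, ∀ m, d 1 m + d m (b : G) = d 1 (b : G) → ∃ b' ∈ B, d m (b' : G) ≤ κ) :
    ∃ κ', ∀ b ∈ B, ∀ p, H97R3.VR.Btw X (FM N v0 1) (b • FM N v0 1) p →
      ∃ b' ∈ B, X.dist p (b' • FM N v0 1) ≤ κ' := by
  obtain ⟨C, D, hq⟩ := c.quasi v0
  obtain ⟨R, hR⟩ := morse_b c.nm c.hyp C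
  obtain ⟨L, hL⟩ := c.lip' v0
  refine ⟨D + L * (R + κ), fun b hb p hp => ?_⟩
  have hFb : ∀ b : N, FM N v0 (b : G) = b • FM N v0 1 := by
    intro b
    have := FM_mul N v0 b 1
    rwa [mul_one] at this
  rw [← hFb] at hp
  obtain ⟨s, s0, s1, s2, hs⟩ := exists_geod' c.med hp
  obtain ⟨k, q, hQ, q0, q1, -, h1⟩ := hq _ s 1 b hs s0 s1
  have hple : X.dist (FM N v0 1) p ≤ X.dist (FM N v0 1) (FM N v0 (b : G)) := by
    unfold H97R3.VR.Btw at hp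
    omega
  obtain ⟨i, hi, h2⟩ := h1 _ hple
  rw [s2] at h2
  obtain ⟨z, hz1, hz2⟩ := hR k q hQ i hi
  rw [q0, q1] at hz1
  obtain ⟨b', hb', h3⟩ := hB b hb z hz1
  refine ⟨b', hb', ?_⟩
  rw [← hFb]
  have h4 := hL (q i) (b' : G)
  have h5 := c.nm.tri (q i) z (b' : G)
  have h6 := c.nm.symm (q i) z
  have h7 : X.dist p (FM N v0 (b' : G)) ≤ X.dist p (FM N v0 (q i)) +
      X.dist (FM N v0 (q i)) (FM N v0 (b' : G)) := c.med.conn.dist_triangle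
  have h8 : X.dist p (FM N v0 (q i)) = X.dist (FM N v0 (q i)) p := SimpleGraph.dist_comm
  have h9 : d (q i) (b' : G) ≤ R + κ := by omega
  have h10 := Nat.mul_le_mul_left L h9
  omega

end Pool.Agent.TH97.VR
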