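import Pool.Agent.TH97.VR.Orbit
import Pool.Agent.TH97.VR.Dual

/-!
# The half spaces of the group
-/

set_option autoImplicit false

namespace Pool.Agent.TH97.VR

open Pool.Agent.H97R3.VR
open Pointwise

variable {G V : Type} [Group G] {N : Subgroup G} [MulAction N V] {X : SimpleGraph V}
  {d : G → G → ℕ} {δ : ℕ}

/-- the trace of a half space `W` of `X`, translated by `g` -/
def tr (N : Subgroup G) [MulAction N V] (v0 : V) (g : G) (W : Set V) : Set G :=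
  {x | FM N v0 (g⁻¹ * x) ∈ W}

theorem mem_tr {v0 : V} {g : G} {W : Set V} {x : G} :
    x ∈ tr N v0 g W ↔ FM N v0 (g⁻¹ * x) ∈ W := Iff.rfl

/-- the half spaces of the group: all nontrivial translates of traces -/
def HF (N : Subgroup G) [MulAction N V] (X : SimpleGraph V) (v0 : V) : Set (Set G) :=
  {h | h.Nonempty ∧ hᶜ.Nonempty ∧ ∃ g : G, ∃ W ∈ walls X, h = tr N v0 g W}

theorem smul_tr (v0 : V) (a g : G) (W : Set V) : a • tr N v0 g W = tr N v0 (a * g) W := by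
  ext x
  rw [Set.mem_smul_set_iff_inv_smul_mem, mem_tr, mem_tr, smul_eq_mul, mul_inv_rev, mul_assoc]

theorem tr_mul (v0 : V) (g : G) (n : N) (W : Set V) :
    tr N v0 (g * n) W = tr N v0 g (n • W) := by
  ext x
  rw [mem_tr, mem_tr, Set.mem_smul_set_iff_inv_smul_mem]
  have : (g * (n : G))⁻¹ * x = ((n⁻¹ : N) : G) * (g⁻¹ * x) := by
    rw [Subgroup.coe_inv]; group
  rw [this, FM_mul]

theorem tr_compl (v0 : V) (g : G) (W : Set V) : (tr N v0 g W)ᶜ = tr N v0 g Wᶜ := rfl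

theorem smul_mem_HF {v0 : V} {h : Set G} (hh : h ∈ HF N X v0) (a : G) : a • h ∈ HF N X v0 := by
  obtain ⟨h1, h2, g, W, hW, rfl⟩ := hh
  refine ⟨h1.smul_set, ?_, a * g, W, hW, smul_tr v0 a g W⟩
  rw [← Set.smul_set_compl]
  exact h2.smul_set

/-- a translate may be taken by one of finitely many elements -/
theorem tr_reps (c : Cx N X d δ) (v0 : V) (g : G) {W : Set V} (hW : W ∈ walls X) :
    ∃ W' ∈ walls X, tr N v0 g W = tr N v0 (tt N g⁻¹)⁻¹ W' := by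
  refine ⟨(nn N g⁻¹)⁻¹ • W, smul_mem_walls c.med c.act _ hW, ?_⟩
  rw [← tr_mul]
  congr 1
  have h := nn_tt N g⁻¹
  rw [Subgroup.coe_inv, ← mul_inv_rev, h, inv_inv]

theorem HF_fin (c : Cx N X d δ) (v0 : V) (a b : G) :
    {h | h ∈ HF N X v0 ∧ a ∈ h ∧ b ∉ h}.Finite := by
  have hT := tt_finite N c.idx
  refine (Set.Finite.biUnion hT (t := fun t => (fun W => tr N v0 t⁻¹ W) ''
    {W | W ∈ walls X ∧ FM N v0 (t * a) ∈ W ∧ FM N v0 (t * b) ∉ W})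
    fun t _ => (walls_sep c.med _ _).1.image _).subset ?_
  rintro h ⟨⟨-, -, g, W, hW, rfl⟩, h1, h2⟩
  obtain ⟨W', hW', e⟩ := tr_reps c v0 g hW
  rw [e] at h1 h2 ⊢
  rw [mem_tr, inv_inv] at h1 h2
  exact Set.mem_biUnion ⟨g⁻¹, rfl⟩ ⟨W', ⟨hW', h1, h2⟩, rfl⟩

theorem HF_sys (c : Cx N X d δ) (v0 : V) : HSys (HF N X v0) := by
  refine ⟨?_, fun h hh => hh.1, HF_fin c v0⟩
  rintro h ⟨h1, h2, g, W, hW, rfl⟩
  refine ⟨h2, by rw [compl_compl]; exact h1, g, Wᶜ, walls_compl c.med hW, rfl⟩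

/-- only finitely many half spaces have their boundary near the unit -/
theorem HF_loc (c : Cx N X d δ) (v0 : V) (R : ℕ) :
    {h | h ∈ HF N X v0 ∧ (∃ a ∈ h, d 1 a ≤ R) ∧ ∃ b ∉ h, d 1 b ≤ R}.Finite := by
  refine (Set.Finite.biUnion (c.fin R) (t := fun a => ⋃ b ∈ {g | d 1 g ≤ R},
    {h | h ∈ HF N X v0 ∧ a ∈ h ∧ b ∉ h}) fun a _ => Set.Finite.biUnion (c.fin R)
      fun b _ => HF_fin c v0 a b).subset ?_
  rintro h ⟨hh, ⟨a, ha, ha'⟩, b, hb, hb'⟩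
  exact Set.mem_biUnion (show a ∈ {g | d 1 g ≤ R} from ha')
    (Set.mem_biUnion (show b ∈ {g | d 1 g ≤ R} from hb') ⟨hh, ha, hb⟩)

/-- adjacent elements on the two sides of a set -/
theorem exists_adj (c : Cx N X d δ) {h : Set G} (h1 : h.Nonempty) (h2 : hᶜ.Nonempty) :
    ∃ a ∈ h, ∃ b ∉ h, d a b ≤ 1 := by
  obtain ⟨a, ha⟩ := h1
  obtain ⟨b, hb⟩ := h2
  obtain ⟨n, hn⟩ : ∃ n, d a b = n := ⟨_, rfl⟩
  induction n generalizing b with
  | zero =>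
    obtain rfl := c.nm.eq _ _ hn
    exact absurd ha hb
  | succ n ih =>
    obtain ⟨z, hz1, hz2⟩ := c.nm.geo a b n (by omega)
    by_cases hz : z ∈ h
    · exact ⟨z, hz, b, hb, by omega⟩
    · exact ih z hz hz1

/-- at most `C` half spaces of `X` have a given nontrivial trace -/
theorem fiber (c : Cx N X d δ) (v0 : V) : ∃ C, ∀ h : Set G, h.Nonempty → hᶜ.Nonempty →
    {W | W ∈ walls X ∧ tr N v0 1 W = h}.Finite ∧ {W | W ∈ walls X ∧ tr N v0 1 W = h}.ncard ≤ C := by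
  obtain ⟨C, hC⟩ := c.lip v0 1
  refine ⟨C, fun h h1 h2 => ?_⟩
  obtain ⟨a, ha, b, hb, hab⟩ := exists_adj c h1 h2
  have hs : {W | W ∈ walls X ∧ tr N v0 1 W = h} ⊆
      {W | W ∈ walls X ∧ FM N v0 a ∈ W ∧ FM N v0 b ∉ W} := by
    rintro W ⟨hW, rfl⟩
    rw [mem_tr, inv_one, one_mul] at ha hb
    exact ⟨hW, ha, hb⟩
  obtain ⟨f1, f2⟩ := walls_sep c.med (FM N v0 a) (FM N v0 b)
  refine ⟨f1.subset hs, (Set.ncard_le_ncard hs f1).trans ?_⟩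
  rw [f2]
  exact hC a b hab

theorem count (c : Cx N X d δ) (v0 : V) : ∃ C, ∀ (𝒲 : Set (Set V)) (𝒯 : Set (Set G)),
    𝒲 ⊆ walls X → 𝒯.Finite → (∀ h ∈ 𝒯, h.Nonempty ∧ hᶜ.Nonempty) →
    (∀ W ∈ 𝒲, tr N v0 1 W ∈ 𝒯) → 𝒲.Finite → 𝒲.ncard ≤ C * 𝒯.ncard := by
  classical
  obtain ⟨C, hC⟩ := fiber c v0
  refine ⟨C, fun 𝒲 𝒯 hW hT hne hmap hWf => ?_⟩
  have h1 := Finset.card_le_mul_card_image_of_maps_to (s := hWf.toFinset) (t := hT.toFinset)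
    (f := fun W => tr N v0 1 W) (fun W hW' => by
      rw [Set.Finite.mem_toFinset] at hW' ⊢
      exact hmap W hW') C (fun h hh => by
      rw [Set.Finite.mem_toFinset] at hh
      obtain ⟨f1, f2⟩ := hC h (hne h hh).1 (hne h hh).2
      rw [← Set.ncard_coe_finset]
      refine (Set.ncard_le_ncard ?_ f1).trans f2
      intro W hW'
      rw [Finset.mem_coe, Finset.mem_filter, Set.Finite.mem_toFinset] at hW'
      exact ⟨hW hW'.1, hW'.2⟩)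
  rw [← Set.ncard_eq_toFinset_card _ hWf, ← Set.ncard_eq_toFinset_card _ hT] at h1
  exact h1

/-- number of half spaces which do not contain `g` but come near `g` -/
theorem near_bdd (c : Cx N X d δ) (v0 : V) (R : ℕ) : ∃ M, ∀ g : G,
    {h | h ∈ HF N X v0 ∧ g ∉ h ∧ ∃ b ∈ h, d g b ≤ R}.Finite ∧
    {h | h ∈ HF N X v0 ∧ g ∉ h ∧ ∃ b ∈ h, d g b ≤ R}.ncard ≤ M := by
  have h0 := HF_loc c v0 R
  refine ⟨{h | h ∈ HF N X v0 ∧ (∃ a ∈ h, d 1 a ≤ R) ∧ ∃ b ∉ h, d 1 b ≤ R}.ncard, fun g => ?_⟩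
  have hs : {h | h ∈ HF N X v0 ∧ g ∉ h ∧ ∃ b ∈ h, d g b ≤ R} ⊆ (fun h => g • h) ''
      {h | h ∈ HF N X v0 ∧ (∃ a ∈ h, d 1 a ≤ R) ∧ ∃ b ∉ h, d 1 b ≤ R} := by
    rintro h ⟨h1, h2, b, hb, hb'⟩
    refine ⟨g⁻¹ • h, ⟨smul_mem_HF h1 _, ⟨g⁻¹ * b, ?_, ?_⟩, 1, ?_, ?_⟩, ?_⟩
    · rw [Set.mem_smul_set_iff_inv_smul_mem, inv_inv, smul_eq_mul, mul_inv_cancel_left]
      exact hb
    · rw [← c.inv g, mul_one, mul_inv_cancel_left]
      exact hb'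
    · rw [Set.mem_smul_set_iff_inv_smul_mem, inv_inv, smul_eq_mul, mul_one]
      exact h2
    · rw [c.nm.self]
      exact Nat.zero_le _
    · show g • g⁻¹ • h = h
      rw [smul_inv_smul]
  refine ⟨(h0.image _).subset hs, ?_⟩
  exact (Set.ncard_le_ncard hs (h0.image _)).trans (Set.ncard_image_le h0)

end Pool.Agent.TH97.VR
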