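import Pool.Agent.TH97.VR.Walls
import Pool.Agent.TH97.VR.Coarse

/-!
# The coarse orbit map from the group to the median graph
-/

set_option autoImplicit false

namespace Pool.Agent.TH97.VR

open Pool.Agent.H97R3.VR

/-- the standing assumptions: `d` is a proper left invariant hyperbolic integer metric on `G` with
geodesics, the finite index subgroup `N` acts freely and cocompactly on the median graph `X` -/
structure Cx {G V : Type} [Group G] (N : Subgroup G) [MulAction N V] (X : SimpleGraph V)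
    (d : G → G → ℕ) (δ : ℕ) : Prop where
  nm : NM d
  inv : ∀ g x y, d (g * x) (g * y) = d x y
  fin : ∀ n, {g | d 1 g ≤ n}.Finite
  hyp : H4 d δ
  med : IsMedian X
  loc : ∀ v, (X.neighborSet v).Finite
  act : ∀ (n : N) (x y : V), X.Adj x y → X.Adj (n • x) (n • y)
  free : ∀ (n : N) (x : V), n • x = x → n = 1
  coc : ∃ T : Set V, T.Finite ∧ ∀ v, ∃ n : N, n • v ∈ T
  idx : N.FiniteIndex

section reps

variable {G : Type} [Group G] (N : Subgroup G)

/-- representatives of the cosets `N g` -/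
noncomputable def tt (g : G) : G := (Quotient.mk (QuotientGroup.rightRel N) g).out

theorem tt_spec (g : G) : g * (tt N g)⁻¹ ∈ N := by
  have h : (QuotientGroup.rightRel N).r (tt N g) g := Quotient.mk_out (s := QuotientGroup.rightRel N) g
  exact QuotientGroup.rightRel_apply.1 h

theorem tt_mul {n : G} (hn : n ∈ N) (g : G) : tt N (n * g) = tt N g := by
  unfold tt
  congr 1
  refine Quotient.sound ?_
  refine QuotientGroup.rightRel_apply.2 ?_
  have : g * (n * g)⁻¹ = n⁻¹ := by group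
  rw [this]
  exact N.inv_mem hn

theorem tt_finite (h : N.FiniteIndex) : (Set.range (tt N)).Finite := by
  have h1 : Finite (G ⧸ N) := Subgroup.finite_quotient_of_finiteIndex
  have h2 : Finite (Quotient (QuotientGroup.rightRel N)) :=
    Finite.of_equiv _ (QuotientGroup.quotientRightRelEquivQuotientLeftRel N).symm
  refine (Set.finite_range (fun q : Quotient (QuotientGroup.rightRel N) => q.out)).subset ?_
  rintro _ ⟨g, rfl⟩
  exact ⟨_, rfl⟩

/-- the `N` part of an element -/
noncomputable def nn (g : G) : N := ⟨g * (tt N g)⁻¹, tt_spec N g⟩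

theorem nn_mul (n : N) (g : G) : nn N ((n : G) * g) = n * nn N g := by
  apply Subtype.ext
  show (n : G) * g * (tt N ((n : G) * g))⁻¹ = (n : G) * (g * (tt N g)⁻¹)
  rw [tt_mul N n.2, mul_assoc]

theorem nn_tt (g : G) : (nn N g : G) * tt N g = g := by
  show g * (tt N g)⁻¹ * tt N g = g
  rw [inv_mul_cancel_right]

variable {V : Type} [MulAction N V]

/-- the coarse orbit map -/
noncomputable def FM (v0 : V) (g : G) : V := nn N g • v0

theorem FM_mul (v0 : V) (n : N) (g : G) : FM N v0 ((n : G) * g) = n • FM N v0 g := by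
  unfold FM
  rw [nn_mul, mul_smul]

end reps

section bounds

variable {G V : Type} [Group G] {N : Subgroup G} [MulAction N V] {X : SimpleGraph V}
  {d : G → G → ℕ} {δ : ℕ}

theorem Cx.dsm (c : Cx N X d δ) (n : N) (x y : V) : X.dist (n • x) (n • y) = X.dist x y :=
  dist_smul c.med.conn c.act n x y

theorem Cx.ball (c : Cx N X d δ) (a : G) (n : ℕ) : {g | d a g ≤ n}.Finite := by
  refine ((c.fin n).image (fun g => a * g)).subset ?_
  intro g hg
  refine ⟨a⁻¹ * g, ?_, mul_inv_cancel_left a g⟩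
  show d 1 (a⁻¹ * g) ≤ n
  rw [← c.inv a, mul_one, mul_inv_cancel_left]
  exact hg

theorem bdd_of_finite {β : Type} {A : Set β} (hA : A.Finite) (f : β → ℕ) :
    ∃ C, ∀ a ∈ A, f a ≤ C := by
  obtain ⟨C, hC⟩ := (hA.image f).bddAbove
  exact ⟨C, fun a ha => hC ⟨a, ha, rfl⟩⟩

/-- invariant functions are bounded on pairs of bounded distance -/
theorem Cx.bdd (c : Cx N X d δ) (f : G → G → ℕ)
    (hf : ∀ (n : N) (a b : G), f ((n : G) * a) ((n : G) * b) = f a b) (R : ℕ) :
    ∃ C, ∀ a b, d a b ≤ R → f a b ≤ C := by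
  obtain ⟨C, hC⟩ := bdd_of_finite ((tt_finite N c.idx).prod (c.fin R))
    (fun p : G × G => f p.1 (p.1 * p.2))
  refine ⟨C, fun a b hab => ?_⟩
  have h1 := hC (tt N a, (tt N a)⁻¹ * ((nn N a : G)⁻¹ * b)) ⟨⟨a, rfl⟩, by
    show d 1 ((tt N a)⁻¹ * ((nn N a : G)⁻¹ * b)) ≤ R
    rw [← c.inv (tt N a), mul_one, mul_inv_cancel_left, ← c.inv (nn N a), nn_tt,
      mul_inv_cancel_left]
    exact hab⟩
  have h2 : f (tt N a) (tt N a * ((tt N a)⁻¹ * ((nn N a : G)⁻¹ * b))) ≤ C := h1
  rw [mul_inv_cancel_left, ← hf (nn N a), nn_tt, mul_inv_cancel_left] at h2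
  exact h2

theorem Cx.lip (c : Cx N X d δ) (v0 : V) (R : ℕ) :
    ∃ C, ∀ a b, d a b ≤ R → X.dist (FM N v0 a) (FM N v0 b) ≤ C := by
  refine c.bdd (fun a b => X.dist (FM N v0 a) (FM N v0 b)) ?_ R
  intro n a b
  show X.dist (FM N v0 ((n : G) * a)) (FM N v0 ((n : G) * b)) = _
  rw [FM_mul, FM_mul, c.dsm]

theorem Cx.stab_fin (c : Cx N X d δ) (v0 : V) (R : ℕ) : {n : N | X.dist v0 (n • v0) ≤ R}.Finite := by
  refine Set.Finite.of_finite_image (f := fun n : N => n • v0) ?_ ?_
  · refine (ball_finite c.med.conn c.loc v0 R).subset ?_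
    rintro _ ⟨n, hn, rfl⟩
    exact hn
  · intro n _ m _ h
    have h1 : n • v0 = m • v0 := h
    have h2 : (m⁻¹ * n) • v0 = v0 := by rw [mul_smul, h1, inv_smul_smul]
    exact (inv_mul_eq_one.1 (c.free _ _ h2)).symm

theorem Cx.proper (c : Cx N X d δ) (v0 : V) (R : ℕ) :
    ∃ C, ∀ a b, X.dist (FM N v0 a) (FM N v0 b) ≤ R → d a b ≤ C := by
  obtain ⟨C, hC⟩ := bdd_of_finite
    (((tt_finite N c.idx).prod (tt_finite N c.idx)).prod (c.stab_fin v0 R))
    (fun p : (G × G) × N => d p.1.1 ((p.2 : G) * p.1.2))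
  refine ⟨C, fun a b hab => ?_⟩
  have h1 := hC ((tt N a, tt N b), (nn N a)⁻¹ * nn N b) ⟨⟨⟨a, rfl⟩, ⟨b, rfl⟩⟩, by
    show X.dist v0 (((nn N a)⁻¹ * nn N b) • v0) ≤ R
    rw [← c.dsm (nn N a), mul_smul, smul_inv_smul]
    exact hab⟩
  have h2 : d (tt N a) ((((nn N a)⁻¹ * nn N b : N) : G) * tt N b) ≤ C := h1
  have h3 : (nn N a : G) * ((((nn N a)⁻¹ * nn N b : N) : G) * tt N b) = b := by
    rw [Subgroup.coe_mul, Subgroup.coe_inv, mul_assoc, nn_tt, mul_inv_cancel_left]
  rw [← c.inv (nn N a), nn_tt, h3] at h2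
  exact h2

theorem Cx.dense (c : Cx N X d δ) (v0 : V) : ∃ D, ∀ v, ∃ g, X.dist (FM N v0 g) v ≤ D := by
  obtain ⟨T, hT, hcov⟩ := c.coc
  obtain ⟨D, hD⟩ := bdd_of_finite hT (fun v => X.dist (FM N v0 1) v)
  refine ⟨D, fun v => ?_⟩
  obtain ⟨n, hn⟩ := hcov v
  refine ⟨((n⁻¹ : N) : G) * 1, ?_⟩
  rw [FM_mul, ← c.dsm n, smul_inv_smul]
  exact hD _ hn

theorem Cx.lip' (c : Cx N X d δ) (v0 : V) :
    ∃ C, ∀ a b, X.dist (FM N v0 a) (FM N v0 b) ≤ C * d a b := by
  obtain ⟨C, hC⟩ := c.lip v0 1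
  refine ⟨C, fun a b => ?_⟩
  obtain ⟨n, hn⟩ : ∃ n, d a b = n := ⟨_, rfl⟩
  induction n generalizing b with
  | zero =>
    obtain rfl := c.nm.eq _ _ hn
    rw [SimpleGraph.dist_self]
    exact Nat.zero_le _
  | succ n ih =>
    obtain ⟨z, h1, h2⟩ := c.nm.geo a b n (by omega)
    have h3 := ih z h1
    have h4 := hC z b (by omega)
    have h5 : X.dist (FM N v0 a) (FM N v0 b) ≤ X.dist (FM N v0 a) (FM N v0 z) +
      X.dist (FM N v0 z) (FM N v0 b) := c.med.conn.dist_triangle
    rw [h1] at h3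
    rw [hn, mul_add, mul_one]
    omega

/-- geodesics of the median graph give quasi-geodesics of the group -/
theorem Cx.quasi (c : Cx N X d δ) (v0 : V) : ∃ C D : ℕ, ∀ (r : ℕ) (p : ℕ → V) (a b : G),
    (∀ i j, i ≤ j → j ≤ r → i + X.dist (p i) (p j) = j) → p 0 = FM N v0 a → p r = FM N v0 b →
    ∃ (k : ℕ) (q : ℕ → G), QG d C k q ∧ q 0 = a ∧ q k = b ∧
      (∀ i ≤ k, ∃ j ≤ r, X.dist (FM N v0 (q i)) (p j) ≤ D) ∧
      (∀ j ≤ r, ∃ i ≤ k, X.dist (FM N v0 (q i)) (p j) ≤ D) := by
  obtain ⟨D, hD⟩ := c.dense v0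
  obtain ⟨E, hE⟩ := c.proper v0 (2 * D + 1)
  obtain ⟨L, hL⟩ := c.lip' v0
  refine ⟨E + L + (2 * D + 1), D, ?_⟩
  intro r p a b hp h0 hr
  choose f hf using hD
  set q : ℕ → G := fun i => if i = 0 then a else if i = r + 1 then b else f (p i) with hq
  have q0 : q 0 = a := if_pos rfl
  have qk : q (r + 1) = b := by
    show (if r + 1 = 0 then a else if r + 1 = r + 1 then b else f (p (r + 1))) = b
    rw [if_neg (by omega), if_pos rfl]
  have hqd : ∀ i ≤ r + 1, X.dist (FM N v0 (q i)) (p (min i r)) ≤ D := by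
    intro i hi
    by_cases e0 : i = 0
    · subst e0
      rw [q0, Nat.zero_min, h0, SimpleGraph.dist_self]
      exact Nat.zero_le _
    · by_cases e1 : i = r + 1
      · subst e1
        rw [qk, min_eq_right (by omega), hr, SimpleGraph.dist_self]
        exact Nat.zero_le _
      · have e2 : q i = f (p i) := by
          show (if i = 0 then a else if i = r + 1 then b else f (p i)) = f (p i)
          rw [if_neg e0, if_neg e1]
        rw [e2, min_eq_left (by omega)]
        exact hf _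
  have tri : ∀ x y z, X.dist x z ≤ X.dist x y + X.dist y z := fun x y z =>
    c.med.conn.dist_triangle
  refine ⟨r + 1, q, ⟨?_, ?_⟩, q0, qk, ?_, ?_⟩
  · intro i hi
    have h1 := hqd i (by omega)
    have h2 := hqd (i + 1) (by omega)
    have h3 := hp (min i r) (min (i + 1) r) (by omega) (by omega)
    have h4 := tri (FM N v0 (q i)) (p (min i r)) (FM N v0 (q (i + 1)))
    have h5 := tri (p (min i r)) (p (min (i + 1) r)) (FM N v0 (q (i + 1)))
    have h6 : X.dist (p (min (i + 1) r)) (FM N v0 (q (i + 1))) =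
      X.dist (FM N v0 (q (i + 1))) (p (min (i + 1) r)) := SimpleGraph.dist_comm
    have h7 := hE (q i) (q (i + 1)) (by omega)
    omega
  · intro i j hij hj
    have h1 := hqd i (by omega)
    have h2 := hqd j (by omega)
    have h3 := hp (min i r) (min j r) (by omega) (by omega)
    have h4 := tri (p (min i r)) (FM N v0 (q i)) (p (min j r))
    have h5 := tri (FM N v0 (q i)) (FM N v0 (q j)) (p (min j r))
    have h6 : X.dist (p (min i r)) (FM N v0 (q i)) =
      X.dist (FM N v0 (q i)) (p (min i r)) := SimpleGraph.dist_comm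
    have h7 := hL (q i) (q j)
    have h8 : (E + L + (2 * D + 1)) * d (q i) (q j) =
      L * d (q i) (q j) + (E + (2 * D + 1)) * d (q i) (q j) := by ring
    omega
  · intro i hi
    exact ⟨min i r, min_le_right _ _, hqd i hi⟩
  · intro j hj
    have h1 := hqd j (by omega)
    rw [min_eq_left hj] at h1
    exact ⟨j, by omega, h1⟩

/-- geodesic sequences -/
theorem exists_geod (hX : IsMedian X) (u v : V) : ∃ p : ℕ → V, p 0 = u ∧ p (X.dist u v) = v ∧
    ∀ i j, i ≤ j → j ≤ X.dist u v → i + X.dist (p i) (p j) = j := by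
  obtain ⟨r, hr⟩ : ∃ r, X.dist v u = r := ⟨_, rfl⟩
  have hr' : X.dist u v = r := by rw [SimpleGraph.dist_comm]; exact hr
  rw [hr']
  refine ⟨gp X v u, rfl, ?_, ?_⟩
  · have h1 := gp_dist hX hr r le_rfl
    have h2 : X.dist v (gp X v u r) = 0 := by omega
    exact (hX.conn.dist_eq_zero_iff.1 h2).symm
  · intro i j hij hj
    obtain ⟨k, rfl⟩ := Nat.exists_eq_add_of_le hij
    rw [gp_eq hX hr i k hj]

/-- geodesic sequences through a given point -/
theorem exists_geod' (hX : IsMedian X) {u v m : V} (hm : H97R3.VR.Btw X u v m) :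
    ∃ p : ℕ → V, p 0 = u ∧ p (X.dist u v) = v ∧ p (X.dist u m) = m ∧
    ∀ i j, i ≤ j → j ≤ X.dist u v → i + X.dist (p i) (p j) = j := by
  obtain ⟨p, p0, p1, hp⟩ := exists_geod hX u m
  obtain ⟨q, q0, q1, hq⟩ := exists_geod hX m v
  unfold H97R3.VR.Btw at hm
  have tri : ∀ x y z, X.dist x z ≤ X.dist x y + X.dist y z := fun x y z =>
    hX.conn.dist_triangle
  set s : ℕ → V := fun i => if i ≤ X.dist u m then p i else q (i - X.dist u m) with hs
  have s1 : ∀ i, i ≤ X.dist u m → s i = p i := fun i hi => if_pos hi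
  have s2 : ∀ i, X.dist u m ≤ i → s i = q (i - X.dist u m) := by
    intro i hi
    by_cases h : i = X.dist u m
    · rw [s1 i (by omega), h, p1, Nat.sub_self, q0]
    · exact if_neg (by omega)
  refine ⟨s, ?_, ?_, ?_, ?_⟩
  · rw [s1 0 (Nat.zero_le _), p0]
  · rw [s2 _ (by omega)]
    have : X.dist u v - X.dist u m = X.dist m v := by omega
    rw [this, q1]
  · rw [s1 _ le_rfl, p1]
  · intro i j hij hj
    by_cases h1 : j ≤ X.dist u m
    · rw [s1 i (by omega), s1 j h1]
      exact hp i j hij h1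
    · by_cases h2 : X.dist u m ≤ i
      · rw [s2 i h2, s2 j (by omega)]
        have := hq (i - X.dist u m) (j - X.dist u m) (by omega) (by omega)
        omega
      · push Not at h1 h2
        rw [s1 i h2.le, s2 j h1.le]
        have a1 := hp i (X.dist u m) h2.le le_rfl
        have a2 := hq 0 (j - X.dist u m) (by omega) (by omega)
        have a3 := hp 0 i (by omega) h2.le
        have a4 := hq (j - X.dist u m) (X.dist m v) (by omega) le_rfl
        rw [p1] at a1
        rw [q0] at a2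
        rw [p0] at a3
        rw [q1] at a4
        have t1 := tri (p i) m (q (j - X.dist u m))
        have t2 := tri u (p i) v
        have t3 := tri (p i) (q (j - X.dist u m)) v
        omega

end bounds

end Pool.Agent.TH97.VR
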