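import Pool.Agent.TH97.VR.Fold
import Pool.Agent.TH97.VR.Geom

/-!
# Separation of walls from half spaces
-/

set_option autoImplicit false

namespace Pool.Agent.TH97.VR

open Pool.Agent.H97R3.VR
open Pointwise

/-- finitely many representatives -/
theorem finite_reps {A B : Type} (Q : Set A) (f : A → B → Prop) {P : Set B} (hP : P.Finite)
    (h : ∀ a ∈ Q, ∃ p ∈ P, f a p) : ∃ F : Set A, F ⊆ Q ∧ F.Finite ∧
      ∀ a ∈ Q, ∃ a' ∈ F, ∃ p, f a p ∧ f a' p := by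
  classical
  have h1 : ∀ p : B, ∃ F : Set A, F ⊆ Q ∧ F.Finite ∧ (∀ a ∈ Q, f a p → ∃ a' ∈ F, f a' p) := by
    intro p
    by_cases hp : ∃ a ∈ Q, f a p
    · obtain ⟨a, ha, hap⟩ := hp
      exact ⟨{a}, by simpa using ha, Set.finite_singleton a, fun _ _ _ => ⟨a, rfl, hap⟩⟩
    · exact ⟨∅, Set.empty_subset _, Set.finite_empty, fun a ha hap => absurd ⟨a, ha, hap⟩ hp⟩
  choose F hF1 hF2 hF3 using h1
  refine ⟨⋃ p ∈ P, F p, Set.iUnion₂_subset fun p _ => hF1 p, hP.biUnion fun p _ => hF2 p, ?_⟩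
  intro a ha
  obtain ⟨p, hp, hap⟩ := h a ha
  obtain ⟨a', ha', hap'⟩ := hF3 p a ha hap
  exact ⟨a', Set.mem_biUnion hp ha', p, hap, hap'⟩

section hull

variable {V M : Type} [Group M] [MulAction M V] {X : SimpleGraph V}

/-- the hull of finitely many quasiconvex orbits is cocompact -/
theorem hull_coc (hX : IsMedian X) (hloc : ∀ v, (X.neighborSet v).Finite)
    (hM : ∀ (g : M) (x y : V), X.Adj x y → X.Adj (g • x) (g • y)) (H : Subgroup M) (x0 : V) (κ : ℕ)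
    (hH : ∀ h ∈ H, ∀ m, H97R3.VR.Btw X x0 (h • x0) m → ∃ h' ∈ H, X.dist m (h' • x0) ≤ κ)
    {E : Set V} (hE : E.Finite) (hx0 : x0 ∈ E) :
    ∃ T : Set V, T.Finite ∧ ∀ v ∈ hull X {v | ∃ h ∈ H, ∃ e ∈ E, v = h • e}, ∃ h ∈ H, h • v ∈ T := by
  classical
  have hd := dist_smul hX.conn hM
  set S : Set V := {v | ∃ h ∈ H, ∃ e ∈ E, v = h • e} with hSdef
  have hSH : ∀ h ∈ H, ∀ s ∈ S, h • s ∈ S := by
    rintro h hh s ⟨k, hk, e, he, rfl⟩
    exact ⟨h * k, H.mul_mem hh hk, e, he, (mul_smul _ _ _).symm⟩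
  have tri : ∀ x y z, X.dist x z ≤ X.dist x y + X.dist y z := fun x y z => hX.conn.dist_triangle
  obtain ⟨r, hr⟩ := bdd_of_finite hE (fun e => X.dist x0 e)
  have hH' : ∀ h1 ∈ H, ∀ h2 ∈ H, ∀ m, H97R3.VR.Btw X (h1 • x0) (h2 • x0) m →
      ∃ h' ∈ H, X.dist m (h' • x0) ≤ κ := by
    intro h1 hh1 h2 hh2 m hm
    obtain ⟨h', hh', h3⟩ := hH (h1⁻¹ * h2) (H.mul_mem (H.inv_mem hh1) hh2) (h1⁻¹ • m) (by
      unfold H97R3.VR.Btw at hm ⊢
      rw [← hd h1 x0 (h1⁻¹ • m), ← hd h1 (h1⁻¹ • m), ← hd h1 x0, smul_inv_smul, mul_smul,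
        smul_inv_smul]
      exact hm)
    refine ⟨h1 * h', H.mul_mem hh1 hh', ?_⟩
    rw [← hd h1, smul_inv_smul] at h3
    rw [mul_smul]
    exact h3
  have hS : ∀ s ∈ S, ∀ s' ∈ S, ∀ m, H97R3.VR.Btw X s s' m → ∃ t ∈ S, X.dist m t ≤ κ + 2 * r := by
    rintro s ⟨h1, hh1, e1, he1, rfl⟩ s' ⟨h2, hh2, e2, he2, rfl⟩ m hm
    obtain ⟨μ, ⟨a1, a2, a3⟩, -⟩ := hX.med (h1 • x0) (h2 • x0) m
    obtain ⟨h', hh', h3⟩ := hH' h1 hh1 h2 hh2 μ a1
    refine ⟨h' • x0, ⟨h', hh', x0, hx0, rfl⟩, ?_⟩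
    unfold H97R3.VR.Btw at a1 a2 a3 hm
    have b1 : X.dist (h1 • x0) (h1 • e1) ≤ r := by rw [hd]; exact hr e1 he1
    have b2 : X.dist (h2 • x0) (h2 • e2) ≤ r := by rw [hd]; exact hr e2 he2
    have t1 := tri (h1 • x0) (h1 • e1) m
    have t2 := tri (h2 • x0) (h2 • e2) m
    have t3 := tri (h1 • e1) (h1 • x0) (h2 • e2)
    have t4 := tri (h1 • x0) (h2 • x0) (h2 • e2)
    have t5 := tri m μ (h' • x0)
    have c1 : X.dist (h1 • e1) (h1 • x0) = X.dist (h1 • x0) (h1 • e1) := SimpleGraph.dist_comm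
    have c2 : X.dist m (h2 • e2) = X.dist (h2 • e2) m := SimpleGraph.dist_comm
    have c3 : X.dist m μ = X.dist μ m := SimpleGraph.dist_comm
    have c4 : X.dist (h2 • x0) μ = X.dist μ (h2 • x0) := SimpleGraph.dist_comm
    omega
  have hinv : ∀ h ∈ H, ∀ v ∈ hull X S, h • v ∈ hull X S := by
    intro h hh v hv C hC hSC
    refine hv {u | h • u ∈ C} ?_ ?_
    · intro a ha b hb m hm
      refine hC _ ha _ hb _ ?_
      unfold H97R3.VR.Btw at hm ⊢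
      rw [hd, hd, hd]
      exact hm
    · intro s hs
      exact hSC (hSH h hh s hs)
  -- balls around the elements of `E`
  have hball : (⋃ e ∈ E, {u | X.dist e u ≤ κ + 2 * r}).Finite :=
    hE.biUnion fun e _ => ball_finite hX.conn hloc e _
  set B := hball.toFinset with hB
  refine ⟨⋃ e ∈ E, {u | X.dist e u ≤ B.card * B.card},
    hE.biUnion fun e _ => ball_finite hX.conn hloc e _, ?_⟩
  intro v hv
  obtain ⟨s0, hs0, hmin⟩ : ∃ s0 ∈ S, ∀ s ∈ S, X.dist v s0 ≤ X.dist v s := by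
    have hex : ∃ n, ∃ s ∈ S, X.dist v s = n :=
      ⟨_, x0, ⟨1, H.one_mem, x0, hx0, (one_smul _ _).symm⟩, rfl⟩
    obtain ⟨s0, hs0, h0⟩ := Nat.find_spec hex
    refine ⟨s0, hs0, fun s hs => ?_⟩
    rw [h0]
    exact Nat.find_min' hex ⟨s, hs, rfl⟩
  obtain ⟨h, hh, e, he, rfl⟩ := hs0
  refine ⟨h⁻¹, H.inv_mem hh, ?_⟩
  have h1 : X.dist (h⁻¹ • v) e ≤ B.card * B.card := by
    refine hull_near hX hS (hinv h⁻¹ (H.inv_mem hh) v hv)
      ⟨1, H.one_mem, e, he, (one_smul _ _).symm⟩ ?_ B ?_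
    · intro s hs
      rw [← hd h, smul_inv_smul, ← hd h (h⁻¹ • v) s, smul_inv_smul]
      exact hmin _ (hSH h hh s hs)
    · intro u hu
      exact hball.mem_toFinset.2 (Set.mem_biUnion he hu)
  refine Set.mem_biUnion he ?_
  show X.dist e (h⁻¹ • v) ≤ B.card * B.card
  rw [SimpleGraph.dist_comm]
  exact h1

/-- the finite index subgroup -/
theorem exists_K (hX : IsMedian X) (hloc : ∀ v, (X.neighborSet v).Finite)
    (hM : ∀ (g : M) (x y : V), X.Adj x y → X.Adj (g • x) (g • y))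
    (hsp : IsSpecialAction X (⊤ : Subgroup M)) (H : Subgroup M) (x0 : V) (κ : ℕ)
    (hH : ∀ h ∈ H, ∀ m, H97R3.VR.Btw X x0 (h • x0) m → ∃ h' ∈ H, X.dist m (h' • x0) ≤ κ)
    {𝓕 : Set (Set V)} (hF : 𝓕 ⊆ walls X) (hFf : 𝓕.Finite) :
    ∃ K : Subgroup M, K.FiniteIndex ∧ ∀ k ∈ K, ∀ W ∈ 𝓕, ∀ W' ∈ 𝓕, ∀ b' ∈ H,
      k • W = b' • W' → ∃ b ∈ H, b • W = b' • W' := by
  classical
  -- ends of the edges
  have hends : ∀ W : Set V, ∃ x y : V, W ∈ 𝓕 → X.Adj x y ∧ W = {u | Wh X x y u} := by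
    intro W
    by_cases hW : W ∈ 𝓕
    · obtain ⟨x, y, h1, h2⟩ := hF hW
      exact ⟨x, y, fun _ => ⟨h1, h2⟩⟩
    · exact ⟨x0, x0, fun h => absurd h hW⟩
  choose ex ey hxy using hends
  set E : Set V := {x0} ∪ (ex '' 𝓕 ∪ ey '' 𝓕) with hE
  have hEf : E.Finite := (Set.finite_singleton x0).union ((hFf.image _).union (hFf.image _))
  have hx0 : x0 ∈ E := Or.inl rfl
  obtain ⟨T, hT, hcov⟩ := hull_coc hX hloc hM H x0 κ hH hEf hx0
  set S : Set V := {v | ∃ h ∈ H, ∃ e ∈ E, v = h • e} with hS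
  have hd := dist_smul hX.conn hM
  have hSH : ∀ h ∈ H, ∀ s ∈ S, h • s ∈ S := by
    rintro h hh s ⟨k, hk, e, he, rfl⟩
    exact ⟨h * k, H.mul_mem hh hk, e, he, (mul_smul _ _ _).symm⟩
  have hinv : ∀ h ∈ H, ∀ v ∈ hull X S, h • v ∈ hull X S := by
    intro h hh v hv C hC hSC
    refine hv {u | h • u ∈ C} ?_ ?_
    · intro a ha b hb m hm
      refine hC _ ha _ hb _ ?_
      unfold H97R3.VR.Btw at hm ⊢
      rw [hd, hd, hd]
      exact hm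
    · intro s hs
      exact hSC (hSH h hh s hs)
  have D : Dat X (⊤ : Subgroup M) H (hull X S) := ⟨hX, hM, hsp, hull_convex S, hinv⟩
  have hc0 : x0 ∈ hull X S := subset_hull S ⟨1, H.one_mem, x0, hx0, (one_smul _ _).symm⟩
  refine ⟨D.K x0 hc0, D.finK x0 hc0 T hT hcov, ?_⟩
  intro k hk W hW W' hW' b' hb' heq
  obtain ⟨a1, a2⟩ := hxy W hW
  obtain ⟨a3, a4⟩ := hxy W' hW'
  have m1 : ex W ∈ hull X S := subset_hull S ⟨1, H.one_mem, _, Or.inr (Or.inl ⟨W, hW, rfl⟩),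
    (one_smul _ _).symm⟩
  have m2 : ey W ∈ hull X S := subset_hull S ⟨1, H.one_mem, _, Or.inr (Or.inr ⟨W, hW, rfl⟩),
    (one_smul _ _).symm⟩
  have m3 : b' • ex W' ∈ hull X S := subset_hull S ⟨b', hb', _, Or.inr (Or.inl ⟨W', hW', rfl⟩), rfl⟩
  have m4 : b' • ey W' ∈ hull X S := subset_hull S ⟨b', hb', _, Or.inr (Or.inr ⟨W', hW', rfl⟩), rfl⟩
  have e1 : ∀ g : M, g • W = {u | Wh X (g • ex W) (g • ey W) u} := fun g => by
    conv_lhs => rw [a2]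
    exact smul_wall hX hM g
  have e2 : b' • W' = {u | Wh X (b' • ex W') (b' • ey W') u} := by
    conv_lhs => rw [a4]
    exact smul_wall hX hM b'
  rw [e1, e2] at heq
  obtain ⟨b, hb, h1⟩ := wall_K D hc0 hk m1 m2 a1 m3 m4 (hM b' _ _ a3) heq
  refine ⟨b, hb, ?_⟩
  rw [e1, e2]
  exact h1

end hull

section sep

variable {G V : Type} [Group G] {N : Subgroup G} [MulAction N V] {X : SimpleGraph V}
  {d : G → G → ℕ} {δ : ℕ}

/-- crossing of subsets -/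
def Cross (h k : Set G) : Prop :=
  (h ∩ k).Nonempty ∧ (h ∩ kᶜ).Nonempty ∧ (hᶜ ∩ k).Nonempty ∧ (hᶜ ∩ kᶜ).Nonempty

theorem Cross.smul {h k : Set G} (hc : Cross h k) (g : G) : Cross (g • h) (g • k) := by
  obtain ⟨h1, h2, h3, h4⟩ := hc
  unfold Cross
  rw [← Set.smul_set_compl, ← Set.smul_set_compl, ← Set.smul_set_inter, ← Set.smul_set_inter,
    ← Set.smul_set_inter, ← Set.smul_set_inter]
  exact ⟨h1.smul_set, h2.smul_set, h3.smul_set, h4.smul_set⟩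

omit [Group G] in
theorem Cross.symm {h k : Set G} (hc : Cross h k) : Cross k h := by
  obtain ⟨h1, h2, h3, h4⟩ := hc
  refine ⟨by rwa [Set.inter_comm], by rwa [Set.inter_comm], by rwa [Set.inter_comm],
    by rwa [Set.inter_comm]⟩

omit [Group G] in
theorem Cross.compl_right {h k : Set G} (hc : Cross h k) : Cross h kᶜ := by
  obtain ⟨h1, h2, h3, h4⟩ := hc
  exact ⟨h2, by rwa [compl_compl], h4, by rwa [compl_compl]⟩

omit [Group G] in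
theorem Cross.compl_left {h k : Set G} (hc : Cross h k) : Cross hᶜ k := by
  obtain ⟨h1, h2, h3, h4⟩ := hc
  exact ⟨h3, h4, by rwa [compl_compl], by rwa [compl_compl]⟩

/-- finitely many walls up to the stabiliser of `𝔨` have trace equal to `𝔨` or crossing `𝔨` -/
theorem walls_near (c : Cx N X d δ) (v0 : V) {𝔨 : Set G} (hk : 𝔨 ∈ HF N X v0) :
    ∃ 𝓕 ⊆ walls X, 𝓕.Finite ∧ ∀ W ∈ walls X, (tr N v0 1 W = 𝔨 ∨ Cross (tr N v0 1 W) 𝔨) →
      ∃ W' ∈ 𝓕, ∃ b ∈ stN N 𝔨, W = b • W' := by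
  classical
  obtain ⟨R0, hR0⟩ := cross_near c v0
  obtain ⟨C, hC⟩ := fiber c v0
  set R := R0 + 1 with hR
  set Φ := {h | h ∈ HF N X v0 ∧ (∃ a ∈ h, d 1 a ≤ R) ∧ ∃ b ∉ h, d 1 b ≤ R} with hΦ
  have hΦf : Φ.Finite := HF_loc c v0 R
  -- possible pairs
  set P : Set (Set V × Set G) := ⋃ t ∈ Set.range (tt N), ⋃ φ ∈ Φ, ⋃ ψ ∈ Φ,
    (fun W => (W, t • ψ)) '' {W | W ∈ walls X ∧ tr N v0 1 W = t • φ} with hP
  have hPf : P.Finite := by
    refine Set.Finite.biUnion (tt_finite N c.idx) fun t _ => Set.Finite.biUnion hΦf fun φ hφ =>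
      Set.Finite.biUnion hΦf fun ψ _ => Set.Finite.image _ ?_
    have h1 := smul_mem_HF hφ.1 t
    exact (hC _ h1.1 h1.2.1).1
  set Q : Set (Set V × N) := {p | p.1 ∈ walls X ∧
    ((p.2⁻¹ • p.1 : Set V), ((p.2⁻¹ : N) : G) • 𝔨) ∈ P} with hQ
  obtain ⟨F, hF1, hF2, hF3⟩ := finite_reps Q
    (fun p q => ((p.2⁻¹ • p.1 : Set V), ((p.2⁻¹ : N) : G) • 𝔨) = q) hPf
    (fun p hp => ⟨_, hp.2, rfl⟩)
  refine ⟨Prod.fst '' F, ?_, hF2.image _, ?_⟩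
  · rintro _ ⟨p, hp, rfl⟩
    exact (hF1 hp).1
  · intro W hW hcase
    set h' := tr N v0 1 W with hh'
    -- a point near the boundaries of both half spaces
    obtain ⟨g, hhHF, g1, g2, g3, g4⟩ : ∃ g, h' ∈ HF N X v0 ∧ (∃ a ∈ h', d g a ≤ R) ∧
        (∃ a ∈ h'ᶜ, d g a ≤ R) ∧ (∃ a ∈ 𝔨, d g a ≤ R) ∧ (∃ a ∈ 𝔨ᶜ, d g a ≤ R) := by
      rcases hcase with he | hcr
      · rw [he]
        obtain ⟨a, ha, b, hb, hab⟩ := exists_adj c hk.1 hk.2.1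
        have e1 : ∃ x ∈ 𝔨, d a x ≤ R := ⟨a, ha, by rw [c.nm.self]; exact Nat.zero_le _⟩
        have e2 : ∃ x ∈ 𝔨ᶜ, d a x ≤ R := ⟨b, hb, by omega⟩
        exact ⟨a, hk, e1, e2, e1, e2⟩
      · have hH : h' ∈ HF N X v0 := by
          refine ⟨?_, ?_, 1, W, hW, rfl⟩
          · obtain ⟨⟨x, hx, -⟩, -⟩ := hcr
            exact ⟨x, hx⟩
          · obtain ⟨-, -, ⟨x, hx, -⟩, -⟩ := hcr
            exact ⟨x, hx⟩
        obtain ⟨g, ⟨a1, b1, c1⟩, ⟨a2, b2, c2⟩, ⟨a3, b3, c3⟩, a4, b4, c4⟩ :=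
          hR0 h' hH 𝔨 hk hcr.1 hcr.2.1 hcr.2.2.1 hcr.2.2.2
        exact ⟨g, hH, ⟨a1, b1, by omega⟩, ⟨a2, b2, by omega⟩, ⟨a3, b3, by omega⟩,
          a4, b4, by omega⟩
    have toΦ : ∀ A : Set G, A ∈ HF N X v0 → (∃ a ∈ A, d g a ≤ R) → (∃ a ∈ Aᶜ, d g a ≤ R) →
        g⁻¹ • A ∈ Φ := by
      rintro A hA ⟨x, hx, hx'⟩ ⟨y, hy, hy'⟩
      refine ⟨smul_mem_HF hA _, ⟨g⁻¹ * x, Set.smul_mem_smul_set hx, ?_⟩, g⁻¹ * y, ?_, ?_⟩
      · rw [← c.inv g, mul_one, mul_inv_cancel_left]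
        exact hx'
      · intro hc
        rw [Set.mem_smul_set_iff_inv_smul_mem, inv_inv, smul_eq_mul, mul_inv_cancel_left] at hc
        exact hy hc
      · rw [← c.inv g, mul_one, mul_inv_cancel_left]
        exact hy'
    have en : (((nn N g)⁻¹ : N) : G) = tt N g * g⁻¹ := by
      have h1 := nn_tt N g
      rw [Subgroup.coe_inv, inv_eq_iff_eq_inv, mul_inv_rev, inv_inv]
      rfl
    have etr : ∀ (n : N) (W : Set V), tr N v0 1 (n • W) = (n : G) • tr N v0 1 W := by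
      intro n W
      rw [smul_tr, mul_one, ← tr_mul, one_mul]
    have hQW : (W, nn N g) ∈ Q := by
      refine ⟨hW, Set.mem_biUnion ⟨g, rfl⟩ (Set.mem_biUnion (toΦ h' hhHF g1 g2)
        (Set.mem_biUnion (toΦ 𝔨 hk g3 g4) ⟨(nn N g)⁻¹ • W, ⟨smul_mem_walls c.med c.act _ hW, ?_⟩, ?_⟩))⟩
      · rw [etr, en, mul_smul]
      · show ((nn N g)⁻¹ • W, tt N g • g⁻¹ • 𝔨) = ((nn N g)⁻¹ • W, (((nn N g)⁻¹ : N) : G) • 𝔨)
        rw [en, mul_smul]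
    obtain ⟨⟨W', n'⟩, hW', q, hq1, hq2⟩ := hF3 _ hQW
    have h3 := hq1.trans hq2.symm
    have h4 : (nn N g)⁻¹ • W = n'⁻¹ • W' := congrArg Prod.fst h3
    have h5 : (((nn N g)⁻¹ : N) : G) • 𝔨 = ((n'⁻¹ : N) : G) • 𝔨 := congrArg Prod.snd h3
    refine ⟨W', ⟨_, hW', rfl⟩, nn N g * n'⁻¹, ?_, ?_⟩
    · rw [mem_stN, Subgroup.coe_mul, mul_smul, ← h5, ← mul_smul, ← Subgroup.coe_mul,
        mul_inv_cancel, Subgroup.coe_one, one_smul]
    · rw [mul_smul, ← h4, smul_inv_smul]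

/-- the separation property for the trace of a wall and a half space -/
theorem sep_tr (c : Cx N X d δ) (hsp : IsSpecialAction X (⊤ : Subgroup N)) (v0 : V) {W : Set V}
    (hW : W ∈ walls X) {𝔨 : Set G} (hk : 𝔨 ∈ HF N X v0) :
    ∃ K : Subgroup N, K.FiniteIndex ∧ ∀ n ∈ K, ((n : G) • 𝔨 = tr N v0 1 W → tr N v0 1 W = 𝔨) ∧
      (Cross (tr N v0 1 W) ((n : G) • 𝔨) → Cross (tr N v0 1 W) 𝔨) := by
  obtain ⟨𝓕, hF1, hF2, hF3⟩ := walls_near c v0 hk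
  obtain ⟨κ, hκ⟩ := stN_qc c v0 hk
  obtain ⟨κ', hκ'⟩ := orbit_qc c v0 (stN N 𝔨) hκ
  obtain ⟨K, hK1, hK2⟩ := exists_K c.med c.loc c.act hsp (stN N 𝔨) (FM N v0 1) κ' hκ'
    (𝓕 := insert W 𝓕) (Set.insert_subset hW hF1) (hF2.insert W)
  have etr : ∀ (n : N) (W : Set V), tr N v0 1 (n • W) = (n : G) • tr N v0 1 W := by
    intro n W
    rw [smul_tr, mul_one, ← tr_mul, one_mul]
  refine ⟨K, hK1, fun n hn => ?_⟩
  have key : (tr N v0 1 (n⁻¹ • W) = 𝔨 ∨ Cross (tr N v0 1 (n⁻¹ • W)) 𝔨) →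
      ∃ b ∈ stN N 𝔨, tr N v0 1 (n⁻¹ • W) = (b : G) • tr N v0 1 W := by
    intro h
    obtain ⟨W', hW', b, hb, e⟩ := hF3 _ (smul_mem_walls c.med c.act n⁻¹ hW) h
    obtain ⟨b', hb', e'⟩ := hK2 n⁻¹ (K.inv_mem hn) W (Set.mem_insert _ _) W'
      (Set.mem_insert_of_mem _ hW') b hb e
    refine ⟨b', hb', ?_⟩
    rw [← etr, e', ← e]
  constructor
  · intro h
    have h1 : tr N v0 1 (n⁻¹ • W) = 𝔨 := by
      rw [etr, ← h, Subgroup.coe_inv, inv_smul_smul]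
    obtain ⟨b, hb, e⟩ := key (Or.inl h1)
    have hb' : (b : G) • 𝔨 = 𝔨 := hb
    rw [h1] at e
    rw [← hb'] at e
    exact ((smul_left_cancel_iff _).1 e).symm
  · intro h
    have h1 : Cross (tr N v0 1 (n⁻¹ • W)) 𝔨 := by
      have := h.smul (n : G)⁻¹
      rwa [inv_smul_smul, ← Subgroup.coe_inv, ← etr] at this
    obtain ⟨b, hb, e⟩ := key (Or.inr h1)
    have hb' : (b : G) • 𝔨 = 𝔨 := hb
    rw [e, ← hb'] at h1
    have := h1.smul (b : G)⁻¹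
    rwa [inv_smul_smul, inv_smul_smul] at this

/-- the separation property for two half spaces -/
theorem sep (c : Cx N X d δ) (hsp : IsSpecialAction X (⊤ : Subgroup N)) (v0 : V) {𝔥 : Set G}
    (hh : 𝔥 ∈ HF N X v0) {𝔨 : Set G} (hk : 𝔨 ∈ HF N X v0) :
    ∃ K : Subgroup G, K.FiniteIndex ∧ ∀ n ∈ K, (n • 𝔨 = 𝔥 → 𝔥 = 𝔨) ∧
      (Cross 𝔥 (n • 𝔨) → Cross 𝔥 𝔨) := by
  obtain ⟨-, -, g, W, hW, rfl⟩ := hh
  obtain ⟨K, hK1, hK2⟩ := sep_tr c hsp v0 hW (smul_mem_HF hk g⁻¹)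
  have := c.idx
  have hfi : (K.map N.subtype).FiniteIndex := by
    constructor
    rw [Subgroup.index_map_subtype]
    exact mul_ne_zero hK1.index_ne_zero c.idx.index_ne_zero
  have e0 : tr N v0 g W = g • tr N v0 1 W := by rw [smul_tr, mul_one]
  refine ⟨(K.map N.subtype).comap (MulAut.conj g⁻¹).toMonoidHom, ?_, ?_⟩
  · constructor
    rw [Subgroup.index_comap_of_surjective _ (MulAut.conj g⁻¹).surjective]
    exact hfi.index_ne_zero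
  · rintro n ⟨m, hm, e⟩
    have e1 : (m : G) = g⁻¹ * n * g := by
      have : (m : G) = g⁻¹ * n * g⁻¹⁻¹ := e
      rwa [inv_inv] at this
    obtain ⟨h1, h2⟩ := hK2 m hm
    have e2 : (m : G) • g⁻¹ • 𝔨 = g⁻¹ • n • 𝔨 := by
      rw [e1, ← mul_smul, ← mul_smul]
      congr 1
      group
    rw [e2] at h1 h2
    rw [e0]
    constructor
    · intro h
      have h3 : tr N v0 1 W = g⁻¹ • 𝔨 := h1 (by rw [h, inv_smul_smul])
      rw [h3, smul_inv_smul]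
    · intro h
      have h3 : Cross (tr N v0 1 W) (g⁻¹ • n • 𝔨) := by
        have := h.smul g⁻¹
        rwa [inv_smul_smul] at this
      have := (h2 h3).smul g
      rwa [smul_inv_smul] at this

end sep

end Pool.Agent.TH97.VR
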