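import Pool.Agent.TH97.VR.Fin

/-!
# Quasiconvex subgroups of virtually compact special hyperbolic groups
-/

set_option autoImplicit false

namespace Pool.Agent.TH97.VR

open Pool.Agent.H97R3.VR

section defs

variable {G : Type} [Group G]

/-- the Cayley graph of `G` with respect to `S`: the edges join `x` and `x s` for `s` in `S` -/
def Cay (S : Set G) : SimpleGraph G where
  Adj x y := x ≠ y ∧ (x⁻¹ * y ∈ S ∨ y⁻¹ * x ∈ S)
  symm := ⟨fun _ _ h => ⟨h.1.symm, h.2.symm⟩⟩
  loopless := ⟨fun _ h => h.1 rfl⟩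

/-- `S` is a finite generating set of `G` -/
def IsFinGen (S : Set G) : Prop := S.Finite ∧ Subgroup.closure S = ⊤

/-- `H` is quasiconvex in `G`: for some finite generating set of `G`, the geodesics of the Cayley
graph between elements of `H` stay within bounded distance of `H` -/
def IsQuasiconvex (H : Subgroup G) : Prop :=
  ∃ S : Set G, IsFinGen S ∧ ∃ κ : ℕ, ∀ a ∈ H, ∀ b ∈ H, ∀ m : G,
    (Cay S).dist a m + (Cay S).dist m b = (Cay S).dist a b → ∃ h ∈ H, (Cay S).dist m h ≤ κ

/-- `G` is finitely generated and word-hyperbolic: for some finite generating set the word metric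
satisfies the four point condition of Gromov -/
def IsHyperbolic (G : Type) [Group G] : Prop :=
  ∃ S : Set G, IsFinGen S ∧ ∃ δ : ℕ, ∀ x y z w : G,
    (Cay S).dist x y + (Cay S).dist z w ≤ max ((Cay S).dist x z + (Cay S).dist y w)
      ((Cay S).dist x w + (Cay S).dist y z) + 2 * δ

/-- `N` is compact special: it acts freely and cocompactly by automorphisms on a locally finite
CAT(0) cube complex, given by its 1-skeleton, the median graph `X`, and the compact quotient is
special in the sense of Haglund and Wise -/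
def CompactSpecial (N : Type) [Group N] : Prop :=
  ∃ (V : Type) (_ : MulAction N V) (X : SimpleGraph V), IsMedian X ∧
    (∀ v : V, (X.neighborSet v).Finite) ∧
    (∀ (n : N) (x y : V), X.Adj x y → X.Adj (n • x) (n • y)) ∧
    IsCompactSpecial X (⊤ : Subgroup N)

/-- some finite index subgroup of `G` is compact special -/
def VirtuallyCompactSpecial (G : Type) [Group G] : Prop :=
  ∃ N : Subgroup G, N.FiniteIndex ∧ CompactSpecial N

end defs

section cay

variable {G : Type} [Group G] {S : Set G}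

theorem cay_reach (hS : Subgroup.closure S = ⊤) (x g : G) : (Cay S).Reachable x (x * g) := by
  have hg : g ∈ Subgroup.closure S := by rw [hS]; exact Subgroup.mem_top g
  induction hg using Subgroup.closure_induction generalizing x with
  | mem s hs =>
    by_cases h : x = x * s
    · rw [← h]
    · exact SimpleGraph.Adj.reachable (G := Cay S) ⟨h, Or.inl (by rw [inv_mul_cancel_left]; exact hs)⟩
  | one => rw [mul_one]
  | mul a b _ _ ha hb =>
    rw [← mul_assoc]
    exact (ha x).trans (hb _)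
  | inv a _ ha =>
    have h := ha (x * a⁻¹)
    rw [inv_mul_cancel_right] at h
    exact h.symm

theorem cay_conn (hS : IsFinGen S) : (Cay S).Connected := by
  have : Nonempty G := ⟨1⟩
  refine SimpleGraph.Connected.mk fun x y => ?_
  have h := cay_reach hS.2 x (x⁻¹ * y)
  rwa [mul_inv_cancel_left] at h

theorem cay_smul (g x y : G) (h : (Cay S).Adj x y) : (Cay S).Adj (g • x) (g • y) := by
  obtain ⟨h1, h2⟩ := h
  refine ⟨fun h => h1 (smul_left_cancel g h), ?_⟩
  simp only [smul_eq_mul, mul_inv_rev]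
  rw [mul_assoc, inv_mul_cancel_left, mul_assoc, inv_mul_cancel_left]
  exact h2

theorem cay_inv (hS : IsFinGen S) (g x y : G) :
    (Cay S).dist (g * x) (g * y) = (Cay S).dist x y :=
  dist_smul (cay_conn hS) (fun g x y h => cay_smul g x y h) g x y

theorem cay_loc (hS : IsFinGen S) (x : G) : ((Cay S).neighborSet x).Finite := by
  refine ((hS.1.image fun s => x * s).union (hS.1.image fun s => x * s⁻¹)).subset ?_
  intro y hy
  rcases hy.2 with h | h
  · exact Or.inl ⟨_, h, mul_inv_cancel_left x y⟩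
  · refine Or.inr ⟨_, h, ?_⟩
    show x * (y⁻¹ * x)⁻¹ = y
    group

/-- geodesic sequences in connected graphs -/
theorem conn_geod {V : Type} {X : SimpleGraph V} (hX : X.Connected) (u : V) (k : ℕ) :
    ∀ v, X.dist u v = k → ∃ q : ℕ → V, q 0 = u ∧ q k = v ∧
      ∀ i j, i ≤ j → j ≤ k → i + X.dist (q i) (q j) = j := by
  induction k with
  | zero =>
    intro v h
    refine ⟨fun _ => u, rfl, hX.dist_eq_zero_iff.1 h, ?_⟩
    intro i j h1 h2
    show i + X.dist u u = j
    rw [SimpleGraph.dist_self]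
    omega
  | succ k ih =>
    intro v h
    obtain ⟨w, h1, h2⟩ := exists_pred hX h
    obtain ⟨q, q0, q1, hq⟩ := ih w h2
    refine ⟨fun i => if i ≤ k then q i else v, ?_, ?_, ?_⟩
    · show (if 0 ≤ k then q 0 else v) = u
      rw [if_pos (Nat.zero_le _), q0]
    · show (if k + 1 ≤ k then q (k + 1) else v) = v
      rw [if_neg (by omega)]
    · intro i j hij hj
      show i + X.dist (if i ≤ k then q i else v) (if j ≤ k then q j else v) = j
      by_cases hjk : j ≤ k
      · rw [if_pos hjk, if_pos (by omega)]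
        exact hq i j hij hjk
      · rw [if_neg hjk]
        by_cases hik : i ≤ k
        · rw [if_pos hik]
          have a1 := hq i k hik le_rfl
          have a2 := hq 0 i (Nat.zero_le _) hik
          rw [q0] at a2
          rw [q1] at a1
          have t1 : X.dist (q i) v ≤ X.dist (q i) w + X.dist w v := hX.dist_triangle
          have t2 : X.dist u v ≤ X.dist u (q i) + X.dist (q i) v := hX.dist_triangle
          rw [adj_one h1] at t1
          omega
        · rw [if_neg hik, SimpleGraph.dist_self]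
          omega

theorem conn_nm {V : Type} {X : SimpleGraph V} (hX : X.Connected) :
    NM (fun x y => X.dist x y) where
  self x := SimpleGraph.dist_self
  eq x y h := hX.dist_eq_zero_iff.1 h
  symm x y := SimpleGraph.dist_comm
  tri x y z := hX.dist_triangle
  geo x y n hn := by
    obtain ⟨q, q0, q1, hq⟩ := conn_geod hX x _ y rfl
    have h1 := hq 0 n (Nat.zero_le _) hn
    have h2 := hq n _ hn le_rfl
    rw [q0] at h1
    rw [q1] at h2
    exact ⟨q n, by omega, by omega⟩

theorem cay_lip {S₁ S₂ : Set G} (h₁ : IsFinGen S₁) (h₂ : IsFinGen S₂) :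
    ∃ C, ∀ a b, (Cay S₁).dist a b ≤ C * (Cay S₂).dist a b := by
  obtain ⟨C, hC⟩ := bdd_of_finite h₂.1 (fun s => (Cay S₁).dist 1 s)
  refine ⟨C, fun a b => ?_⟩
  have hstep : ∀ x y, (Cay S₂).Adj x y → (Cay S₁).dist x y ≤ C := by
    intro x y h
    rcases h.2 with h | h
    · have := hC _ h
      have h3 : (Cay S₁).dist 1 (x⁻¹ * y) ≤ C := this
      rwa [← cay_inv h₁ x, mul_one, mul_inv_cancel_left] at h3
    · have := hC _ h
      have h3 : (Cay S₁).dist 1 (y⁻¹ * x) ≤ C := this
      rw [← cay_inv h₁ y, mul_one, mul_inv_cancel_left] at h3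
      rwa [SimpleGraph.dist_comm]
  obtain ⟨n, hn⟩ : ∃ n, (Cay S₂).dist a b = n := ⟨_, rfl⟩
  rw [hn]
  induction n generalizing b with
  | zero =>
    rw [(cay_conn h₂).dist_eq_zero_iff] at hn
    subst hn
    rw [SimpleGraph.dist_self]
    exact Nat.zero_le _
  | succ n ih =>
    obtain ⟨w, h1, h2⟩ := exists_pred (cay_conn h₂) hn
    have h3 := ih w h2
    have h4 := hstep w b h1
    have h5 : (Cay S₁).dist a b ≤ (Cay S₁).dist a w + (Cay S₁).dist w b :=
      (cay_conn h₁).dist_triangle
    rw [mul_add, mul_one]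
    omega

/-- quasiconvexity does not depend on the generating set -/
theorem qc_change {S₁ S₂ : Set G} (h₁ : IsFinGen S₁) (h₂ : IsFinGen S₂) {δ : ℕ}
    (hyp : H4 (fun x y => (Cay S₁).dist x y) δ) (H : Subgroup G) {κ : ℕ}
    (hH : ∀ a ∈ H, ∀ b ∈ H, ∀ m : G,
      (Cay S₂).dist a m + (Cay S₂).dist m b = (Cay S₂).dist a b → ∃ h ∈ H, (Cay S₂).dist m h ≤ κ) :
    ∃ κ' : ℕ, ∀ h ∈ H, ∀ m, (Cay S₁).dist 1 m + (Cay S₁).dist m h = (Cay S₁).dist 1 h →
      ∃ h' ∈ H, (Cay S₁).dist m h' ≤ κ' := by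
  obtain ⟨C1, hC1⟩ := cay_lip h₁ h₂
  obtain ⟨C2, hC2⟩ := cay_lip h₂ h₁
  obtain ⟨R, hR⟩ := morse_a (conn_nm (cay_conn h₁)) hyp (C1 + C2)
  refine ⟨R + C1 * κ, fun h hh m hm => ?_⟩
  obtain ⟨q, q0, q1, hq⟩ := conn_geod (cay_conn h₂) 1 _ h rfl
  have hQ : QG (fun x y => (Cay S₁).dist x y) (C1 + C2) ((Cay S₂).dist 1 h) q := by
    constructor
    · intro i hi
      show (Cay S₁).dist (q i) (q (i + 1)) ≤ C1 + C2
      have a1 := hq i (i + 1) (Nat.le_succ i) (by omega)
      have a2 := hC1 (q i) (q (i + 1))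
      have a3 : (Cay S₂).dist (q i) (q (i + 1)) = 1 := by omega
      rw [a3, mul_one] at a2
      omega
    · intro i j hij hj
      show j ≤ i + (C1 + C2) * (Cay S₁).dist (q i) (q j) + (C1 + C2)
      have a1 := hq i j hij hj
      have a2 := hC2 (q i) (q j)
      have a3 : (C1 + C2) * (Cay S₁).dist (q i) (q j) =
        C1 * (Cay S₁).dist (q i) (q j) + C2 * (Cay S₁).dist (q i) (q j) := by ring
      omega
  obtain ⟨i, hi, h3⟩ := hR _ q hQ m (by
    show (Cay S₁).dist (q 0) m + (Cay S₁).dist m (q ((Cay S₂).dist 1 h)) =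
      (Cay S₁).dist (q 0) (q ((Cay S₂).dist 1 h))
    rw [q0, q1]
    exact hm)
  have b1 := hq 0 i (Nat.zero_le _) hi
  have b2 := hq i _ hi le_rfl
  rw [q0] at b1
  rw [q1] at b2
  obtain ⟨h', hh', h4⟩ := hH 1 H.one_mem h hh (q i) (by omega)
  refine ⟨h', hh', ?_⟩
  have b3 := hC1 (q i) h'
  have b4 : C1 * (Cay S₂).dist (q i) h' ≤ C1 * κ := Nat.mul_le_mul_left C1 h4
  have b5 : (Cay S₁).dist m h' ≤ (Cay S₁).dist m (q i) + (Cay S₁).dist (q i) h' :=
    (cay_conn h₁).dist_triangle
  have b6 : (Cay S₁).dist m (q i) ≤ R := h3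
  omega

end cay

section top

variable {G : Type} [Group G]

/-- the main theorem -/
theorem main_top (hyp : IsHyperbolic G) (hsp : VirtuallyCompactSpecial G) (H : Subgroup G)
    (hH : IsQuasiconvex H) : IsVirtualRetract H := by
  obtain ⟨S₁, h₁, δ, hδ⟩ := hyp
  obtain ⟨S₂, h₂, κ, hκ⟩ := hH
  obtain ⟨κ', hκ'⟩ := qc_change h₁ h₂ hδ H hκ
  obtain ⟨N, hfi, V, act, X, hX, hloc, hact, hcs⟩ := hsp
  obtain ⟨N', hfi', hsp'⟩ := exists_special hX hloc hact hcs
  have hle : N'.map N.subtype ≤ N := by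
    rintro g ⟨n, -, rfl⟩
    exact n.2
  have hmem : ∀ n : N'.map N.subtype, Subgroup.inclusion hle n ∈ N' := by
    rintro ⟨_, n, hn, rfl⟩
    exact hn
  letI act' : MulAction (N'.map N.subtype : Subgroup G) V :=
    MulAction.compHom V (Subgroup.inclusion hle)
  have hsm : ∀ (n : N'.map N.subtype) (v : V), n • v = Subgroup.inclusion hle n • v :=
    fun _ _ => rfl
  have hpar : ∀ e f, Par X (⊤ : Subgroup (N'.map N.subtype : Subgroup G)) e f → Par X N' e f := by
    intro e f h
    induction h with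
    | rel e f h =>
      cases h with
      | flip x y => exact par_flip x y
      | sq x y w z h => exact h.par
      | act n hn x y =>
        rw [hsm, hsm]
        exact Relation.EqvGen.rel _ _ (Step.act _ (hmem n) x y)
    | refl e => exact Relation.EqvGen.refl _
    | symm e f _ ih => exact Relation.EqvGen.symm _ _ ih
    | trans e f g _ _ ih1 ih2 => exact Relation.EqvGen.trans _ _ _ ih1 ih2
  have hsp2 : IsSpecialAction X (⊤ : Subgroup (N'.map N.subtype : Subgroup G)) := by
    refine ⟨?_, ?_, ?_⟩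
    · intro n _ x hx
      have h1 := hsp'.free _ (hmem n) x hx
      exact Subgroup.inclusion_injective hle (h1.trans (map_one _).symm)
    · intro x y z hxy hxz h
      exact hsp'.noself x y z hxy hxz (hpar _ _ h)
    · rintro x y z hxy hxz ⟨p, q, r, o, hs, h1, h2⟩
      exact hsp'.nointer x y z hxy hxz ⟨p, q, r, o, hs, hpar _ _ h1, hpar _ _ h2⟩
  have c : Cx (N'.map N.subtype) X (fun x y => (Cay S₁).dist x y) δ := by
    refine ⟨conn_nm (cay_conn h₁), fun g x y => cay_inv h₁ g x y,
      fun n => ball_finite (cay_conn h₁) (fun v => cay_loc h₁ v) 1 n, hδ, hX, hloc, ?_, ?_, ?_, ?_⟩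
    · intro n x y hxy
      exact hact _ x y hxy
    · intro n x hx
      exact hsp2.free n (Subgroup.mem_top _) x hx
    · obtain ⟨T, hT, hcov⟩ := hcs.cocompact
      refine ⟨(fun p : N × V => p.1 • p.2) '' (Set.range (tt N') ×ˢ T),
        ((tt_finite N' hfi').prod hT).image _, ?_⟩
      intro v
      obtain ⟨n, -, hn⟩ := hcov v
      refine ⟨⟨(((nn N' n⁻¹)⁻¹ : N') : N), ⟨_, ((nn N' n⁻¹)⁻¹).2, rfl⟩⟩,
        (tt N' n⁻¹, n • v), ⟨⟨_, rfl⟩, hn⟩, ?_⟩
      show tt N' n⁻¹ • n • v = (((nn N' n⁻¹)⁻¹ : N') : N) • v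
      rw [← mul_smul]
      congr 1
      have h3 := nn_tt N' n⁻¹
      rw [Subgroup.coe_inv, eq_inv_iff_mul_eq_one]
      have h4 : tt N' n⁻¹ = ((nn N' n⁻¹ : N') : N)⁻¹ * n⁻¹ := by
        rw [eq_inv_mul_iff_mul_eq]
        exact h3
      rw [h4]
      group
    · constructor
      rw [Subgroup.index_map_subtype]
      exact mul_ne_zero hfi'.index_ne_zero hfi.index_ne_zero
  obtain ⟨v0⟩ := hX.conn.nonempty
  exact final_cx c hsp2 v0 H hκ'

end top

end Pool.Agent.TH97.VR
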