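import Pool.Agent.H97R3.VR.Spec

/-!
# Walls of median graphs
-/

set_option autoImplicit false

namespace Pool.Agent.TH97.VR

open Pool.Agent.H97R3.VR

variable {V : Type} {X : SimpleGraph V}

/-- half spaces of a graph -/
def walls (X : SimpleGraph V) : Set (Set V) := {W | ∃ x y, X.Adj x y ∧ W = {u | Wh X x y u}}

theorem walls_compl (hX : IsMedian X) {W : Set V} (hW : W ∈ walls X) : Wᶜ ∈ walls X := by
  obtain ⟨x, y, hxy, rfl⟩ := hW
  refine ⟨y, x, hxy.symm, ?_⟩
  ext u
  constructor
  · intro h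
    exact Wh.of_not hX hxy h
  · intro h
    exact Wh.not h

theorem wall_eq (hX : IsMedian X) {W : Set V} (hW : W ∈ walls X) {a b : V} (hab : X.Adj a b)
    (ha : a ∈ W) (hb : b ∉ W) : W = {u | Wh X a b u} := by
  obtain ⟨x, y, hxy, rfl⟩ := hW
  ext u
  exact ladder hX hxy _ a b hab rfl ha (Wh.of_not hX hxy hb) u

theorem wall_left (hX : IsMedian X) {a b : V} (hab : X.Adj a b) : a ∈ {u | Wh X a b u} := by
  show X.dist a a < X.dist a b
  rw [SimpleGraph.dist_self, adj_one hab]
  exact one_pos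

theorem wall_right (hX : IsMedian X) {a b : V} (hab : X.Adj a b) : b ∉ {u | Wh X a b u} := by
  intro h
  have h1 : X.dist b a < X.dist b b := h
  rw [SimpleGraph.dist_self] at h1
  omega

theorem wall_convex (hX : IsMedian X) {W : Set V} (hW : W ∈ walls X) : IsConvex X W := by
  obtain ⟨x, y, hxy, rfl⟩ := hW
  exact half_isConvex hX hxy

theorem cross_point (hX : IsMedian X) {W : Set V} (_hW : W ∈ walls X) {p : ℕ → V} {n : ℕ}
    (h0 : p 0 ∈ W) (hn : p n ∉ W) : ∃ i < n, p i ∈ W ∧ p (i + 1) ∉ W := by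
  by_contra hcon
  push Not at hcon
  have : ∀ i ≤ n, p i ∈ W := by
    intro i
    induction i with
    | zero => exact fun _ => h0
    | succ i ih => exact fun h => hcon i (by omega) (ih (by omega))
  exact hn (this n le_rfl)

theorem walls_sep (hX : IsMedian X) (u v : V) :
    {W | W ∈ walls X ∧ u ∈ W ∧ v ∉ W}.Finite ∧
      {W | W ∈ walls X ∧ u ∈ W ∧ v ∉ W}.ncard = X.dist u v := by
  classical
  obtain ⟨r, hr⟩ : ∃ r, X.dist v u = r := ⟨_, rfl⟩
  have hr' : X.dist u v = r := by rw [SimpleGraph.dist_comm]; exact hr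
  have g0 : gp X v u 0 = u := rfl
  have gr : gp X v u r = v := by
    have h1 := gp_dist hX hr r le_rfl
    have h2 : X.dist v (gp X v u r) = 0 := by omega
    exact (hX.conn.dist_eq_zero_iff.1 h2).symm
  have e : {W | W ∈ walls X ∧ u ∈ W ∧ v ∉ W} =
      (fun i => {z | Wh X (gp X v u i) (gp X v u (i + 1)) z}) '' (Finset.range r : Set ℕ) := by
    ext W
    constructor
    · rintro ⟨h1, h2, h3⟩
      obtain ⟨i, hi, h4, h5⟩ := cross_point hX h1 (p := gp X v u) (n := r) (by rw [g0]; exact h2)
        (by rw [gr]; exact h3)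
      exact ⟨i, by simpa using hi, (wall_eq hX h1 (gp_adj hX hr hi) h4 h5).symm⟩
    · rintro ⟨i, hi, rfl⟩
      have hi' : i < r := by simpa using hi
      refine ⟨⟨_, _, gp_adj hX hr hi', rfl⟩, ?_, ?_⟩
      · show X.dist u _ < X.dist u _
        have h1 := gp_eq hX hr 0 i (by omega)
        have h2 := gp_eq hX hr 0 (i + 1) (by omega)
        rw [zero_add, g0] at h1 h2
        omega
      · intro h
        have h3 : X.dist v (gp X v u i) < X.dist v (gp X v u (i + 1)) := h
        have h1 := gp_dist hX hr i hi'.le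
        have h2 := gp_dist hX hr (i + 1) (by omega)
        omega
  have hinj : Set.InjOn (fun i => {z | Wh X (gp X v u i) (gp X v u (i + 1)) z})
      (Finset.range r : Set ℕ) := by
    have key : ∀ i j, i < j → j < r → {z | Wh X (gp X v u i) (gp X v u (i + 1)) z} ≠
        {z | Wh X (gp X v u j) (gp X v u (j + 1)) z} := by
      intro i j hij hj heq
      have h1 : gp X v u j ∈ {z | Wh X (gp X v u j) (gp X v u (j + 1)) z} :=
        wall_left hX (gp_adj hX hr hj)
      rw [← heq] at h1
      have h2 : X.dist (gp X v u j) (gp X v u i) < X.dist (gp X v u j) (gp X v u (i + 1)) := h1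
      obtain ⟨k, rfl⟩ : ∃ k, j = i + 1 + k := ⟨j - i - 1, by omega⟩
      have h3 := gp_eq hX hr i (1 + k) (by omega)
      have h4 := gp_eq hX hr (i + 1) k (by omega)
      rw [← add_assoc] at h3
      rw [SimpleGraph.dist_comm, h3, SimpleGraph.dist_comm, h4] at h2
      omega
    intro i hi j hj heq
    have hi' : i < r := by simpa using hi
    have hj' : j < r := by simpa using hj
    rcases lt_trichotomy i j with h | h | h
    · exact absurd heq (key i j h hj')
    · exact h
    · exact absurd heq.symm (key j i h hi')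
  refine ⟨?_, ?_⟩
  · rw [e]
    exact (Finset.finite_toSet _).image _
  · rw [e, Set.ncard_image_of_injOn hinj, Set.ncard_coe_finset, Finset.card_range, hr']

/-- vertices on the two sides of a wall are joined through a pair of adjacent vertices -/
theorem exists_edge (hX : IsMedian X) {W : Set V} (hW : W ∈ walls X) {u v : V} (hu : u ∈ W)
    (hv : v ∉ W) : ∃ a b, X.Adj a b ∧ a ∈ W ∧ b ∉ W ∧ X.dist u a ≤ X.dist u v ∧
      X.dist u b ≤ X.dist u v := by
  obtain ⟨r, hr⟩ : ∃ r, X.dist v u = r := ⟨_, rfl⟩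
  have hr' : X.dist u v = r := by rw [SimpleGraph.dist_comm]; exact hr
  have g0 : gp X v u 0 = u := rfl
  have gr : gp X v u r = v := by
    have h1 := gp_dist hX hr r le_rfl
    have h2 : X.dist v (gp X v u r) = 0 := by omega
    exact (hX.conn.dist_eq_zero_iff.1 h2).symm
  obtain ⟨i, hi, h4, h5⟩ := cross_point hX hW (p := gp X v u) (n := r) (by rw [g0]; exact hu)
    (by rw [gr]; exact hv)
  have h1 := gp_eq hX hr 0 i (by omega)
  have h2 := gp_eq hX hr 0 (i + 1) (by omega)
  rw [zero_add, g0] at h1 h2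
  exact ⟨_, _, gp_adj hX hr hi, h4, h5, by omega, by omega⟩

section act

variable {M : Type} [Group M] [MulAction M V]

open Pointwise

theorem smul_wall (hX : IsMedian X)
    (hM : ∀ (g : M) (x y : V), X.Adj x y → X.Adj (g • x) (g • y)) (g : M) {x y : V} :
    g • {u | Wh X x y u} = {u | Wh X (g • x) (g • y) u} := by
  ext u
  rw [Set.mem_smul_set_iff_inv_smul_mem]
  show X.dist (g⁻¹ • u) x < X.dist (g⁻¹ • u) y ↔ X.dist u (g • x) < X.dist u (g • y)
  have h1 := dist_smul hX.conn hM g (g⁻¹ • u) x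
  have h2 := dist_smul hX.conn hM g (g⁻¹ • u) y
  rw [smul_inv_smul] at h1 h2
  rw [h1, h2]

theorem smul_mem_walls (hX : IsMedian X)
    (hM : ∀ (g : M) (x y : V), X.Adj x y → X.Adj (g • x) (g • y)) (g : M) {W : Set V}
    (hW : W ∈ walls X) : g • W ∈ walls X := by
  obtain ⟨x, y, hxy, rfl⟩ := hW
  exact ⟨g • x, g • y, hM g x y hxy, smul_wall hX hM g⟩

end act

end Pool.Agent.TH97.VR
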